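import Pool.Agent.T2H31.NV.Stm

/-! # NV, package BOC: Chebyshev's inequality, Borel-Cantelli, monotonicity -/

set_option autoImplicit false

namespace Pool.Agent.T2H31.NV

open MeasureTheory ProbabilityTheory Finset Filter Topology Pool.Agent.T2H31.RC

namespace BOC

lemma kap_pos (k : ℕ) : 0 < kap k := by
  unfold kap KK
  have h1 : (0 : ℝ) < (k : ℝ) ^ 2 + 1 := by positivity
  rw [sub_pos, div_lt_one h1]
  nlinarith [sq_nonneg ((k : ℝ) - 1)]

lemma EE_nonneg (k r : ℕ) : 0 ≤ EE k r := by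
  unfold EE
  exact le_max_of_le_left (mul_nonneg (kap_pos k).le (Nat.cast_nonneg _))

lemma NN_mono {ι : Type} [Fintype ι] [DecidableEq ι] (x : ℕ → ℝ) (k : ℕ) (c : ι → ℝ) (τ : ℝ)
    {X Y : ℕ} (h : X ≤ Y) : NN x k c τ X ≤ NN x k c τ Y := by
  classical
  unfold NN
  refine Finset.card_le_card (Finset.filter_subset_filter _ ?_)
  exact Fintype.piFinset_subset _ _ fun _ => Finset.Icc_subset_Icc_right h

lemma NN_le {ι : Type} [Fintype ι] [DecidableEq ι] (x : ℕ → ℝ) (k : ℕ) (c : ι → ℝ) (τ : ℝ)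
    (X : ℕ) : NN x k c τ X ≤ (Fintype.piFinset fun _ : ι => Icc 1 X).card := by
  classical
  unfold NN
  exact Finset.card_filter_le _ _

lemma NN_meas {Ω : Type} [MeasurableSpace Ω] {x : ℕ → Ω → ℝ} (hx : ∀ n, Measurable (x n))
    {ι : Type} [Fintype ι] [DecidableEq ι] (k : ℕ) (c : ι → ℝ) (τ : ℝ) (X : ℕ) :
    Measurable fun ω => (NN (fun n => x n ω) k c τ X : ℝ) := by
  classical
  have h : (fun ω => (NN (fun n => x n ω) k c τ X : ℝ)) = fun ω =>
      ∑ z ∈ Fintype.piFinset fun _ : ι => Icc 1 X,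
        if Function.Injective z ∧ ∀ j : Fin k, |∑ i, c i * x (z i) ω ^ ((j : ℕ) + 1)| ≤ τ
          then (1 : ℝ) else 0 := by
    funext ω
    unfold NN
    rw [Finset.card_filter]
    push_cast
    refine Finset.sum_congr rfl fun z _ => ?_
    congr
  rw [h]
  refine Finset.measurable_sum _ fun z _ => Measurable.ite ?_ measurable_const measurable_const
  have e : {ω | Function.Injective z ∧
      ∀ j : Fin k, |∑ i, c i * x (z i) ω ^ ((j : ℕ) + 1)| ≤ τ} =
      {_ω : Ω | Function.Injective z} ∩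
        ⋂ j : Fin k, {ω | |∑ i, c i * x (z i) ω ^ ((j : ℕ) + 1)| ≤ τ} := by
    ext ω
    simp
  rw [e]
  refine (MeasurableSet.const _).inter (MeasurableSet.iInter fun j =>
    measurableSet_le ?_ measurable_const)
  refine continuous_abs.measurable.comp ?_
  exact Finset.measurable_sum _ fun i _ => ((hx (z i)).pow_const _).const_mul _

end BOC

open BOC in
theorem T_BOC (hMOM : P_MOM) : P_BOC := by
  intro Ω _ P D x hN k hk r c hc τ hτ
  obtain ⟨C, hC, hM⟩ := hMOM Ω P D x hN k hk r c hc τ hτ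
  have := hN.prob
  obtain ⟨E, hE⟩ : ∃ E : ℝ, E = EE k r := ⟨_, rfl⟩
  obtain ⟨κ, hκ⟩ : ∃ κ : ℝ, κ = kap k := ⟨_, rfl⟩
  have hE0 : 0 ≤ E := by rw [hE]; exact EE_nonneg k r
  have hκ0 : 0 < κ := by rw [hκ]; exact kap_pos k
  rw [← hE, ← hκ] at hM
  rw [← hE]
  obtain ⟨f, hf⟩ : ∃ f : ℕ → Ω → ℝ, f = fun m ω => (NN (fun n => x n ω) k c τ (2 ^ m) : ℝ) :=
    ⟨_, rfl⟩
  have hfm : ∀ m, Measurable (f m) := fun m => by rw [hf]; exact NN_meas hN.meas k c τ _
  have hfL : ∀ m, MemLp (f m) 2 P := fun m => by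
    refine MemLp.of_bound (hfm m).aestronglyMeasurable
      ((Fintype.piFinset fun _ : Fin r => Icc 1 (2 ^ m)).card : ℝ)
      (Filter.Eventually.of_forall fun ω => ?_)
    rw [hf]
    simp only [Real.norm_natCast]
    exact_mod_cast NN_le _ k c τ _
  obtain ⟨q, hq⟩ : ∃ q : ℝ, q = (2 : ℝ) ^ (-κ) := ⟨_, rfl⟩
  have hq0 : 0 < q := by rw [hq]; positivity
  have hq1 : q < 1 := by
    rw [hq]
    exact Real.rpow_lt_one_of_one_lt_of_neg (by norm_num) (by linarith)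
  have hpow : ∀ (m : ℕ) (u : ℝ), (((2 ^ m : ℕ) : ℝ)) ^ u = ((2 : ℝ) ^ u) ^ m := by
    intro m u
    push_cast
    rw [← Real.rpow_natCast, ← Real.rpow_mul (by norm_num), mul_comm, Real.rpow_mul (by norm_num),
      Real.rpow_natCast]
  -- the bad events
  obtain ⟨S, hS⟩ : ∃ S : ℕ → Set Ω, S = fun m =>
    {ω | ((2 : ℝ) ^ E) ^ m ≤ |f m ω - ∫ ω', f m ω' ∂P|} := ⟨_, rfl⟩
  have hSb : ∀ m, P (S m) ≤ ENNReal.ofReal (C * q ^ m) := by
    intro m
    rw [hS]
    have h1 := meas_ge_le_variance_div_sq (hfL m) (c := ((2 : ℝ) ^ E) ^ m) (by positivity)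
    refine h1.trans (ENNReal.ofReal_le_ofReal ?_)
    have h2 := (hM (2 ^ m) (Nat.one_le_two_pow)).2
    rw [hpow] at h2
    have h3 : Var[f m; P] ≤ C * ((2 : ℝ) ^ (2 * E - κ)) ^ m := by
      rw [hf]
      exact h2
    rw [div_le_iff₀ (by positivity)]
    refine h3.trans (le_of_eq ?_)
    have h4 : (2 : ℝ) ^ (2 * E - κ) = ((2 : ℝ) ^ E) ^ 2 * q := by
      rw [hq, ← Real.rpow_natCast, ← Real.rpow_mul (by norm_num), ← Real.rpow_add (by norm_num)]
      congr 1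
      push_cast
      ring
    rw [h4, mul_pow, ← pow_mul, ← pow_mul]
    ring
  have hsum : ∑' m, P (S m) ≠ ⊤ := by
    have h1 : Summable fun m : ℕ => C * q ^ m :=
      (summable_geometric_of_lt_one hq0.le hq1).mul_left C
    have h2 : ∑' m, ENNReal.ofReal (C * q ^ m) ≠ ⊤ := by
      rw [← ENNReal.ofReal_tsum_of_nonneg (fun m => by positivity) h1]
      exact ENNReal.ofReal_ne_top
    exact ne_top_of_le_ne_top h2 (ENNReal.tsum_le_tsum hSb)
  have hBC := ae_eventually_notMem hsum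
  filter_upwards [hBC] with ω hω
  obtain ⟨m₀, hm₀⟩ := Filter.eventually_atTop.1 hω
  have hgood : ∀ m, m₀ ≤ m → (NN (fun n => x n ω) k c τ (2 ^ m) : ℝ) ≤ (C + 1) * ((2 : ℝ) ^ E) ^ m := by
    intro m hm
    have h1 := hm₀ m hm
    rw [hS] at h1
    simp only [Set.mem_ofPred_eq, not_le] at h1
    have h2 := (hM (2 ^ m) (Nat.one_le_two_pow)).1
    rw [hpow] at h2
    have h3 : (∫ ω', f m ω' ∂P) ≤ C * ((2 : ℝ) ^ E) ^ m := by
      rw [hf]
      exact h2
    have h4 := (abs_lt.1 h1).2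
    have h5 : f m ω = (NN (fun n => x n ω) k c τ (2 ^ m) : ℝ) := by rw [hf]
    rw [h5] at h4
    linarith
  refine ⟨(C + 1) * (2 : ℝ) ^ E + (NN (fun n => x n ω) k c τ (2 ^ m₀) : ℝ), by positivity,
    fun X hX => ?_⟩
  have hX1 : (1 : ℝ) ≤ X := by exact_mod_cast hX
  have hXE : 1 ≤ (X : ℝ) ^ E := Real.one_le_rpow hX1 hE0
  by_cases hcase : X ≤ 2 ^ m₀
  · have h1 : (NN (fun n => x n ω) k c τ X : ℝ) ≤ NN (fun n => x n ω) k c τ (2 ^ m₀) := by
      exact_mod_cast NN_mono _ k c τ hcase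
    have h2 : (0 : ℝ) ≤ NN (fun n => x n ω) k c τ (2 ^ m₀) := Nat.cast_nonneg _
    have h3 : (0 : ℝ) ≤ (C + 1) * (2 : ℝ) ^ E := by positivity
    nlinarith
  · push Not at hcase
    obtain ⟨m, hm1, hm2⟩ : ∃ m : ℕ, X ≤ 2 ^ m ∧ 2 ^ m ≤ 2 * X := by
      refine ⟨Nat.clog 2 X, Nat.le_pow_clog (by norm_num) X, ?_⟩
      rcases Nat.lt_or_ge 1 X with h | h
      · have h1 := Nat.pow_pred_clog_lt_self (b := 2) (by norm_num) h
        have h2 : 0 < Nat.clog 2 X := Nat.clog_pos (by norm_num) h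
        have h3 : 2 ^ Nat.clog 2 X = 2 * 2 ^ (Nat.clog 2 X).pred := by
          rw [← Nat.pow_succ']
          congr 1
          exact (Nat.succ_pred_eq_of_pos h2).symm
        omega
      · have h1 : X = 1 := by omega
        subst h1
        simp
    have hmm : m₀ ≤ m := by
      by_contra hlt
      push Not at hlt
      have : 2 ^ m ≤ 2 ^ m₀ := Nat.pow_le_pow_right (by norm_num) hlt.le
      omega
    have h1 : (NN (fun n => x n ω) k c τ X : ℝ) ≤ NN (fun n => x n ω) k c τ (2 ^ m) := by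
      exact_mod_cast NN_mono _ k c τ hm1
    have h2 := hgood m hmm
    have h3 : ((2 : ℝ) ^ E) ^ m ≤ (2 : ℝ) ^ E * (X : ℝ) ^ E := by
      rw [← hpow, ← Real.mul_rpow (by norm_num) (by linarith)]
      refine Real.rpow_le_rpow (by positivity) ?_ hE0
      exact_mod_cast hm2
    have h4 : (0 : ℝ) ≤ NN (fun n => x n ω) k c τ (2 ^ m₀) := Nat.cast_nonneg _
    calc (NN (fun n => x n ω) k c τ X : ℝ) ≤ (C + 1) * ((2 : ℝ) ^ E) ^ m := h1.trans h2
      _ ≤ (C + 1) * ((2 : ℝ) ^ E * (X : ℝ) ^ E) := mul_le_mul_of_nonneg_left h3 (by positivity)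
      _ ≤ _ := by nlinarith

end Pool.Agent.T2H31.NV
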