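import Pool.Agent.T2H31.NV.Stm

set_option autoImplicit false

namespace Pool.Agent.T2H31.NV

open MeasureTheory ProbabilityTheory Finset Filter Topology Pool.Agent.T2H31.RC

private theorem cub_pi_mono {ι : Type} [Fintype ι] (μ ν : ι → Measure ℝ) (h : ∀ i, ν i ≤ μ i) :
    Measure.pi ν ≤ Measure.pi μ := by
  refine Measure.le_iff.2 fun s hs => ?_
  rw [Measure.pi, Measure.pi, toMeasure_apply _ _ hs, toMeasure_apply _ _ hs]
  have key : OuterMeasure.pi (fun i => (ν i).toOuterMeasure) ≤ OuterMeasure.pi (fun i => (μ i).toOuterMeasure) := by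
    refine OuterMeasure.le_pi.2 fun t _ => ?_
    exact (OuterMeasure.pi_pi_le _ t).trans (Finset.prod_le_prod' fun i _ => h i (t i))
  exact key s

private theorem cub_pi_smul {ι : Type} [Fintype ι] (D : NNReal) (μ : ι → Measure ℝ) [∀ i, IsFiniteMeasure (μ i)] :
    Measure.pi (fun i => (D : ENNReal) • μ i) = (D : ENNReal) ^ (Fintype.card ι) • Measure.pi μ := by
  haveI : ∀ i, IsFiniteMeasure ((D : ENNReal) • μ i) := fun i => ⟨by
    rw [Measure.smul_apply, smul_eq_mul]
    exact ENNReal.mul_lt_top ENNReal.coe_lt_top (measure_lt_top _ _)⟩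
  refine Measure.pi_eq fun s hs => ?_
  rw [Measure.smul_apply, Measure.pi_pi, smul_eq_mul]
  simp only [Measure.smul_apply, smul_eq_mul]
  rw [Finset.prod_mul_distrib, Finset.prod_const, Finset.card_univ]

theorem T_CUB : P_CUB := by
  classical
  intro Ω _ P D x hN ι _ _ X S hS
  haveI := hN.prob
  -- the cubes
  let Q : (ι → ℕ) → Set (ι → ℝ) := fun z => Set.pi Set.univ fun i => Set.Ico ((z i : ℝ) - 1 / 2) ((z i : ℝ) + 1 / 2)
  have hQ : ∀ z, MeasurableSet (Q z) := fun z => MeasurableSet.univ_pi fun i => measurableSet_Ico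
  have key : ∀ z : ι → ℕ, Function.Injective z →
      P {ω | (fun i => x (z i) ω) ∈ S} ≤ (D : ENNReal) ^ (Fintype.card ι) * volume (S ∩ Q z) := by
    intro z hz
    have hm : Measurable fun ω => (fun i => x (z i) ω) := measurable_pi_lambda _ fun i => hN.meas (z i)
    have hind : iIndepFun (fun i => x (z i)) P := iIndepFun.precomp hz hN.indep
    have hmap := (iIndepFun_iff_map_fun_eq_pi_map (fun i => (hN.meas (z i)).aemeasurable)).1 hind
    have e1 : P {ω | (fun i => x (z i) ω) ∈ S} = (P.map (fun ω i => x (z i) ω)) S := by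
      rw [Measure.map_apply hm hS]; rfl
    rw [e1, hmap]
    refine (cub_pi_mono (fun i => (D : ENNReal) • (volume.restrict (Set.Ico ((z i : ℝ) - 1 / 2) ((z i : ℝ) + 1 / 2))))
      _ (fun i => hN.law (z i)) S).trans ?_
    rw [cub_pi_smul D (fun i => volume.restrict (Set.Ico ((z i : ℝ) - 1 / 2) ((z i : ℝ) + 1 / 2))), Measure.smul_apply,
      smul_eq_mul, ← Measure.restrict_pi_pi, Measure.restrict_apply hS]
    exact le_rfl
  have hdisj : (↑((Fintype.piFinset fun _ : ι => Icc 1 X).filter (fun z => Function.Injective z)) :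
      Set (ι → ℕ)).PairwiseDisjoint (fun z => S ∩ Q z) := by
    intro z _ w _ hzw
    refine Set.disjoint_left.2 fun v hv hw => hzw ?_
    funext i
    have h1 := hv.2 i (Set.mem_univ i)
    have h2 := hw.2 i (Set.mem_univ i)
    simp only [Set.mem_Ico] at h1 h2
    have h3 : (z i : ℝ) < w i + 1 := by linarith [h1.1, h2.2]
    have h4 : (w i : ℝ) < z i + 1 := by linarith [h2.1, h1.2]
    have h5 : z i < w i + 1 := by exact_mod_cast h3
    have h6 : w i < z i + 1 := by exact_mod_cast h4
    omega
  calc (∑ z ∈ (Fintype.piFinset fun _ : ι => Icc 1 X).filter (fun z => Function.Injective z),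
          P {ω | (fun i => x (z i) ω) ∈ S})
      ≤ ∑ z ∈ (Fintype.piFinset fun _ : ι => Icc 1 X).filter (fun z => Function.Injective z),
          (D : ENNReal) ^ (Fintype.card ι) * volume (S ∩ Q z) :=
        Finset.sum_le_sum fun z hz => key z (Finset.mem_filter.1 hz).2
    _ = (D : ENNReal) ^ (Fintype.card ι) * volume (⋃ z ∈ (Fintype.piFinset fun _ : ι => Icc 1 X).filter
          (fun z => Function.Injective z), S ∩ Q z) := by
        rw [← Finset.mul_sum, measure_biUnion_finset hdisj fun z _ => hS.inter (hQ z)]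
    _ ≤ (D : ENNReal) ^ (Fintype.card ι) * volume (S ∩ {v | ∀ i, 0 ≤ v i ∧ v i ≤ (X : ℝ) + 1}) := by
        gcongr
        refine Set.iUnion₂_subset fun z hz => ?_
        refine Set.inter_subset_inter_right _ fun v hv i => ?_
        have h1 := hv i (Set.mem_univ i)
        simp only [Set.mem_Ico] at h1
        have hz' := Finset.mem_Icc.1 (Fintype.mem_piFinset.1 (Finset.mem_filter.1 hz).1 i)
        have h2 : (1 : ℝ) ≤ z i := by exact_mod_cast hz'.1
        have h3 : (z i : ℝ) ≤ X := by exact_mod_cast hz'.2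
        constructor
        · linarith [h1.1]
        · linarith [h1.2]

end Pool.Agent.T2H31.NV
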