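import Pool.Agent.T2H31.NV.Stm

/-! Package DEC (helper13): decay of the integrals. -/

set_option autoImplicit false
set_option maxHeartbeats 4000000

namespace Pool.Agent.T2H31.NV

open MeasureTheory Finset Pool.Agent.T2H31.RC

theorem DEC_ee (x : ℝ) : ‖ee x‖ = 1 := by
  unfold ee
  rw [show (2 * (Real.pi : ℂ) * (x : ℂ) * Complex.I) = ((2 * Real.pi * x : ℝ) : ℂ) * Complex.I by
    push_cast; ring]
  exact Complex.norm_exp_ofReal_mul_I _

theorem DEC_triv (k : ℕ) {X : ℝ} (hX : 0 ≤ X) (α : Fin k → ℝ) : ‖II k X α‖ ≤ X := by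
  unfold II
  have h := intervalIntegral.norm_integral_le_of_norm_le_const (a := 0) (b := X) (C := 1)
    (f := fun y : ℝ => ee (∑ j, α j * y ^ ((j : ℕ) + 1))) (fun y _ => (DEC_ee _).le)
  rwa [one_mul, sub_zero, abs_of_nonneg hX] at h

theorem DEC_scale (k : ℕ) {X : ℝ} (hX : 0 < X) (α : Fin k → ℝ) :
    II k X α = X * II k 1 (fun j => α j * X ^ ((j : ℕ) + 1)) := by
  unfold II
  have h := intervalIntegral.integral_comp_mul_left (a := 0) (b := 1)
    (fun y : ℝ => ee (∑ j, α j * y ^ ((j : ℕ) + 1))) hX.ne'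
  rw [mul_zero, mul_one] at h
  have h1 : (X : ℂ) * ∫ y in (0 : ℝ)..1, ee (∑ j, α j * (X * y) ^ ((j : ℕ) + 1)) =
      ∫ y in (0 : ℝ)..X, ee (∑ j, α j * y ^ ((j : ℕ) + 1)) := by
    rw [h, Complex.real_smul, Complex.ofReal_inv, ← mul_assoc, mul_inv_cancel₀, one_mul]
    exact_mod_cast hX.ne'
  rw [← h1]
  congr 1
  refine intervalIntegral.integral_congr fun y _ => ?_
  simp only
  congr 1
  refine sum_congr rfl fun j _ => ?_
  rw [mul_pow]
  ring

theorem T_DEC (hVDC : P_VDC) : P_DEC := by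
  intro k hk
  obtain ⟨C, hC0, hC⟩ := hVDC k hk
  have hk0 : (0 : ℝ) < k := by exact_mod_cast hk
  have hkne : NeZero k := ⟨by omega⟩
  refine ⟨2 * (C + 1), by positivity, fun X hX α => ?_⟩
  have hX0 : 0 < X := by linarith
  rw [DEC_scale k hX0]
  obtain ⟨β, hβ⟩ : ∃ β : Fin k → ℝ, β = fun j => α j * X ^ ((j : ℕ) + 1) := ⟨_, rfl⟩
  rw [← hβ, norm_mul, Complex.norm_real, Real.norm_eq_abs, abs_of_pos hX0]
  have hβa : ∀ j, |α j| * X ^ ((j : ℕ) + 1) = |β j| := by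
    intro j
    rw [hβ]
    simp only
    rw [abs_mul, abs_of_pos (pow_pos hX0 _)]
  rw [prod_congr rfl fun j _ => by rw [hβa j]]
  obtain ⟨j0, hj0⟩ := Finite.exists_max fun j => |β j|
  have hB0 : 0 ≤ |β j0| := abs_nonneg _
  have h1 : ‖II k 1 β‖ ≤ 2 * (C + 1) * (1 + |β j0|) ^ (-(1 / (k : ℝ))) := by
    have hpos : 0 < (1 + |β j0|) ^ (-(1 / (k : ℝ))) := Real.rpow_pos_of_pos (by linarith) _
    have hk1 : 1 / (k : ℝ) ≤ 1 := by
      rw [div_le_one hk0]
      exact_mod_cast hk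
    have hk2 : 0 ≤ 1 / (k : ℝ) := by positivity
    have h2 : (2 : ℝ) ^ (1 / (k : ℝ)) ≤ 2 := by
      calc (2 : ℝ) ^ (1 / (k : ℝ)) ≤ (2 : ℝ) ^ (1 : ℝ) :=
            Real.rpow_le_rpow_of_exponent_le (by norm_num) hk1
        _ = 2 := Real.rpow_one 2
    rcases le_or_gt |β j0| 1 with h | h
    · have h3 := DEC_triv k zero_le_one β
      have h4 : 1 ≤ 2 * (1 + |β j0|) ^ (-(1 / (k : ℝ))) := by
        have h5 : (1 + |β j0|) ^ (1 / (k : ℝ)) ≤ 2 := by
          refine le_trans (Real.rpow_le_rpow (by linarith) (by linarith) hk2) h2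
        rw [Real.rpow_neg (by linarith)]
        have h6 : 0 < (1 + |β j0|) ^ (1 / (k : ℝ)) := Real.rpow_pos_of_pos (by linarith) _
        rw [← div_eq_mul_inv, le_div_iff₀ h6]
        linarith
      have h5 : 0 ≤ C * (2 * (1 + |β j0|) ^ (-(1 / (k : ℝ)))) := by positivity
      linarith
    · have h3 := hC β |β j0| (by linarith) ⟨j0, le_rfl⟩
      refine h3.trans ?_
      have h4 : |β j0| ^ (-(1 / (k : ℝ))) ≤ 2 * (1 + |β j0|) ^ (-(1 / (k : ℝ))) := by
        rw [Real.rpow_neg hB0, Real.rpow_neg (by linarith)]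
        have h5 : (1 + |β j0|) ^ (1 / (k : ℝ)) ≤ 2 * |β j0| ^ (1 / (k : ℝ)) := by
          calc (1 + |β j0|) ^ (1 / (k : ℝ)) ≤ (2 * |β j0|) ^ (1 / (k : ℝ)) :=
                Real.rpow_le_rpow (by linarith) (by linarith) hk2
            _ = 2 ^ (1 / (k : ℝ)) * |β j0| ^ (1 / (k : ℝ)) := Real.mul_rpow (by norm_num) hB0
            _ ≤ _ := mul_le_mul_of_nonneg_right h2 (Real.rpow_nonneg hB0 _)
        have h6 : 0 < (1 + |β j0|) ^ (1 / (k : ℝ)) := Real.rpow_pos_of_pos (by linarith) _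
        have h7 : 0 < |β j0| ^ (1 / (k : ℝ)) := Real.rpow_pos_of_pos (by linarith) _
        rw [← div_eq_mul_inv, inv_le_comm₀ h7 (by positivity), inv_div, div_le_iff₀ (by norm_num)]
        linarith
      have h5 := mul_le_mul_of_nonneg_left h4 hC0
      nlinarith
  -- the product
  have h2 : (1 + |β j0|) ^ (-(1 / (k : ℝ))) ≤ ∏ j : Fin k, (1 + |β j|) ^ (-(1 / (k : ℝ) ^ 2)) := by
    have e1 : (1 + |β j0|) ^ (-(1 / (k : ℝ))) =
        ∏ _j : Fin k, (1 + |β j0|) ^ (-(1 / (k : ℝ) ^ 2)) := by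
      rw [prod_const, card_univ, Fintype.card_fin, ← Real.rpow_natCast, ← Real.rpow_mul (by linarith)]
      congr 1
      field_simp
    rw [e1]
    refine prod_le_prod (fun j _ => Real.rpow_nonneg (by linarith) _) fun j _ => ?_
    refine Real.rpow_le_rpow_of_nonpos (by have := abs_nonneg (β j); linarith)
      (by have := hj0 j; linarith) ?_
    have : 0 ≤ 1 / (k : ℝ) ^ 2 := by positivity
    linarith
  calc X * ‖II k 1 β‖ ≤ X * (2 * (C + 1) * (1 + |β j0|) ^ (-(1 / (k : ℝ)))) :=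
        mul_le_mul_of_nonneg_left h1 hX0.le
    _ ≤ X * (2 * (C + 1) * ∏ j : Fin k, (1 + |β j|) ^ (-(1 / (k : ℝ) ^ 2))) := by
        refine mul_le_mul_of_nonneg_left (mul_le_mul_of_nonneg_left h2 (by positivity)) hX0.le
    _ = _ := by ring

end Pool.Agent.T2H31.NV
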