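import Pool.Agent.T2H31.NV.Stm

/-! # Package EXI: the models exist -/

set_option autoImplicit false

namespace Pool.Agent.T2H31.NV

open MeasureTheory ProbabilityTheory Finset Filter Topology Pool.Agent.T2H31.RC

namespace PkgEXI

/-- the uniform distribution on `[n - η, n + η)` -/
noncomputable def law (η : ℝ) (n : ℕ) : Measure ℝ :=
  ENNReal.ofReal (1 / (2 * η)) • volume.restrict (Set.Ico ((n : ℝ) - η) ((n : ℝ) + η))

lemma law_prob {η : ℝ} (hη : 0 < η) (n : ℕ) : IsProbabilityMeasure (law η n) := by
  refine ⟨?_⟩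
  unfold law
  rw [Measure.smul_apply, Measure.restrict_apply MeasurableSet.univ, Set.univ_inter,
    Real.volume_Ico, smul_eq_mul, ← ENNReal.ofReal_mul (by positivity)]
  have : 1 / (2 * η) * ((n : ℝ) + η - (n - η)) = 1 := by
    field_simp
    ring
  rw [this, ENNReal.ofReal_one]

/-- cutting off -/
noncomputable def clip (η : ℝ) (n : ℕ) (t : ℝ) : ℝ :=
  open Classical in if t ∈ Set.Ico ((n : ℝ) - η) ((n : ℝ) + η) then t else n

lemma clip_meas (η : ℝ) (n : ℕ) : Measurable (clip η n) := by
  classical
  unfold clip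
  exact Measurable.ite measurableSet_Ico measurable_id measurable_const

lemma clip_close {η : ℝ} (hη : 0 < η) (n : ℕ) (t : ℝ) : |clip η n t - n| ≤ η := by
  unfold clip
  split_ifs with h
  · rw [abs_le]
    exact ⟨by linarith [h.1], by linarith [h.2]⟩
  · rw [sub_self, abs_zero]
    exact hη.le

lemma clip_ae (η : ℝ) (n : ℕ) : clip η n =ᵐ[law η n] id := by
  unfold law
  refine Measure.ae_smul_measure ?_ _
  filter_upwards [ae_restrict_mem measurableSet_Ico] with t ht
  unfold clip
  rw [if_pos ht]
  rfl

end PkgEXI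

open PkgEXI

theorem T_EXI : P_EXI := by
  intro η hη hη2
  have hp : ∀ n, IsProbabilityMeasure (law η n) := fun n => law_prob hη n
  refine ⟨ℕ → ℝ, inferInstance, Measure.infinitePi fun n => law η n,
    fun n ω => clip η n (ω n), ⟨inferInstance,
      fun n => (clip_meas η n).comp (measurable_pi_apply n), ?_, fun n => ?_⟩,
    fun n ω => clip_close hη n (ω n)⟩
  · exact iIndepFun_infinitePi (P := fun n => law η n) (X := fun n x => clip η n x)
      fun n => clip_meas η n
  · have h1 : (fun ω : ℕ → ℝ => clip η n (ω n)) = clip η n ∘ Function.eval n := rfl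
    rw [h1, ← Measure.map_map (clip_meas η n) (measurable_pi_apply n),
      (measurePreserving_eval_infinitePi (fun n => law η n) n).map_eq,
      Measure.map_congr (clip_ae η n), Measure.map_id]
    unfold law
    have h2 : ENNReal.ofReal (1 / (2 * η)) = ((Real.toNNReal (1 / (2 * η)) : NNReal) : ENNReal) := rfl
    rw [h2]
    have h3 : volume.restrict (Set.Ico ((n : ℝ) - η) ((n : ℝ) + η)) ≤
        volume.restrict (Set.Ico ((n : ℝ) - 1 / 2) ((n : ℝ) + 1 / 2)) :=
      Measure.restrict_mono (Set.Ico_subset_Ico (by linarith) (by linarith)) le_rfl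
    refine Measure.le_intro fun s _ _ => ?_
    rw [Measure.smul_apply, Measure.smul_apply, smul_eq_mul, smul_eq_mul]
    exact mul_le_mul_right (h3 s) _

end Pool.Agent.T2H31.NV
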