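import Pool.Agent.T2H31.NV.Stm

/-! Package FUB (helper13): pairs of solutions, by Fubini. -/

set_option autoImplicit false
set_option maxHeartbeats 4000000

namespace Pool.Agent.T2H31.NV

open MeasureTheory Finset Pool.Agent.T2H31.RC

theorem T_FUB (hVOL : P_VOL) : P_FUB := by
  intro k hk r c hc τ hτ T φ
  obtain ⟨C1, hC1, h1⟩ := hVOL k hk (Fin r) c hc τ hτ
  obtain ⟨C2, hC2, h2⟩ := hVOL k hk T (fun i => c i) (fun i => hc i) τ hτ
  refine ⟨C2 * C1, by positivity, fun X hX => ?_⟩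
  have hX0 : 0 < X := by linarith
  set Z : Set (Fin r → ℝ) := {z | (∀ i, 0 ≤ z i ∧ z i ≤ X) ∧
    ∀ j : Fin k, |∑ i, c i * z i ^ ((j : ℕ) + 1) - (0 : Fin k → ℝ) j| ≤ τ} with hZ
  set S : Set ((Fin r → ℝ) × (T → ℝ)) := {p | ((∀ i, 0 ≤ p.1 i ∧ p.1 i ≤ X) ∧
    ∀ j : Fin k, |∑ i, c i * p.1 i ^ ((j : ℕ) + 1)| ≤ τ) ∧ (∀ i, 0 ≤ p.2 i ∧ p.2 i ≤ X) ∧
    ∀ j : Fin k, |∑ i : T, c i * p.2 i ^ ((j : ℕ) + 1) +
      ∑ i ∈ Tᶜ, c i * p.1 (φ i) ^ ((j : ℕ) + 1)| ≤ τ} with hS
  have hSm : MeasurableSet S := by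
    rw [hS]
    refine IsClosed.measurableSet ?_
    simp only [Set.ofPred_and, Set.ofPred_forall]
    refine IsClosed.inter (IsClosed.inter (isClosed_iInter fun i => IsClosed.inter
      (isClosed_le (by fun_prop) (by fun_prop)) (isClosed_le (by fun_prop) (by fun_prop)))
      (isClosed_iInter fun j => isClosed_le (by fun_prop) (by fun_prop))) (IsClosed.inter
      (isClosed_iInter fun i => IsClosed.inter
      (isClosed_le (by fun_prop) (by fun_prop)) (isClosed_le (by fun_prop) (by fun_prop)))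
      (isClosed_iInter fun j => isClosed_le (by fun_prop) (by fun_prop)))
  have hZm : MeasurableSet Z := by
    rw [hZ]
    refine IsClosed.measurableSet ?_
    simp only [Set.ofPred_and, Set.ofPred_forall]
    exact IsClosed.inter (isClosed_iInter fun i => IsClosed.inter
      (isClosed_le (by fun_prop) (by fun_prop)) (isClosed_le (by fun_prop) (by fun_prop)))
      (isClosed_iInter fun j => isClosed_le (by fun_prop) (by fun_prop))
  have he : MeasurePreserving (MeasurableEquiv.sumPiEquivProdPi fun _ : Fin r ⊕ T => ℝ)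
      volume ((volume : Measure (Fin r → ℝ)).prod (volume : Measure (T → ℝ))) :=
    measurePreserving_sumPiEquivProdPi (fun _ : Fin r ⊕ T => (volume : Measure ℝ))
  have hpre : {v : Fin r ⊕ T → ℝ | (∀ i, 0 ≤ v i ∧ v i ≤ X) ∧
        (∀ j : Fin k, |∑ i, c i * v (Sum.inl i) ^ ((j : ℕ) + 1)| ≤ τ) ∧
        ∀ j : Fin k, |∑ i : T, c i * v (Sum.inr i) ^ ((j : ℕ) + 1) +
          ∑ i ∈ Tᶜ, c i * v (Sum.inl (φ i)) ^ ((j : ℕ) + 1)| ≤ τ} =
      (MeasurableEquiv.sumPiEquivProdPi fun _ : Fin r ⊕ T => ℝ) ⁻¹' S := by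
    ext v
    constructor
    · rintro ⟨g1, g2, g3⟩
      exact ⟨⟨fun i => g1 (Sum.inl i), g2⟩, fun i => g1 (Sum.inr i), g3⟩
    · rintro ⟨⟨g1, g2⟩, g3, g4⟩
      refine ⟨fun i => ?_, g2, g4⟩
      rcases i with i | i
      · exact g1 i
      · exact g3 i
  rw [hpre, he.measure_preimage hSm.nullMeasurableSet, Measure.prod_apply hSm]
  have h3 : ∀ z : Fin r → ℝ, volume (Prod.mk z ⁻¹' S) ≤
      Z.indicator (fun _ => ENNReal.ofReal (C2 * X ^ (EE k T.card))) z := by
    intro z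
    by_cases hz : z ∈ Z
    · rw [Set.indicator_of_mem hz]
      have h4 := h2 X hX fun j => -∑ i ∈ Tᶜ, c i * z (φ i) ^ ((j : ℕ) + 1)
      rw [Fintype.card_coe] at h4
      refine le_trans (measure_mono fun w hw => ?_) h4
      obtain ⟨-, g3, g4⟩ := hw
      refine ⟨g3, fun j => ?_⟩
      rw [sub_neg_eq_add]
      exact g4 j
    · have h5 : Prod.mk z ⁻¹' S = ∅ := by
        refine Set.eq_empty_of_forall_notMem fun w hw => hz ?_
        obtain ⟨⟨g1, g2⟩, -⟩ := hw
        refine ⟨g1, fun j => ?_⟩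
        rw [Pi.zero_apply, sub_zero]
        exact g2 j
      rw [h5, measure_empty]
      exact zero_le
  refine (lintegral_mono h3).trans ?_
  rw [lintegral_indicator_const hZm]
  have h6 := h1 X hX 0
  rw [Fintype.card_fin] at h6
  refine (mul_le_mul_right h6 _).trans (le_of_eq ?_)
  rw [← ENNReal.ofReal_mul (by positivity)]
  congr 1
  rw [Real.rpow_add hX0]
  ring

end Pool.Agent.T2H31.NV
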