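import Pool.Agent.T2H31.NV.Stm

/-! # Package INT: the integers -/

set_option autoImplicit false

namespace Pool.Agent.T2H31.NV

open MeasureTheory ProbabilityTheory Finset Filter Topology Pool.Agent.T2H31.RC

namespace PkgINT

lemma eq_of_close (a b : ℕ) (τ : ℝ) (hτ : τ < 1) (h : |(a : ℝ) - b| ≤ τ) : a = b := by
  have h1 : |((a : ℤ) - b : ℤ)| < 1 := by
    have h2 : ((|((a : ℤ) - b : ℤ)| : ℤ) : ℝ) < 1 := by
      push_cast
      linarith
    exact_mod_cast h2
  have h3 := Int.abs_lt_one_iff.1 h1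
  omega

end PkgINT

theorem T_INT : P_INT := by
  intro s k τ X hτ hτ1
  classical
  unfold J Jint
  congr 1
  ext z
  simp only [Finset.mem_filter]
  refine and_congr_right fun _ => forall₂_congr fun j _ => ?_
  have e1 : ∀ w : Fin s → ℕ, ∑ i, ((w i : ℕ) : ℝ) ^ j = ((∑ i, w i ^ j : ℕ) : ℝ) := by
    intro w
    push_cast
    rfl
  rw [e1, e1]
  constructor
  · exact PkgINT.eq_of_close _ _ τ hτ1
  · intro h
    rw [h, sub_self, abs_zero]
    exact hτ.le

end Pool.Agent.T2H31.NV
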