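import Pool.Agent.T2H31.NV.T_DEC

/-! Package MEA (helper13): mean values over a box. -/

set_option autoImplicit false
set_option maxHeartbeats 4000000

namespace Pool.Agent.T2H31.NV

open MeasureTheory Finset Pool.Agent.T2H31.RC

/-- the one-dimensional integral -/
theorem MEA_one {s A Y : ℝ} (hs : 0 ≤ s) (hs1 : s ≠ 1) (hA : 0 < A) (hY : 1 ≤ Y) :
    ∫ a in Set.Icc (-A) A, (1 + |a| * Y) ^ (-s) ≤
      2 * ((1 + A) / |1 - s|) * Y ^ (-(min s 1)) := by
  have hY0 : 0 < Y := by linarith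
  have hcont : Continuous fun a : ℝ => (1 + |a| * Y) ^ (-s) := by
    refine Continuous.rpow_const (by fun_prop) fun a => Or.inl ?_
    have : 0 ≤ |a| * Y := by positivity
    positivity
  have hint : ∀ a b : ℝ, IntervalIntegrable (fun a : ℝ => (1 + |a| * Y) ^ (-s)) volume a b :=
    fun a b => hcont.intervalIntegrable a b
  rw [integral_Icc_eq_integral_Ioc, ← intervalIntegral.integral_of_le (by linarith),
    ← intervalIntegral.integral_add_adjacent_intervals (hint (-A) 0) (hint 0 A)]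
  have h1 : ∫ a in (-A)..0, (1 + |a| * Y) ^ (-s) = ∫ a in (0 : ℝ)..A, (1 + |a| * Y) ^ (-s) := by
    have h := intervalIntegral.integral_comp_neg (a := 0) (b := A)
      (fun a : ℝ => (1 + |a| * Y) ^ (-s))
    rw [neg_zero] at h
    rw [← h]
    refine intervalIntegral.integral_congr fun a _ => ?_
    rw [abs_neg]
  have h2 : ∫ a in (0 : ℝ)..A, (1 + |a| * Y) ^ (-s) = ((1 + A * Y) ^ (1 - s) - 1) / ((1 - s) * Y) := by
    have e1 : ∫ a in (0 : ℝ)..A, (1 + |a| * Y) ^ (-s) = ∫ a in (0 : ℝ)..A, (1 + Y * a) ^ (-s) := by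
      refine intervalIntegral.integral_congr fun a ha => ?_
      rw [Set.uIcc_of_le hA.le] at ha
      rw [abs_of_nonneg ha.1, mul_comm]
    have e2 := intervalIntegral.integral_comp_add_mul (a := 0) (b := A) (fun t : ℝ => t ^ (-s))
      hY0.ne' 1
    rw [e1, e2, mul_zero, add_zero, integral_rpow, smul_eq_mul, Real.one_rpow]
    · have e3 : -s + 1 = 1 - s := by ring
      rw [e3, mul_comm Y A]
      have e4 : (1 - s) ≠ 0 := fun h => hs1 (by linarith)
      field_simp
    · right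
      refine ⟨fun h => hs1 (by linarith), fun h => ?_⟩
      rw [Set.uIcc_of_le (by nlinarith)] at h
      linarith [h.1]
  rw [h1, h2]
  have hAY : 1 + A * Y ≤ (1 + A) * Y := by nlinarith
  have hAY0 : 0 < 1 + A * Y := by positivity
  rcases lt_or_gt_of_ne hs1 with h | h
  · have h3 : min s 1 = s := min_eq_left h.le
    have h4 : 0 < 1 - s := by linarith
    rw [h3, abs_of_pos h4]
    have h5 : (1 + A * Y) ^ (1 - s) ≤ (1 + A) * Y ^ (1 - s) := by
      calc (1 + A * Y) ^ (1 - s) ≤ ((1 + A) * Y) ^ (1 - s) :=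
            Real.rpow_le_rpow hAY0.le hAY h4.le
        _ = (1 + A) ^ (1 - s) * Y ^ (1 - s) := Real.mul_rpow (by linarith) hY0.le
        _ ≤ (1 + A) * Y ^ (1 - s) := by
            refine mul_le_mul_of_nonneg_right ?_ (Real.rpow_nonneg hY0.le _)
            calc (1 + A) ^ (1 - s) ≤ (1 + A) ^ (1 : ℝ) :=
                  Real.rpow_le_rpow_of_exponent_le (by linarith) (by linarith)
              _ = 1 + A := Real.rpow_one _
    have h6 : Y ^ (1 - s) = Y * Y ^ (-s) := by
      rw [sub_eq_add_neg, Real.rpow_add hY0, Real.rpow_one]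
    have h7 : ((1 + A * Y) ^ (1 - s) - 1) / ((1 - s) * Y) ≤ (1 + A) / (1 - s) * Y ^ (-s) := by
      rw [div_le_iff₀ (by positivity)]
      have e : (1 + A) / (1 - s) * Y ^ (-s) * ((1 - s) * Y) = (1 + A) * (Y * Y ^ (-s)) := by
        field_simp
      rw [e, ← h6]
      linarith
    linarith
  · have h3 : min s 1 = 1 := min_eq_right h.le
    have h4 : 0 < s - 1 := by linarith
    rw [h3, abs_of_neg (by linarith), Real.rpow_neg_one]
    have h5 : 0 ≤ (1 + A * Y) ^ (1 - s) := Real.rpow_nonneg hAY0.le _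
    have h7 : ((1 + A * Y) ^ (1 - s) - 1) / ((1 - s) * Y) ≤ (1 + A) / -(1 - s) * Y⁻¹ := by
      have e1 : ((1 + A * Y) ^ (1 - s) - 1) / ((1 - s) * Y) =
          (1 - (1 + A * Y) ^ (1 - s)) / ((s - 1) * Y) := by
        rw [div_eq_div_iff (by nlinarith) (by positivity)]
        ring
      rw [e1, neg_sub, div_le_iff₀ (by positivity)]
      have e : (1 + A) / (s - 1) * Y⁻¹ * ((s - 1) * Y) = 1 + A := by
        field_simp
      rw [e]
      linarith
    linarith

theorem MEA_KK (k : ℕ) : ∑ j ∈ range k, ((j + 1 : ℕ) : ℝ) = KK k := by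
  unfold KK
  induction k with
  | zero => simp
  | succ k ih =>
    rw [sum_range_succ, ih]
    push_cast
    ring

/-- the product integral -/
theorem MEA_prod (k : ℕ) {s A : ℝ} (hs : 0 ≤ s) (hs1 : s ≠ 1) (hA : 0 < A) :
    ∃ C : ℝ, 0 ≤ C ∧ ∀ X : ℝ, 1 ≤ X →
      ∫ α in {α : Fin k → ℝ | ∀ j, |α j| ≤ A}, ∏ j : Fin k, (1 + |α j| * X ^ ((j : ℕ) + 1)) ^ (-s) ≤
        C * X ^ (-(min s 1 * KK k)) := by
  have hc : 0 ≤ 2 * ((1 + A) / |1 - s|) := by
    have := abs_nonneg (1 - s)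
    positivity
  refine ⟨(2 * ((1 + A) / |1 - s|)) ^ k, by positivity, fun X hX => ?_⟩
  have hX0 : 0 < X := by linarith
  have hset : {α : Fin k → ℝ | ∀ j, |α j| ≤ A} = Set.univ.pi fun _ => Set.Icc (-A) A := by
    ext α
    simp only [Set.mem_ofPred_eq, Set.mem_pi, Set.mem_univ, true_imp_iff, Set.mem_Icc, abs_le]
  rw [hset, volume_pi, Measure.restrict_pi_pi,
    integral_fintype_prod_eq_prod (fun (j : Fin k) (a : ℝ) => (1 + |a| * X ^ ((j : ℕ) + 1)) ^ (-s))]
  have h1 : ∏ j : Fin k, ∫ a in Set.Icc (-A) A, (1 + |a| * X ^ ((j : ℕ) + 1)) ^ (-s) ≤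
      ∏ j : Fin k, (2 * ((1 + A) / |1 - s|) * (X ^ ((j : ℕ) + 1)) ^ (-(min s 1))) := by
    refine prod_le_prod (fun j _ => ?_) fun j _ => MEA_one hs hs1 hA (one_le_pow₀ hX)
    refine integral_nonneg fun a => Real.rpow_nonneg ?_ _
    have : 0 ≤ |a| * X ^ ((j : ℕ) + 1) := by positivity
    positivity
  refine h1.trans (le_of_eq ?_)
  rw [prod_mul_distrib, prod_const, card_univ, Fintype.card_fin]
  congr 1
  have h2 : ∀ j : Fin k, (X ^ ((j : ℕ) + 1)) ^ (-(min s 1)) =
      X ^ ((((j : ℕ) + 1 : ℕ) : ℝ) * -(min s 1)) := by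
    intro j
    rw [← Real.rpow_natCast, ← Real.rpow_mul hX0.le]
  rw [prod_congr rfl fun j _ => h2 j, ← Real.rpow_sum_of_pos hX0, ← sum_mul]
  congr 1
  have h3 : ∑ j : Fin k, (((j : ℕ) + 1 : ℕ) : ℝ) = KK k := by
    rw [Fin.sum_univ_eq_sum_range (fun j => ((j + 1 : ℕ) : ℝ)) k]
    exact MEA_KK k
  rw [h3]
  ring

/-- from a pointwise bound to the integral -/
theorem MEA_mono (k : ℕ) {s A c X : ℝ} {r : ℕ} (hX : 1 ≤ X)
    (h : ∀ α : Fin k → ℝ, ‖II k X α‖ ^ r ≤
      c * ∏ j : Fin k, (1 + |α j| * X ^ ((j : ℕ) + 1)) ^ (-s)) :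
    ∫ α in {α : Fin k → ℝ | ∀ j, |α j| ≤ A}, ‖II k X α‖ ^ r ≤
      c * ∫ α in {α : Fin k → ℝ | ∀ j, |α j| ≤ A},
        ∏ j : Fin k, (1 + |α j| * X ^ ((j : ℕ) + 1)) ^ (-s) := by
  have hX0 : 0 < X := by linarith
  rw [← integral_const_mul]
  have hset : {α : Fin k → ℝ | ∀ j, |α j| ≤ A} = Set.univ.pi fun _ => Set.Icc (-A) A := by
    ext α
    simp only [Set.mem_ofPred_eq, Set.mem_pi, Set.mem_univ, true_imp_iff, Set.mem_Icc, abs_le]
  have hcomp : IsCompact {α : Fin k → ℝ | ∀ j, |α j| ≤ A} := by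
    rw [hset]
    exact isCompact_univ_pi fun _ => isCompact_Icc
  have hcont : Continuous fun α : Fin k → ℝ =>
      c * ∏ j : Fin k, (1 + |α j| * X ^ ((j : ℕ) + 1)) ^ (-s) := by
    refine continuous_const.mul (continuous_finsetProd _ fun j _ => ?_)
    refine Continuous.rpow_const (by fun_prop) fun a => Or.inl ?_
    have : 0 ≤ |a j| * X ^ ((j : ℕ) + 1) := by positivity
    positivity
  refine integral_mono_of_nonneg (Filter.Eventually.of_forall fun α => by positivity)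
    (hcont.continuousOn.integrableOn_compact hcomp) (Filter.Eventually.of_forall h)

theorem T_MEA (hDEC : P_DEC) : P_MEA := by
  intro k hk r A hA
  obtain ⟨C, hC0, hC⟩ := hDEC k hk
  have hk0 : (0 : ℝ) < k := by exact_mod_cast hk
  rcases Nat.lt_or_ge (k ^ 2) r with hr | hr
  · -- large `r`
    have hr' : k ^ 2 + 1 ≤ r := hr
    obtain ⟨s, hs⟩ : ∃ s : ℝ, s = ((k : ℝ) ^ 2 + 1) / (k : ℝ) ^ 2 := ⟨_, rfl⟩
    have hs1 : 1 < s := by
      rw [hs, lt_div_iff₀ (by positivity)]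
      linarith
    obtain ⟨C1, hC1, h1⟩ := MEA_prod k (s := s) (by linarith) hs1.ne' hA
    refine ⟨C ^ (k ^ 2 + 1) * C1, by positivity, fun X hX => ?_⟩
    have hX0 : 0 < X := by linarith
    have h2 := MEA_mono k (s := s) (A := A) (c := C ^ (k ^ 2 + 1) * X ^ r) (r := r) hX
      (fun α => ?_)
    · refine h2.trans ((mul_le_mul_of_nonneg_left (h1 X hX) (by positivity)).trans ?_)
      rw [min_eq_right hs1.le, one_mul]
      have e : C ^ (k ^ 2 + 1) * X ^ r * (C1 * X ^ (-KK k)) =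
          C ^ (k ^ 2 + 1) * C1 * X ^ ((r : ℝ) - KK k) := by
        rw [sub_eq_add_neg, Real.rpow_add hX0, Real.rpow_natCast]
        ring
      rw [e]
      refine mul_le_mul_of_nonneg_left ?_ (by positivity)
      exact Real.rpow_le_rpow_of_exponent_le hX (le_max_right _ _)
    · have e1 : ‖II k X α‖ ^ r = ‖II k X α‖ ^ (r - (k ^ 2 + 1)) * ‖II k X α‖ ^ (k ^ 2 + 1) := by
        rw [← pow_add]
        congr 1
        omega
      have e2 : ‖II k X α‖ ^ (r - (k ^ 2 + 1)) ≤ X ^ (r - (k ^ 2 + 1)) :=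
        pow_le_pow_left₀ (norm_nonneg _) (DEC_triv k hX0.le α) _
      have e3 : ‖II k X α‖ ^ (k ^ 2 + 1) ≤ C ^ (k ^ 2 + 1) * X ^ (k ^ 2 + 1) *
          ∏ j : Fin k, (1 + |α j| * X ^ ((j : ℕ) + 1)) ^ (-s) := by
        refine (pow_le_pow_left₀ (norm_nonneg _) (hC X hX α) _).trans (le_of_eq ?_)
        rw [mul_pow, mul_pow, ← prod_pow]
        congr 1
        refine prod_congr rfl fun j _ => ?_
        have hb : 0 ≤ 1 + |α j| * X ^ ((j : ℕ) + 1) := by positivity
        rw [← Real.rpow_natCast, ← Real.rpow_mul hb, hs]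
        congr 1
        push_cast
        field_simp
      have e4 : X ^ r = X ^ (r - (k ^ 2 + 1)) * X ^ (k ^ 2 + 1) := by
        rw [← pow_add]
        congr 1
        omega
      rw [e1, e4]
      calc ‖II k X α‖ ^ (r - (k ^ 2 + 1)) * ‖II k X α‖ ^ (k ^ 2 + 1) ≤
            X ^ (r - (k ^ 2 + 1)) * (C ^ (k ^ 2 + 1) * X ^ (k ^ 2 + 1) *
              ∏ j : Fin k, (1 + |α j| * X ^ ((j : ℕ) + 1)) ^ (-s)) :=
            mul_le_mul e2 e3 (by positivity) (by positivity)
        _ = _ := by ring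
  · -- small `r`
    obtain ⟨s, hs⟩ : ∃ s : ℝ, s = (r : ℝ) / ((k : ℝ) ^ 2 + 1) := ⟨_, rfl⟩
    have hrk : (r : ℝ) ≤ (k : ℝ) ^ 2 := by exact_mod_cast hr
    have hs0 : 0 ≤ s := by rw [hs]; positivity
    have hs1 : s < 1 := by
      rw [hs, div_lt_one (by positivity)]
      linarith
    obtain ⟨C1, hC1, h1⟩ := MEA_prod k (s := s) hs0 hs1.ne hA
    refine ⟨C ^ r * C1, by positivity, fun X hX => ?_⟩
    have hX0 : 0 < X := by linarith
    have h2 := MEA_mono k (s := s) (A := A) (c := C ^ r * X ^ r) (r := r) hX (fun α => ?_)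
    · refine h2.trans ((mul_le_mul_of_nonneg_left (h1 X hX) (by positivity)).trans ?_)
      rw [min_eq_left hs1.le]
      have e : C ^ r * X ^ r * (C1 * X ^ (-(s * KK k))) =
          C ^ r * C1 * X ^ (kap k * (r : ℝ)) := by
        have e5 : kap k * (r : ℝ) = (r : ℝ) + -(s * KK k) := by
          rw [hs]
          unfold kap
          field_simp
          ring
        rw [e5, Real.rpow_add hX0, Real.rpow_natCast]
        ring
      rw [e]
      refine mul_le_mul_of_nonneg_left ?_ (by positivity)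
      exact Real.rpow_le_rpow_of_exponent_le hX (le_max_left _ _)
    · refine (pow_le_pow_left₀ (norm_nonneg _) (hC X hX α) _).trans ?_
      rw [mul_pow, mul_pow, ← prod_pow]
      refine mul_le_mul_of_nonneg_left ?_ (by positivity)
      refine prod_le_prod (fun j _ => by positivity) fun j _ => ?_
      have hb : 1 ≤ 1 + |α j| * X ^ ((j : ℕ) + 1) := by
        have : 0 ≤ |α j| * X ^ ((j : ℕ) + 1) := by positivity
        linarith
      rw [← Real.rpow_natCast, ← Real.rpow_mul (by linarith)]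
      refine Real.rpow_le_rpow_of_exponent_le hb ?_
      rw [hs, neg_mul, neg_le_neg_iff, one_div_mul_eq_div]
      exact div_le_div_of_nonneg_left (Nat.cast_nonneg r) (by positivity) (by linarith)

end Pool.Agent.T2H31.NV
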