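import Pool.Agent.T2H31.NV.Stm

/-! # Package MOM: mean and variance (helper21) -/

set_option autoImplicit false
set_option linter.unusedSectionVars false

namespace Pool.Agent.T2H31.NV.PkgMOM

open MeasureTheory ProbabilityTheory Finset Filter Topology Pool.Agent.T2H31.RC Pool.Agent.T2H31.NV
open scoped ENNReal

open Classical in
/-- the injective maps to `{1, ..., X}` -/
noncomputable def Inj (ι : Type) [Fintype ι] [DecidableEq ι] (X : ℕ) : Finset (ι → ℕ) :=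
  (Fintype.piFinset fun _ : ι => Icc 1 X).filter (fun z => Function.Injective z)

lemma mem_Inj {ι : Type} [Fintype ι] [DecidableEq ι] {X : ℕ} {z : ι → ℕ} :
    z ∈ Inj ι X ↔ (∀ i, 1 ≤ z i ∧ z i ≤ X) ∧ Function.Injective z := by
  unfold Inj
  rw [Finset.mem_filter, Fintype.mem_piFinset]
  simp only [Finset.mem_Icc]

/-- the solution set -/
def S0 (k : ℕ) {r : ℕ} (c : Fin r → ℝ) (τ : ℝ) : Set (Fin r → ℝ) :=
  {v | ∀ j : Fin k, |∑ i, c i * v i ^ ((j : ℕ) + 1)| ≤ τ}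

lemma S0_meas (k : ℕ) {r : ℕ} (c : Fin r → ℝ) (τ : ℝ) : MeasurableSet (S0 k c τ) := by
  have h : S0 k c τ = ⋂ j : Fin k, {v : Fin r → ℝ | |∑ i, c i * v i ^ ((j : ℕ) + 1)| ≤ τ} := by
    ext v
    simp [S0]
  rw [h]
  exact MeasurableSet.iInter fun j => measurableSet_le (by fun_prop) measurable_const

/-- the event that `z` gives a solution -/
def A {Ω : Type} (x : ℕ → Ω → ℝ) (k : ℕ) {r : ℕ} (c : Fin r → ℝ) (τ : ℝ) (z : Fin r → ℕ) : Set Ω :=
  {ω | (fun i => x (z i) ω) ∈ S0 k c τ}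

/-- the pairs of solutions -/
def S2 (k : ℕ) {r : ℕ} (c : Fin r → ℝ) (τ : ℝ) (T : Finset (Fin r)) (φ : Fin r → Fin r) : Set (Fin r ⊕ T → ℝ) :=
  {v | (∀ j : Fin k, |∑ i, c i * v (Sum.inl i) ^ ((j : ℕ) + 1)| ≤ τ) ∧
    ∀ j : Fin k, |∑ i : T, c i * v (Sum.inr i) ^ ((j : ℕ) + 1) +
          ∑ i ∈ Tᶜ, c i * v (Sum.inl (φ i)) ^ ((j : ℕ) + 1)| ≤ τ}

lemma S2_meas (k : ℕ) {r : ℕ} (c : Fin r → ℝ) (τ : ℝ) (T : Finset (Fin r)) (φ : Fin r → Fin r) :
    MeasurableSet (S2 k c τ T φ) := by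
  have h : S2 k c τ T φ = (⋂ j : Fin k, {v : Fin r ⊕ T → ℝ | |∑ i, c i * v (Sum.inl i) ^ ((j : ℕ) + 1)| ≤ τ}) ∩
      ⋂ j : Fin k, {v : Fin r ⊕ T → ℝ | |∑ i : T, c i * v (Sum.inr i) ^ ((j : ℕ) + 1) +
          ∑ i ∈ Tᶜ, c i * v (Sum.inl (φ i)) ^ ((j : ℕ) + 1)| ≤ τ} := by
    ext v
    simp [S2]
  rw [h]
  exact (MeasurableSet.iInter fun j => measurableSet_le (by fun_prop) measurable_const).inter
    (MeasurableSet.iInter fun j => measurableSet_le (by fun_prop) measurable_const)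

section

variable {Ω : Type} [MeasurableSpace Ω] {P : Measure Ω} {D : NNReal} {x : ℕ → Ω → ℝ}
  {k r : ℕ} {c : Fin r → ℝ} {τ : ℝ}

lemma A_meas (hx : ∀ n, Measurable (x n)) (z : Fin r → ℕ) : MeasurableSet (A x k c τ z) :=
  (measurable_pi_lambda (fun ω (i : Fin r) => x (z i) ω) fun i => hx (z i)) (S0_meas k c τ)

lemma NN_eq (X : ℕ) (ω : Ω) : (NN (fun n => x n ω) k c τ X : ℝ) =
    ∑ z ∈ Inj (Fin r) X, ((A x k c τ z).indicator 1 ω : ℝ) := by
  classical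
  have h1 : NN (fun n => x n ω) k c τ X = ((Inj (Fin r) X).filter fun z => ω ∈ A x k c τ z).card := by
    unfold NN
    congr 1
    ext z
    rw [Finset.mem_filter, Finset.mem_filter]
    unfold Inj
    rw [Finset.mem_filter]
    constructor
    · rintro ⟨h2, h3, h4⟩
      exact ⟨⟨h2, h3⟩, h4⟩
    · rintro ⟨⟨h2, h3⟩, h4⟩
      exact ⟨h2, h3, h4⟩
  rw [h1, Finset.card_filter]
  push_cast
  refine Finset.sum_congr rfl fun z _ => ?_
  by_cases h : ω ∈ A x k c τ z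
  · rw [if_pos h, Set.indicator_of_mem h]
    rfl
  · rw [if_neg h, Set.indicator_of_notMem h]

/-- from a bound in `ENNReal` to a real bound -/
lemma real_bd [IsProbabilityMeasure P] {α : Type} (s : Finset α) (E : α → Set Ω) (m : ℕ) (C e : ℝ) (hC : 0 ≤ C)
    (he : 0 ≤ e) (X : ℕ) (hX : 1 ≤ X)
    (h : ∑ a ∈ s, P (E a) ≤ (D : ℝ≥0∞) ^ m * ENNReal.ofReal (C * ((X : ℝ) + 1) ^ e)) :
    ∑ a ∈ s, P.real (E a) ≤ ((D : ℝ) ^ m * (C * 2 ^ e)) * (X : ℝ) ^ e := by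
  have hX1 : (1 : ℝ) ≤ X := by exact_mod_cast hX
  have h1 : ∑ a ∈ s, P.real (E a) = (∑ a ∈ s, P (E a)).toReal := by
    rw [ENNReal.toReal_sum fun a _ => measure_ne_top P _]
    rfl
  rw [h1]
  have h2 : ((D : ℝ≥0∞) ^ m * ENNReal.ofReal (C * ((X : ℝ) + 1) ^ e)) ≠ ∞ :=
    ENNReal.mul_ne_top (ENNReal.pow_ne_top ENNReal.coe_ne_top) ENNReal.ofReal_ne_top
  refine (ENNReal.toReal_mono h2 h).trans ?_
  rw [ENNReal.toReal_mul, ENNReal.toReal_pow, ENNReal.coe_toReal, ENNReal.toReal_ofReal (by positivity)]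
  have h3 : ((X : ℝ) + 1) ^ e ≤ 2 ^ e * (X : ℝ) ^ e := by
    rw [← Real.mul_rpow (by norm_num) (by linarith)]
    exact Real.rpow_le_rpow (by linarith) (by linarith) he
  calc (D : ℝ) ^ m * (C * ((X : ℝ) + 1) ^ e) ≤ (D : ℝ) ^ m * (C * (2 ^ e * (X : ℝ) ^ e)) := by gcongr
    _ = ((D : ℝ) ^ m * (C * 2 ^ e)) * (X : ℝ) ^ e := by ring

lemma kap_nonneg (k : ℕ) : 0 ≤ kap k := by
  unfold kap KK
  have h1 : (0 : ℝ) < (k : ℝ) ^ 2 + 1 := by positivity
  rw [sub_nonneg, div_le_one h1]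
  nlinarith [sq_nonneg ((k : ℝ) - 1), sq_nonneg ((k : ℝ))]

lemma kap_le_one (k : ℕ) : kap k ≤ 1 := by
  unfold kap KK
  have h1 : 0 ≤ (k : ℝ) * (k + 1) / 2 / ((k : ℝ) ^ 2 + 1) := by positivity
  linarith

lemma EE_nonneg (k r : ℕ) : 0 ≤ EE k r :=
  le_max_of_le_left (mul_nonneg (kap_nonneg k) (Nat.cast_nonneg r))

lemma EE_step (k r t : ℕ) (h : t + 1 ≤ r) : EE k t ≤ EE k r - kap k := by
  have h1 : ((t : ℝ) + 1) ≤ r := by exact_mod_cast h
  unfold EE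
  refine max_le ?_ ?_
  · have h2 := le_max_left (kap k * (r : ℝ)) (r - KK k)
    nlinarith [kap_nonneg k]
  · have h2 := le_max_right (kap k * (r : ℝ)) (r - KK k)
    have := kap_le_one k
    linarith

/-- mean -/
lemma mean (hN : Near P D x) (hCUB : P_CUB) (hVOL : P_VOL) (hk : 1 ≤ k) (hc : ∀ i, c i ≠ 0) (hτ : 0 < τ) :
    ∃ C : ℝ, 0 ≤ C ∧ ∀ X : ℕ, 1 ≤ X →
      ∑ z ∈ Inj (Fin r) X, P.real (A x k c τ z) ≤ C * (X : ℝ) ^ (EE k r) := by
  have := hN.prob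
  obtain ⟨C, hC, h⟩ := hVOL k hk (Fin r) c hc τ hτ
  rw [Fintype.card_fin] at h
  refine ⟨(D : ℝ) ^ r * (C * 2 ^ (EE k r)), by positivity, fun X hX => ?_⟩
  refine real_bd (Inj (Fin r) X) (A x k c τ) r C (EE k r) hC (EE_nonneg k r) X hX ?_
  have h1 := hCUB Ω P D x hN (Fin r) X (S0 k c τ) (S0_meas k c τ)
  rw [Fintype.card_fin] at h1
  refine (le_of_eq ?_).trans (h1.trans ?_)
  · rfl
  · gcongr
    refine (measure_mono ?_).trans (h ((X : ℝ) + 1) (by linarith [(Nat.cast_nonneg X : (0 : ℝ) ≤ X)]) 0)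
    rintro v ⟨h2, h3⟩
    refine ⟨h3, fun j => ?_⟩
    have := h2 j
    simpa using this

/-- independence for disjoint ranges -/
lemma indep (hN : Near P D x) {z z' : Fin r → ℕ} (h : Disjoint (Set.range z) (Set.range z')) :
    P.real (A x k c τ z ∩ A x k c τ z') = P.real (A x k c τ z) * P.real (A x k c τ z') := by
  classical
  have hd : Disjoint (univ.image z) (univ.image z') := by
    rw [Finset.disjoint_left]
    intro a ha ha'
    obtain ⟨i, -, hi⟩ := Finset.mem_image.1 ha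
    obtain ⟨i', -, hi'⟩ := Finset.mem_image.1 ha'
    exact Set.disjoint_left.1 h ⟨i, hi⟩ ⟨i', hi'⟩
  have h1 := hN.indep.indepFun_finset (univ.image z) (univ.image z') hd hN.meas
  have key : ∀ w : Fin r → ℕ, ∃ g : (↥(univ.image w) → ℝ) → (Fin r → ℝ), Measurable g ∧
      A x k c τ w = (fun ω (i : ↥(univ.image w)) => x i ω) ⁻¹' (g ⁻¹' (S0 k c τ)) := by
    intro w
    refine ⟨fun v i => v ⟨w i, Finset.mem_image_of_mem w (Finset.mem_univ i)⟩, ?_, rfl⟩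
    exact measurable_pi_lambda _ fun i => measurable_pi_apply _
  obtain ⟨g, hg, hg2⟩ := key z
  obtain ⟨g', hg', hg2'⟩ := key z'
  rw [hg2, hg2', measureReal_def, measureReal_def, measureReal_def,
    h1.measure_inter_preimage_eq_mul _ _ (hg (S0_meas k c τ)) (hg' (S0_meas k c τ)), ENNReal.toReal_mul]

/-- the variance as a double sum -/
lemma var_le (hN : Near P D x) (X : ℕ) :
    (∫ ω, (NN (fun n => x n ω) k c τ X : ℝ) ∂P) = ∑ z ∈ Inj (Fin r) X, P.real (A x k c τ z) ∧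
    Var[fun ω => (NN (fun n => x n ω) k c τ X : ℝ); P] ≤
      open Classical in ∑ p ∈ ((Inj (Fin r) X) ×ˢ (Inj (Fin r) X)).filter
        (fun p => ¬ Disjoint (Set.range p.1) (Set.range p.2)), P.real (A x k c τ p.1 ∩ A x k c τ p.2) := by
  classical
  have := hN.prob
  have hm := fun z : Fin r → ℕ => A_meas (k := k) (c := c) (τ := τ) hN.meas z
  have hI : ∀ z : Fin r → ℕ, Integrable ((A x k c τ z).indicator (1 : Ω → ℝ)) P := fun z =>
    (integrable_const (1 : ℝ)).indicator (hm z)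
  have hf : (fun ω => (NN (fun n => x n ω) k c τ X : ℝ)) =
      fun ω => ∑ z ∈ Inj (Fin r) X, ((A x k c τ z).indicator 1 ω : ℝ) := by
    funext ω
    exact NN_eq X ω
  have h1 : (∫ ω, (NN (fun n => x n ω) k c τ X : ℝ) ∂P) = ∑ z ∈ Inj (Fin r) X, P.real (A x k c τ z) := by
    rw [hf, integral_finsetSum _ fun z _ => hI z]
    exact Finset.sum_congr rfl fun z _ => integral_indicator_one (hm z)
  refine ⟨h1, ?_⟩
  have hL : MemLp (fun ω => (NN (fun n => x n ω) k c τ X : ℝ)) 2 P := by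
    rw [hf]
    exact memLp_finsetSum _ fun z _ => memLp_indicator_const 2 (hm z) (1 : ℝ) (Or.inr (measure_ne_top _ _))
  rw [variance_eq_sub hL, h1]
  have h2 : ∫ ω, ((fun ω => (NN (fun n => x n ω) k c τ X : ℝ)) ^ 2) ω ∂P =
      ∑ p ∈ (Inj (Fin r) X) ×ˢ (Inj (Fin r) X), P.real (A x k c τ p.1 ∩ A x k c τ p.2) := by
    have h3 : ∀ ω, ((fun ω => (NN (fun n => x n ω) k c τ X : ℝ)) ^ 2) ω =
        ∑ p ∈ (Inj (Fin r) X) ×ˢ (Inj (Fin r) X), ((A x k c τ p.1 ∩ A x k c τ p.2).indicator 1 ω : ℝ) := by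
      intro ω
      rw [Pi.pow_apply, NN_eq X ω, sq, Finset.sum_mul_sum, Finset.sum_product]
      refine Finset.sum_congr rfl fun z _ => Finset.sum_congr rfl fun z' _ => ?_
      rw [Set.inter_indicator_one]
      rfl
    rw [integral_congr_ae (ae_of_all _ h3), integral_finsetSum]
    · exact Finset.sum_congr rfl fun p _ => integral_indicator_one ((hm _).inter (hm _))
    · exact fun p _ => (integrable_const (1 : ℝ)).indicator ((hm _).inter (hm _))
  rw [h2, sq, Finset.sum_mul_sum, ← Finset.sum_product', ← Finset.sum_sub_distrib,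
    Finset.sum_filter]
  refine Finset.sum_le_sum fun p _ => ?_
  by_cases h4 : Disjoint (Set.range p.1) (Set.range p.2)
  · rw [if_neg (not_not.2 h4), indep hN h4]
    linarith
  · rw [if_pos h4]
    have h5 : 0 ≤ P.real (A x k c τ p.1) * P.real (A x k c τ p.2) := by positivity
    linarith

/-- the event for a pair of solutions -/
lemma pair_eq {z z' : Fin r → ℕ} {T : Finset (Fin r)} {φ : Fin r → Fin r}
    (h : ∀ i, i ∉ T → z' i = z (φ i)) :
    A x k c τ z ∩ A x k c τ z' =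
      {ω | (fun i => x ((Sum.elim z (fun i : T => z' i) : Fin r ⊕ T → ℕ) i) ω) ∈ S2 k c τ T φ} := by
  classical
  ext ω
  have h1 : ∀ j : ℕ, ∑ i : T, c i * x (z' i) ω ^ (j + 1) + ∑ i ∈ Tᶜ, c i * x (z (φ i)) ω ^ (j + 1) =
      ∑ i, c i * x (z' i) ω ^ (j + 1) := by
    intro j
    rw [Finset.sum_coe_sort T (fun i => c i * x (z' i) ω ^ (j + 1)), ← Finset.sum_add_sum_compl T]
    congr 1
    refine Finset.sum_congr rfl fun i hi => ?_
    rw [h i (Finset.mem_compl.1 hi)]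
  constructor
  · rintro ⟨h2, h3⟩
    refine ⟨fun j => h2 j, fun j => ?_⟩
    have h4 := h3 j
    have h5 := h1 j
    simp only [Sum.elim_inl, Sum.elim_inr]
    rw [h5]
    exact h4
  · rintro ⟨h2, h3⟩
    refine ⟨fun j => h2 j, fun j => ?_⟩
    have h4 := h3 j
    have h5 := h1 j
    simp only [Sum.elim_inl, Sum.elim_inr] at h4
    rw [h5] at h4
    exact h4

lemma sum_inj {α β : Type} (Q : Finset α) (I : Finset β) (e : α → β) (F : β → ℝ) (hF : ∀ w, 0 ≤ F w)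
    (h1 : ∀ p ∈ Q, e p ∈ I) (h2 : Set.InjOn e Q) : ∑ p ∈ Q, F (e p) ≤ ∑ w ∈ I, F w := by
  classical
  rw [← Finset.sum_image (f := F) h2]
  refine Finset.sum_le_sum_of_subset_of_nonneg ?_ fun _ _ _ => hF _
  intro w hw
  obtain ⟨p, hp, rfl⟩ := Finset.mem_image.1 hw
  exact h1 p hp

open Classical in
/-- the pairs of given type -/
lemma fibre (hN : Near P D x) (hCUB : P_CUB) (hFUB : P_FUB) (hk : 1 ≤ k) (hc : ∀ i, c i ≠ 0) (hτ : 0 < τ)
    (T : Finset (Fin r)) (hT : T ≠ univ) (φ : Fin r → Fin r) :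
    ∃ C : ℝ, 0 ≤ C ∧ ∀ X : ℕ, 1 ≤ X → ∀ Q : Finset ((Fin r → ℕ) × (Fin r → ℕ)),
      (∀ p ∈ Q, p.1 ∈ Inj (Fin r) X ∧ p.2 ∈ Inj (Fin r) X ∧ (∀ i, i ∈ T ↔ p.2 i ∉ Set.range p.1) ∧
        ∀ i, i ∉ T → p.2 i = p.1 (φ i)) →
      ∑ p ∈ Q, P.real (A x k c τ p.1 ∩ A x k c τ p.2) ≤ C * (X : ℝ) ^ (2 * EE k r - kap k) := by
  have := hN.prob
  obtain ⟨C, hC, h⟩ := hFUB k hk r c hc τ hτ T φ
  refine ⟨(D : ℝ) ^ (Fintype.card (Fin r ⊕ T)) * (C * 2 ^ (EE k r + EE k T.card)), by positivity,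
    fun X hX Q hQ => ?_⟩
  have hX1 : (1 : ℝ) ≤ X := by exact_mod_cast hX
  set e : (Fin r → ℕ) × (Fin r → ℕ) → (Fin r ⊕ T → ℕ) := fun p => Sum.elim p.1 (fun i : T => p.2 i) with he
  have hinj : Set.InjOn e Q := by
    intro p hp q hq hpq
    have h1 : p.1 = q.1 := by
      funext i
      exact congrFun hpq (Sum.inl i)
    refine Prod.ext h1 ?_
    funext i
    by_cases hi : i ∈ T
    · exact congrFun hpq (Sum.inr ⟨i, hi⟩)
    · rw [(hQ p hp).2.2.2 i hi, (hQ q hq).2.2.2 i hi, h1]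
  have hmem : ∀ p ∈ Q, e p ∈ Inj (Fin r ⊕ T) X := by
    intro p hp
    obtain ⟨h1, h2, h3, h4⟩ := hQ p hp
    rw [mem_Inj] at h1 h2 ⊢
    refine ⟨fun i => ?_, ?_⟩
    · rcases i with i | i
      · exact h1.1 i
      · exact h2.1 i
    · rintro (i | i) (j | j) hij
      · exact congrArg Sum.inl (h1.2 hij)
      · exact absurd ⟨i, hij⟩ ((h3 j).1 j.2)
      · exact absurd ⟨j, hij.symm⟩ ((h3 i).1 i.2)
      · exact congrArg Sum.inr (Subtype.ext (h2.2 hij))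
  have h5 : ∑ p ∈ Q, P.real (A x k c τ p.1 ∩ A x k c τ p.2) ≤
      ∑ w ∈ Inj (Fin r ⊕ T) X, P.real {ω | (fun i => x (w i) ω) ∈ S2 k c τ T φ} := by
    have h6 : ∀ p ∈ Q, P.real (A x k c τ p.1 ∩ A x k c τ p.2) =
        P.real {ω | (fun i => x (e p i) ω) ∈ S2 k c τ T φ} := by
      intro p hp
      rw [pair_eq (hQ p hp).2.2.2]
    rw [Finset.sum_congr rfl h6]
    exact sum_inj Q (Inj (Fin r ⊕ T) X) e (fun w => P.real {ω | (fun i => x (w i) ω) ∈ S2 k c τ T φ})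
      (fun _ => measureReal_nonneg) hmem hinj
  refine h5.trans ((real_bd (D := D) (Inj (Fin r ⊕ T) X) (fun w => {ω | (fun i => x (w i) ω) ∈ S2 k c τ T φ})
    (Fintype.card (Fin r ⊕ T)) C (EE k r + EE k T.card) hC
    (add_nonneg (EE_nonneg _ _) (EE_nonneg _ _)) X hX ?_).trans ?_)
  · have h1 := hCUB Ω P D x hN (Fin r ⊕ T) X (S2 k c τ T φ) (S2_meas k c τ T φ)
    have h10 : volume (S2 k c τ T φ ∩ {v | ∀ i, 0 ≤ v i ∧ v i ≤ (X : ℝ) + 1}) ≤
        ENNReal.ofReal (C * ((X : ℝ) + 1) ^ (EE k r + EE k T.card)) := by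
      refine (measure_mono ?_).trans (h ((X : ℝ) + 1) (by linarith))
      rintro v ⟨h2, h3⟩
      exact ⟨h3, h2.1, h2.2⟩
    exact h1.trans (mul_le_mul_right h10 _)
  · have h6 : T.card + 1 ≤ r := by
      have h7 : T.card < (univ : Finset (Fin r)).card := by
        apply Finset.card_lt_card
        exact Finset.ssubset_univ_iff.2 hT
      rw [Finset.card_univ, Fintype.card_fin] at h7
      omega
    have h8 := EE_step k r T.card h6
    refine mul_le_mul_of_nonneg_left ?_ (by positivity)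
    exact Real.rpow_le_rpow_of_exponent_le hX1 (by linarith)

end

end Pool.Agent.T2H31.NV.PkgMOM

namespace Pool.Agent.T2H31.NV

open MeasureTheory ProbabilityTheory Finset Filter Topology Pool.Agent.T2H31.RC PkgMOM
open scoped ENNReal

theorem T_MOM (hCUB : P_CUB) (hVOL : P_VOL) (hFUB : P_FUB) : P_MOM := by
  classical
  intro Ω _ P D x hN k hk r c hc τ hτ
  have := hN.prob
  obtain ⟨C₁, hC₁, h₁⟩ := mean (r := r) hN hCUB hVOL hk hc hτ
  have h₂ : ∀ q : Finset (Fin r) × (Fin r → Fin r), ∃ C : ℝ, 0 ≤ C ∧ (q.1 ≠ univ → ∀ X : ℕ, 1 ≤ X →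
      ∀ Q : Finset ((Fin r → ℕ) × (Fin r → ℕ)),
      (∀ p ∈ Q, p.1 ∈ Inj (Fin r) X ∧ p.2 ∈ Inj (Fin r) X ∧ (∀ i, i ∈ q.1 ↔ p.2 i ∉ Set.range p.1) ∧
        ∀ i, i ∉ q.1 → p.2 i = p.1 (q.2 i)) →
      ∑ p ∈ Q, P.real (A x k c τ p.1 ∩ A x k c τ p.2) ≤ C * (X : ℝ) ^ (2 * EE k r - kap k)) := by
    intro q
    by_cases hq : q.1 = univ
    · exact ⟨0, le_rfl, fun h => absurd hq h⟩
    · obtain ⟨C, hC, h⟩ := fibre hN hCUB hFUB hk hc hτ q.1 hq q.2
      exact ⟨C, hC, fun _ => h⟩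
  choose C₂ hC₂ h₂' using h₂
  refine ⟨C₁ + ∑ q, C₂ q, add_nonneg hC₁ (Finset.sum_nonneg fun q _ => hC₂ q), fun X hX => ?_⟩
  have hX0 : (0 : ℝ) ≤ X := Nat.cast_nonneg X
  have hS : 0 ≤ ∑ q, C₂ q := Finset.sum_nonneg fun q _ => hC₂ q
  obtain ⟨v1, v2⟩ := var_le (k := k) (c := c) (τ := τ) hN X
  constructor
  · rw [v1]
    refine (h₁ X hX).trans ?_
    have : 0 ≤ (X : ℝ) ^ EE k r := Real.rpow_nonneg hX0 _
    nlinarith
  · refine v2.trans ?_
    set Q := ((Inj (Fin r) X) ×ˢ (Inj (Fin r) X)).filter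
        (fun p => ¬ Disjoint (Set.range p.1) (Set.range p.2)) with hQ
    set g : (Fin r → ℕ) × (Fin r → ℕ) → Finset (Fin r) × (Fin r → Fin r) := fun p =>
      (univ.filter (fun i => p.2 i ∉ Set.range p.1),
        fun i => if h : p.2 i ∈ Set.range p.1 then h.choose else i) with hg
    have hgm : ∀ p ∈ Q, g p ∈ (univ : Finset (Finset (Fin r) × (Fin r → Fin r))) := fun p _ => mem_univ _
    rw [← Finset.sum_fiberwise_of_maps_to hgm]
    have h3 : ∀ q : Finset (Fin r) × (Fin r → Fin r),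
        ∑ p ∈ Q with g p = q, P.real (A x k c τ p.1 ∩ A x k c τ p.2) ≤
          C₂ q * (X : ℝ) ^ (2 * EE k r - kap k) := by
      intro q
      have hpr : ∀ p ∈ Q.filter (fun p => g p = q), p.1 ∈ Inj (Fin r) X ∧ p.2 ∈ Inj (Fin r) X ∧
          (∀ i, i ∈ q.1 ↔ p.2 i ∉ Set.range p.1) ∧ (∀ i, i ∉ q.1 → p.2 i = p.1 (q.2 i)) := by
        intro p hp
        rw [Finset.mem_filter, hQ, Finset.mem_filter, Finset.mem_product] at hp
        obtain ⟨⟨⟨h4, h5⟩, h6⟩, rfl⟩ := hp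
        refine ⟨h4, h5, fun i => by simp [hg], fun i hi => ?_⟩
        have h7 : p.2 i ∈ Set.range p.1 := by
          by_contra h8
          exact hi (by simp only [hg, Finset.mem_filter, Finset.mem_univ, true_and]; exact h8)
        simp only [hg]
        rw [dif_pos h7]
        exact h7.choose_spec.symm
      by_cases hq : q.1 = univ
      · have h9 : Q.filter (fun p => g p = q) = ∅ := by
          rw [Finset.eq_empty_iff_forall_notMem]
          intro p hp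
          have h10 := (hpr p hp).2.2.1
          rw [Finset.mem_filter, hQ, Finset.mem_filter] at hp
          apply hp.1.2
          rw [Set.disjoint_right]
          rintro _ ⟨i, rfl⟩
          exact (h10 i).1 (by rw [hq]; exact mem_univ i)
        rw [h9, Finset.sum_empty]
        exact mul_nonneg (hC₂ q) (Real.rpow_nonneg hX0 _)
      · exact h₂' q hq X hX _ hpr
    refine (Finset.sum_le_sum fun q _ => h3 q).trans ?_
    rw [← Finset.sum_mul]
    have : 0 ≤ (X : ℝ) ^ (2 * EE k r - kap k) := Real.rpow_nonneg hX0 _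
    nlinarith

end Pool.Agent.T2H31.NV
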