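import Pool.Agent.T2H31.NV.Stm

/-! # NV, package PAT: patterns -/

set_option autoImplicit false

namespace Pool.Agent.T2H31.NV

open MeasureTheory ProbabilityTheory Finset Filter Topology Pool.Agent.T2H31.RC

namespace PAT

/-- the patterns -/
abbrev Pat (s : ℕ) : Type :=
  Σ q : Fin (2 * s + 1), Σ r : Fin (2 * s + 1), (Fin s ⊕ Fin s → Fin q.1 ⊕ Fin r.1)

open Classical in
/-- the coefficients of a pattern -/
noncomputable def coef {s : ℕ} (p : Pat s) (t : Fin p.2.1.1) : ℤ :=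
  ((univ.filter fun i : Fin s => p.2.2 (Sum.inl i) = Sum.inr t).card : ℤ) -
    ((univ.filter fun i : Fin s => p.2.2 (Sum.inr i) = Sum.inr t).card : ℤ)

/-- the label of a pattern -/
noncomputable def label {s : ℕ} (p : Pat s) : ℕ × (Σ r : ℕ, (Fin r → ℤ)) :=
  (p.1.1, ⟨p.2.1.1, coef p⟩)

/-- good patterns -/
def good {s : ℕ} (p : Pat s) : Prop :=
  1 ≤ p.2.1.1 ∧ 2 * p.1.1 + p.2.1.1 ≤ 2 * s ∧ ∀ t, coef p t ≠ 0

/-- the solution with a given pattern -/
def dec {s : ℕ} (p : Pat s) (y : (Fin p.1.1 → ℕ) × (Fin p.2.1.1 → ℕ)) : (Fin s → ℕ) × (Fin s → ℕ) :=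
  (fun i => Sum.elim y.1 y.2 (p.2.2 (Sum.inl i)), fun i => Sum.elim y.1 y.2 (p.2.2 (Sum.inr i)))

open Classical in
/-- multiplicity of a value -/
noncomputable def mu {s : ℕ} (m : Fin s → ℕ) (v : ℕ) : ℕ := (univ.filter fun i => m i = v).card

theorem diag_of_mu {s : ℕ} (m n : Fin s → ℕ) (h : ∀ v, mu m v = mu n v) :
    ∃ σ : Equiv.Perm (Fin s), n = m ∘ σ := by
  classical
  have e : ∀ c, Nonempty ({ a // n a = c } ≃ { b // m b = c }) := by
    intro c
    refine ⟨Fintype.equivOfCardEq ?_⟩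
    rw [Fintype.card_subtype, Fintype.card_subtype]
    have := h c
    unfold mu at this
    rw [← this]
  refine ⟨Equiv.ofFiberEquiv fun c => (e c).some, ?_⟩
  funext i
  exact (Equiv.ofFiberEquiv_map (fun c => (e c).some) i).symm

theorem sum_mu {s : ℕ} (m : Fin s → ℕ) (g : ℕ → ℝ) (V : Finset ℕ) (hV : ∀ i, m i ∈ V) :
    ∑ i, g (m i) = ∑ v ∈ V, (mu m v : ℝ) * g v := by
  classical
  rw [← Finset.sum_fiberwise_of_maps_to (s := univ) (t := V) (g := m) (fun i _ => hV i)]
  refine Finset.sum_congr rfl fun v _ => ?_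
  rw [Finset.sum_congr rfl (g := fun _ => g v) (fun i hi => by rw [(Finset.mem_filter.1 hi).2])]
  rw [Finset.sum_const, nsmul_eq_mul]
  unfold mu
  congr 2

theorem card_mu {s : ℕ} (m : Fin s → ℕ) (V : Finset ℕ) (hV : ∀ i, m i ∈ V) :
    ∑ v ∈ V, mu m v = s := by
  classical
  have := Finset.card_eq_sum_card_fiberwise (s := (univ : Finset (Fin s))) (t := V) (f := m) (fun i _ => hV i)
  rw [Finset.card_univ, Fintype.card_fin] at this
  refine Eq.trans ?_ this.symm
  refine Finset.sum_congr rfl fun v _ => ?_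
  unfold mu
  congr 1

theorem exists_pat {s : ℕ} (X : ℕ) (x : ℕ → ℝ) (k : ℕ) (τ : ℝ) (m n : Fin s → ℕ)
    (hm : ∀ i, m i ∈ Icc 1 X) (hn : ∀ i, n i ∈ Icc 1 X)
    (hmn : ∀ j ∈ Icc 1 k, |∑ i, x (m i) ^ j - ∑ i, x (n i) ^ j| ≤ τ)
    (hd : ¬ ∃ σ : Equiv.Perm (Fin s), n = m ∘ σ) :
    ∃ p : Pat s, good p ∧ ∃ y : (Fin p.1.1 → ℕ) × (Fin p.2.1.1 → ℕ), (∀ i, y.1 i ∈ Icc 1 X) ∧ (∀ i, y.2 i ∈ Icc 1 X) ∧
      Function.Injective y.2 ∧ (∀ j : Fin k, |∑ t, (coef p t : ℝ) * x (y.2 t) ^ ((j : ℕ) + 1)| ≤ τ) ∧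
      dec p y = (m, n) := by
  classical
  set V : Finset ℕ := univ.image m ∪ univ.image n with hV
  have hmV : ∀ i, m i ∈ V := fun i => by
    rw [hV]; exact Finset.mem_union_left _ (Finset.mem_image_of_mem _ (Finset.mem_univ _))
  have hnV : ∀ i, n i ∈ V := fun i => by
    rw [hV]; exact Finset.mem_union_right _ (Finset.mem_image_of_mem _ (Finset.mem_univ _))
  have hVX : ∀ v ∈ V, v ∈ Icc 1 X := by
    intro v hv
    rw [hV, Finset.mem_union, Finset.mem_image, Finset.mem_image] at hv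
    rcases hv with ⟨i, -, rfl⟩ | ⟨i, -, rfl⟩
    · exact hm i
    · exact hn i
  have hVmu : ∀ v ∈ V, 1 ≤ mu m v + mu n v := by
    intro v hv
    rw [hV, Finset.mem_union, Finset.mem_image, Finset.mem_image] at hv
    rcases hv with ⟨i, -, rfl⟩ | ⟨i, -, rfl⟩
    · have : 0 < mu m (m i) := Finset.card_pos.2 ⟨i, by simp⟩
      omega
    · have : 0 < mu n (n i) := Finset.card_pos.2 ⟨i, by simp⟩
      omega
  have hnot : ∀ v, v ∉ V → mu m v = 0 ∧ mu n v = 0 := by
    intro v hv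
    constructor
    · unfold mu
      rw [Finset.card_eq_zero, Finset.filter_eq_empty_iff]
      rintro i - rfl
      exact hv (hmV i)
    · unfold mu
      rw [Finset.card_eq_zero, Finset.filter_eq_empty_iff]
      rintro i - rfl
      exact hv (hnV i)
  set V0 : Finset ℕ := V.filter fun v => mu m v = mu n v with hV0
  set V1 : Finset ℕ := V.filter fun v => ¬ mu m v = mu n v with hV1
  have hne : V1.Nonempty := by
    by_contra hcon
    rw [Finset.not_nonempty_iff_eq_empty] at hcon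
    apply hd
    apply diag_of_mu
    intro v
    by_contra hv
    by_cases hvV : v ∈ V
    · have : v ∈ V1 := Finset.mem_filter.2 ⟨hvV, hv⟩
      rw [hcon] at this
      exact absurd this (Finset.notMem_empty _)
    · exact hv (by rw [(hnot v hvV).1, (hnot v hvV).2])
  have hcard : 2 * V0.card + V1.card ≤ 2 * s := by
    have h1 : ∑ v ∈ V, (mu m v + mu n v) = 2 * s := by
      rw [Finset.sum_add_distrib, card_mu m V hmV, card_mu n V hnV]; ring
    rw [← Finset.sum_filter_add_sum_filter_not V (fun v => mu m v = mu n v)] at h1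
    have h2 : 2 * V0.card ≤ ∑ v ∈ V0, (mu m v + mu n v) := by
      rw [mul_comm, ← smul_eq_mul]
      refine Finset.card_nsmul_le_sum _ _ _ fun v hv => ?_
      have h3 := hVmu v (Finset.mem_filter.1 hv).1
      have h4 := (Finset.mem_filter.1 hv).2
      omega
    have h3 : V1.card ≤ ∑ v ∈ V1, (mu m v + mu n v) := by
      have := Finset.card_nsmul_le_sum V1 (fun v => mu m v + mu n v) 1 (fun v hv => hVmu v (Finset.mem_filter.1 hv).1)
      simpa using this
    rw [← hV0, ← hV1] at h1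
    omega
  have e0 : Fin V0.card ≃ V0 := V0.equivFin.symm
  have e1 : Fin V1.card ≃ V1 := V1.equivFin.symm
  have hsplit : ∀ v ∈ V, v ∉ V0 → v ∈ V1 := fun v hv h => by
    rw [hV1, Finset.mem_filter]
    refine ⟨hv, fun h' => h (Finset.mem_filter.2 ⟨hv, h'⟩)⟩
  have hdisj : ∀ v, v ∈ V1 → v ∉ V0 := fun v h h' =>
    (Finset.mem_filter.1 h).2 (Finset.mem_filter.1 h').2
  set w : Fin s ⊕ Fin s → ℕ := Sum.elim m n with hw
  have hwV : ∀ a, w a ∈ V := by
    rintro (i | i)
    · exact hmV i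
    · exact hnV i
  let f : Fin s ⊕ Fin s → Fin V0.card ⊕ Fin V1.card := fun a =>
    if h : w a ∈ V0 then Sum.inl (e0.symm ⟨w a, h⟩) else Sum.inr (e1.symm ⟨w a, hsplit _ (hwV a) h⟩)
  have hfval : ∀ a, Sum.elim (fun t => ((e0 t : V0) : ℕ)) (fun t => ((e1 t : V1) : ℕ)) (f a) = w a := by
    intro a
    by_cases h : w a ∈ V0
    · simp only [f, dif_pos h, Sum.elim_inl, Equiv.apply_symm_apply]
    · simp only [f, dif_neg h, Sum.elim_inr, Equiv.apply_symm_apply]
  have hfinr : ∀ a t, f a = Sum.inr t ↔ w a = (e1 t : ℕ) := by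
    intro a t
    constructor
    · intro h
      rw [← hfval a, h]
      rfl
    · intro h
      have h1 : w a ∉ V0 := by rw [h]; exact hdisj _ (e1 t).2
      simp only [f, dif_neg h1, Sum.inr.injEq]
      rw [Equiv.symm_apply_eq]
      exact Subtype.ext h
  have hlt0 : V0.card < 2 * s + 1 := by omega
  have hlt1 : V1.card < 2 * s + 1 := by omega
  let p : Pat s := ⟨⟨V0.card, hlt0⟩, ⟨⟨V1.card, hlt1⟩, f⟩⟩
  have hcoef : ∀ t : Fin V1.card, coef p t = (mu m (e1 t : ℕ) : ℤ) - (mu n (e1 t : ℕ) : ℤ) := by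
    intro t
    unfold coef mu
    congr 2
    · congr 1
      ext i
      simp only [Finset.mem_filter, Finset.mem_univ, true_and]
      exact hfinr (Sum.inl i) t
    · congr 1
      ext i
      simp only [Finset.mem_filter, Finset.mem_univ, true_and]
      exact hfinr (Sum.inr i) t
  refine ⟨p, ⟨Finset.card_pos.2 hne, hcard, ?_⟩, ⟨fun t => (e0 t : ℕ), fun t => (e1 t : ℕ)⟩, ?_, ?_, ?_, ?_, ?_⟩
  · intro t
    rw [hcoef t]
    have := (Finset.mem_filter.1 (e1 t).2).2
    intro h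
    apply this
    have h' : (mu m (e1 t : ℕ) : ℤ) = (mu n (e1 t : ℕ) : ℤ) := by linarith
    exact_mod_cast h'
  · intro t
    exact hVX _ (Finset.mem_filter.1 (e0 t).2).1
  · intro t
    exact hVX _ (Finset.mem_filter.1 (e1 t).2).1
  · intro a b hab
    exact e1.injective (Subtype.ext hab)
  · intro j
    have key := hmn ((j : ℕ) + 1) (Finset.mem_Icc.2 ⟨by omega, by have := j.2; omega⟩)
    have h1 := sum_mu m (fun v => x v ^ ((j : ℕ) + 1)) V hmV
    have h2 := sum_mu n (fun v => x v ^ ((j : ℕ) + 1)) V hnV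
    have h3 : ∑ i, x (m i) ^ ((j : ℕ) + 1) - ∑ i, x (n i) ^ ((j : ℕ) + 1) =
        ∑ v ∈ V, ((mu m v : ℝ) - mu n v) * x v ^ ((j : ℕ) + 1) := by
      rw [h1, h2, ← Finset.sum_sub_distrib]
      refine Finset.sum_congr rfl fun v _ => by ring
    have h4 : ∑ v ∈ V, ((mu m v : ℝ) - mu n v) * x v ^ ((j : ℕ) + 1) =
        ∑ v ∈ V1, ((mu m v : ℝ) - mu n v) * x v ^ ((j : ℕ) + 1) := by
      rw [← Finset.sum_filter_add_sum_filter_not V (fun v => mu m v = mu n v), ← hV1, ← hV0]
      rw [Finset.sum_eq_zero (s := V0), zero_add]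
      intro v hv
      rw [(Finset.mem_filter.1 hv).2, sub_self, zero_mul]
    have h5 : ∑ v ∈ V1, ((mu m v : ℝ) - mu n v) * x v ^ ((j : ℕ) + 1) =
        ∑ t : Fin V1.card, (coef p t : ℝ) * x (e1 t : ℕ) ^ ((j : ℕ) + 1) := by
      rw [← Finset.sum_coe_sort V1, ← e1.sum_comp]
      refine Finset.sum_congr rfl fun t _ => ?_
      rw [hcoef t]
      push_cast
      rfl
    have h6 : |∑ t : Fin V1.card, (coef p t : ℝ) * x (e1 t : ℕ) ^ ((j : ℕ) + 1)| ≤ τ := by
      rw [← h5, ← h4, ← h3]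
      exact key
    exact h6
  · have hL : ∀ a, Sum.elim (fun t => ((e0 t : V0) : ℕ)) (fun t => ((e1 t : V1) : ℕ)) (f a) = w a := hfval
    unfold dec
    refine Prod.ext ?_ ?_
    · funext i
      exact hL (Sum.inl i)
    · funext i
      exact hL (Sum.inr i)

end PAT

open PAT in
theorem T_PAT : P_PAT := by
  classical
  intro s
  refine ⟨Fintype.card (Pat s), (univ.filter fun p : Pat s => good p).image label, ?_, ?_⟩
  · intro l hl
    rw [Finset.mem_image] at hl
    obtain ⟨p, hp, rfl⟩ := hl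
    exact (Finset.mem_filter.1 hp).2
  · intro x k τ X hτ
    set F : ℕ × (Σ r : ℕ, (Fin r → ℤ)) → ℕ := fun l => X ^ l.1 * NN x k (fun i => (l.2.2 i : ℝ)) τ X with hF
    set S : Finset (Pat s) := univ.filter fun p : Pat s => good p with hS
    let A : Finset ((Fin s → ℕ) × (Fin s → ℕ)) :=
      ((Fintype.piFinset fun _ : Fin s => Icc 1 X) ×ˢ (Fintype.piFinset fun _ : Fin s => Icc 1 X)).filter
        fun z : (Fin s → ℕ) × (Fin s → ℕ) => ∀ j ∈ Icc 1 k, |∑ i, x (z.1 i) ^ j - ∑ i, x (z.2 i) ^ j| ≤ τ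
    let Dg : Finset ((Fin s → ℕ) × (Fin s → ℕ)) :=
      ((Fintype.piFinset fun _ : Fin s => Icc 1 X) ×ˢ (Fintype.piFinset fun _ : Fin s => Icc 1 X)).filter
        fun z : (Fin s → ℕ) × (Fin s → ℕ) => ∃ σ : Equiv.Perm (Fin s), z.2 = z.1 ∘ σ
    let G : (p : Pat s) → Finset ((Fin p.1.1 → ℕ) × (Fin p.2.1.1 → ℕ)) := fun p =>
      (Fintype.piFinset fun _ : Fin p.1.1 => Icc 1 X) ×ˢ
        ((Fintype.piFinset fun _ : Fin p.2.1.1 => Icc 1 X).filter fun z =>
          Function.Injective z ∧ ∀ j : Fin k, |∑ i, (coef p i : ℝ) * x (z i) ^ ((j : ℕ) + 1)| ≤ τ)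
    have hG : ∀ p, (G p).card = F (label p) := by
      intro p
      simp only [G, Finset.card_product, hF, label, NN, Fintype.card_piFinset, Nat.card_Icc,
        Finset.prod_const, Finset.card_univ, Fintype.card_fin]
      congr 2
    have hsub : A ⊆ Dg ∪ S.biUnion fun p => (G p).image (dec p) := by
      intro z hz
      simp only [A, Finset.mem_filter, Finset.mem_product, Fintype.mem_piFinset] at hz
      obtain ⟨⟨hz1, hz2⟩, hz3⟩ := hz
      by_cases hd : ∃ σ : Equiv.Perm (Fin s), z.2 = z.1 ∘ σ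
      · refine Finset.mem_union_left _ (Finset.mem_filter.2 ⟨?_, hd⟩)
        rw [Finset.mem_product, Fintype.mem_piFinset, Fintype.mem_piFinset]
        exact ⟨hz1, hz2⟩
      · refine Finset.mem_union_right _ ?_
        obtain ⟨p, hp, y, hy1, hy2, hy3, hy4, hy5⟩ := exists_pat X x k τ z.1 z.2 hz1 hz2 hz3 hd
        rw [Finset.mem_biUnion]
        refine ⟨p, Finset.mem_filter.2 ⟨Finset.mem_univ _, hp⟩, Finset.mem_image.2 ⟨y, ?_, hy5⟩⟩
        rw [Finset.mem_product, Finset.mem_filter, Fintype.mem_piFinset, Fintype.mem_piFinset]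
        exact ⟨hy1, hy2, hy3, hy4⟩
    have h1 : J x s k τ X = A.card := rfl
    have h2 : Diag s X = Dg.card := rfl
    rw [h1, h2]
    refine (Finset.card_le_card hsub).trans ((Finset.card_union_le _ _).trans (Nat.add_le_add_left ?_ _))
    refine Finset.card_biUnion_le.trans ?_
    calc ∑ p ∈ S, ((G p).image (dec p)).card ≤ ∑ p ∈ S, F (label p) := by
          refine Finset.sum_le_sum fun p _ => ?_
          rw [← hG p]
          exact Finset.card_image_le
      _ = ∑ l ∈ S.image label, (S.filter fun p => label p = l).card • F l := Finset.sum_comp F label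
      _ ≤ ∑ l ∈ S.image label, Fintype.card (Pat s) * F l := by
          refine Finset.sum_le_sum fun l _ => ?_
          rw [smul_eq_mul]
          exact Nat.mul_le_mul_right _ ((Finset.card_le_univ _))
      _ = Fintype.card (Pat s) * ∑ l ∈ S.image label, F l := by rw [Finset.mul_sum]

end Pool.Agent.T2H31.NV
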