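import Pool.Agent.T2H31.NV.Stm

/-! # Package SUB : sublevel sets of polynomials -/

set_option autoImplicit false
set_option linter.unusedVariables false

namespace Pool.Agent.T2H31.NV.PkgSUB

open MeasureTheory Finset Polynomial

/-- the coefficients of a polynomial which is small at separated points -/
lemma coeff_bound (ρ : ℝ) (hρ : 0 < ρ) (hρ1 : ρ ≤ 1) (d : ℕ) : ∀ (l : ℝ) (P : ℝ[X]) (F : Finset ℝ),
    0 ≤ l → P.natDegree ≤ d → F.card = d + 1 → (∀ x ∈ F, |x| ≤ 1) →
    (∀ x ∈ F, ∀ y ∈ F, x ≠ y → ρ ≤ |x - y|) → (∀ x ∈ F, |P.eval x| ≤ l) →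
    ∀ j, |P.coeff j| ≤ 4 ^ d * l / ρ ^ d := by
  induction d with
  | zero =>
    intro l P F hl hP hF hF1 hsep hval j
    obtain ⟨x, rfl⟩ := Finset.card_eq_one.1 hF
    have h1 := hval x (mem_singleton_self x)
    rw [Polynomial.eq_C_of_natDegree_le_zero hP] at h1 ⊢
    rw [eval_C] at h1
    rw [coeff_C]
    split_ifs with h
    · simpa using h1
    · simpa using hl
  | succ d ih =>
    intro l P F hl hP hF hF1 hsep hval j
    obtain ⟨x, hx⟩ := Finset.card_pos.1 (by omega : 0 < F.card)
    obtain ⟨r, hr⟩ := Polynomial.X_sub_C_dvd_sub_C_eval (a := x) (p := P)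
    have hPr : P = C (P.eval x) + (X - C x) * r := by
      rw [← hr]
      ring
    have hdeg : r.natDegree ≤ d := by
      by_cases hr0 : r = 0
      · rw [hr0]
        simp
      have h1 : ((X - C x) * r).natDegree = 1 + r.natDegree := by
        rw [Polynomial.natDegree_mul (Polynomial.X_sub_C_ne_zero x) hr0, natDegree_X_sub_C]
      have h2 : (P - C (P.eval x)).natDegree ≤ d + 1 :=
        (Polynomial.natDegree_sub_le _ _).trans (by simp [hP])
      rw [hr, h1] at h2
      omega
    have hval' : ∀ y ∈ F.erase x, |r.eval y| ≤ 2 * l / ρ := by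
      intro y hy
      obtain ⟨hyx, hyF⟩ := Finset.mem_erase.1 hy
      have h1 : P.eval y - P.eval x = (y - x) * r.eval y := by
        have := congrArg (Polynomial.eval y) hr
        simpa using this
      have h2 := hsep y hyF x hx hyx
      have h3 : |(y - x) * r.eval y| ≤ 2 * l := by
        rw [← h1]
        have h4 := hval y hyF
        have h5 := hval x hx
        rw [abs_le] at h4 h5 ⊢
        constructor <;> linarith
      rw [abs_mul] at h3
      rw [le_div_iff₀ hρ]
      have h6 := abs_nonneg (r.eval y)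
      nlinarith
    have hih := ih (2 * l / ρ) r (F.erase x) (by positivity) hdeg
      (by rw [Finset.card_erase_of_mem hx, hF]; rfl)
      (fun y hy => hF1 y (Finset.mem_of_mem_erase hy))
      (fun y hy z hz => hsep y (Finset.mem_of_mem_erase hy) z (Finset.mem_of_mem_erase hz)) hval'
    set A : ℝ := 4 ^ d * (2 * l / ρ) / ρ ^ d with hA
    have hA0 : 0 ≤ A := by positivity
    have hA2 : 4 ^ (d + 1) * l / ρ ^ (d + 1) = 2 * A := by
      rw [hA]
      field_simp
      ring
    rw [hA2]
    have hx1 := hF1 x hx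
    have hmul : ∀ i, |x * r.coeff i| ≤ A := by
      intro i
      rw [abs_mul]
      have := hih i
      have h0 := abs_nonneg (r.coeff i)
      nlinarith
    rw [hPr]
    cases j with
    | zero =>
      have h1 : (C (P.eval x) + (X - C x) * r).coeff 0 = P.eval x - x * r.coeff 0 := by
        rw [sub_mul]
        simp
        ring
      rw [h1]
      have h2 := hval x hx
      have h3 := hmul 0
      have h4 : l ≤ A := by
        rw [hA]
        have h5 : (1 : ℝ) ≤ 4 ^ d := one_le_pow₀ (by norm_num)
        have h6 : ρ ^ d ≤ 1 := pow_le_one₀ hρ.le hρ1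
        have h7 : l ≤ 2 * l / ρ := by
          rw [le_div_iff₀ hρ]
          nlinarith
        rw [le_div_iff₀ (by positivity)]
        have h8 : 0 ≤ 2 * l / ρ := by positivity
        calc l * ρ ^ d ≤ l * 1 := by gcongr
          _ ≤ 1 * (2 * l / ρ) := by linarith
          _ ≤ 4 ^ d * (2 * l / ρ) := by gcongr
      rw [abs_le] at h2 h3 ⊢
      constructor <;> linarith
    | succ j =>
      have h1 : (C (P.eval x) + (X - C x) * r).coeff (j + 1) = r.coeff j - x * r.coeff (j + 1) := by
        rw [sub_mul]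
        simp [coeff_C]
      rw [h1]
      have h2 := hih j
      have h3 := hmul (j + 1)
      rw [abs_le] at h2 h3 ⊢
      constructor <;> linarith

/-- separated points in a set of positive measure -/
lemma sep_points {E : Set ℝ} {ρ : ℝ} (hρ : 0 < ρ) {d : ℕ}
    (hE : ENNReal.ofReal (2 * d * ρ) < volume E) (n : ℕ) :
    n ≤ d + 1 → ∃ F : Finset ℝ, F.card = n ∧ (∀ x ∈ F, x ∈ E) ∧
      ∀ x ∈ F, ∀ y ∈ F, x ≠ y → ρ ≤ |x - y| := by
  induction n with
  | zero =>
    intro _
    exact ⟨∅, by simp, by simp, by simp⟩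
  | succ n ih =>
    intro hn
    obtain ⟨F, hF, hFE, hsep⟩ := ih (by omega)
    have h1 : volume (⋃ x ∈ F, Set.Ioo (x - ρ) (x + ρ)) < volume E := by
      refine lt_of_le_of_lt (measure_biUnion_finset_le _ _) (lt_of_le_of_lt ?_ hE)
      simp only [Real.volume_Ioo]
      have h2 : ∀ x : ℝ, x + ρ - (x - ρ) = 2 * ρ := fun x => by ring
      simp only [h2, Finset.sum_const, hF, nsmul_eq_mul]
      rw [← ENNReal.ofReal_natCast, ← ENNReal.ofReal_mul (by positivity)]
      apply ENNReal.ofReal_le_ofReal
      have h3 : (n : ℝ) ≤ d := by exact_mod_cast (by omega : n ≤ d)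
      nlinarith
    obtain ⟨y, hyE, hy⟩ : ∃ y ∈ E, y ∉ ⋃ x ∈ F, Set.Ioo (x - ρ) (x + ρ) := by
      by_contra hc
      push Not at hc
      exact absurd (measure_mono (μ := volume) hc) (not_le.2 h1)
    have hfar : ∀ x ∈ F, ρ ≤ |x - y| := by
      intro x hx
      by_contra hc
      push Not at hc
      apply hy
      rw [Set.mem_iUnion₂]
      refine ⟨x, hx, ?_⟩
      rw [abs_lt] at hc
      exact ⟨by linarith, by linarith⟩
    have hyF : y ∉ F := by
      intro h
      have := hfar y h
      simp at this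
      linarith
    refine ⟨insert y F, by rw [Finset.card_insert_of_notMem hyF, hF], ?_, ?_⟩
    · intro x hx
      rcases Finset.mem_insert.1 hx with rfl | h
      · exact hyE
      · exact hFE x h
    · intro x hx z hz hxz
      rcases Finset.mem_insert.1 hx with rfl | h
      · rcases Finset.mem_insert.1 hz with rfl | h'
        · exact absurd rfl hxz
        · rw [abs_sub_comm]
          exact hfar z h'
      · rcases Finset.mem_insert.1 hz with rfl | h'
        · exact hfar x h
        · exact hsep x h z h' hxz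

end Pool.Agent.T2H31.NV.PkgSUB

namespace Pool.Agent.T2H31.NV

open MeasureTheory ProbabilityTheory Finset Filter Topology Pool.Agent.T2H31.RC PkgSUB

theorem T_SUB : P_SUB := by
  intro d hd
  refine ⟨8 * (d + 1), by positivity, ?_⟩
  intro q B l hB hl hq
  obtain ⟨j, hj⟩ := hq
  set E : Set ℝ := {y : ℝ | 0 ≤ y ∧ y ≤ 1 ∧ |∑ j, q j * y ^ (j : ℕ)| ≤ l} with hE
  have hE1 : volume E ≤ 1 := by
    calc volume E ≤ volume (Set.Icc (0 : ℝ) 1) := measure_mono fun y hy => ⟨hy.1, hy.2.1⟩
      _ = 1 := by simp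
  have hEt : volume E ≠ ⊤ := ne_top_of_le_ne_top ENNReal.one_ne_top hE1
  set m : ℝ := (volume E).toReal with hm
  have hm1 : m ≤ 1 := by
    have := ENNReal.toReal_mono ENNReal.one_ne_top hE1
    simpa using this
  have hmE : volume E = ENNReal.ofReal m := (ENNReal.ofReal_toReal hEt).symm
  rw [hmE]
  apply ENNReal.ofReal_le_ofReal
  have ht0 : 0 < (l / B) ^ (1 / (d : ℝ)) := Real.rpow_pos_of_pos (by positivity) _
  rcases le_or_gt m 0 with hm0 | hm0
  · exact hm0.trans (by positivity)
  have hd0 : (0 : ℝ) < d := by exact_mod_cast hd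
  set ρ : ℝ := m / (2 * (d + 1)) with hρd
  have hρ : 0 < ρ := by positivity
  have hρ1 : ρ ≤ 1 := by
    rw [hρd, div_le_one (by positivity)]
    nlinarith
  have h1 : ENNReal.ofReal (2 * d * ρ) < volume E := by
    rw [hmE, ENNReal.ofReal_lt_ofReal_iff hm0, hρd]
    rw [mul_div_assoc', div_lt_iff₀ (by positivity)]
    nlinarith
  obtain ⟨F, hF, hFE, hsep⟩ := sep_points hρ h1 (d + 1) le_rfl
  -- the polynomial
  set P : Polynomial ℝ := ∑ i : Fin (d + 1), Polynomial.C (q i) * Polynomial.X ^ (i : ℕ) with hP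
  have hdeg : P.natDegree ≤ d := by
    refine Polynomial.natDegree_sum_le_of_forall_le _ _ fun i _ => ?_
    refine (Polynomial.natDegree_C_mul_X_pow_le _ _).trans ?_
    omega
  have heval : ∀ y, P.eval y = ∑ i, q i * y ^ (i : ℕ) := by
    intro y
    rw [hP, Polynomial.eval_finset_sum]
    refine Finset.sum_congr rfl fun i _ => ?_
    simp
  have hcoeff : P.coeff j = q j := by
    rw [hP, Polynomial.finset_sum_coeff, Finset.sum_eq_single j]
    · simp
    · intro i _ hij
      rw [Polynomial.coeff_C_mul_X_pow, if_neg]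
      intro h
      exact hij (Fin.ext h.symm)
    · intro h
      exact absurd (Finset.mem_univ j) h
  have key := coeff_bound ρ hρ hρ1 d l P F hl.le hdeg hF
    (fun x hx => by
      have := hFE x hx
      rw [abs_le]
      exact ⟨by linarith [this.1], this.2.1⟩) hsep
    (fun x hx => by
      rw [heval]
      exact (hFE x hx).2.2) j
  rw [hcoeff] at key
  have key2 := hj.trans key
  set t : ℝ := (l / B) ^ (1 / (d : ℝ)) with ht
  have htd : t ^ d = l / B := by
    rw [ht, one_div]
    exact Real.rpow_inv_natCast_pow (by positivity) (by omega)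
  have hρt : ρ ≤ 4 * t := by
    by_contra hc
    push Not at hc
    have h2 : (4 * t) ^ d < ρ ^ d := pow_lt_pow_left₀ hc (by positivity) (by omega)
    rw [mul_pow, htd] at h2
    rw [le_div_iff₀ (by positivity)] at key2
    have h3 : B * (4 ^ d * (l / B)) < B * ρ ^ d := mul_lt_mul_of_pos_left h2 hB
    have h4 : B * (4 ^ d * (l / B)) = 4 ^ d * l := by
      field_simp
    linarith
  have h5 : m = 2 * (d + 1) * ρ := by
    rw [hρd]
    field_simp
  rw [h5]
  have h6 : 2 * ((d : ℝ) + 1) * ρ ≤ 2 * (d + 1) * (4 * t) := by gcongr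
  linarith

end Pool.Agent.T2H31.NV
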