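import Pool.Agent.T2H31.NV.Stm

/-! # Package VDC -/

set_option autoImplicit false

namespace Pool.Agent.T2H31.NV

open MeasureTheory ProbabilityTheory Finset Filter Topology Pool.Agent.T2H31.RC

namespace PkgVDC

open Polynomial

lemma ee_norm (x : ℝ) : ‖ee x‖ = 1 := by
  unfold ee
  rw [show (2 * Real.pi * x * Complex.I : ℂ) = ((2 * Real.pi * x : ℝ) : ℂ) * Complex.I by push_cast; ring]
  exact Complex.norm_exp_ofReal_mul_I _

lemma ee_cont : Continuous ee := by
  unfold ee
  fun_prop

lemma ee_hasDerivAt {f : ℝ → ℝ} {f' y : ℝ} (h : HasDerivAt f f' y) :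
    HasDerivAt (fun y => ee (f y)) (ee (f y) * (((2 * Real.pi * f' : ℝ) : ℂ) * Complex.I)) y := by
  have e0 : ∀ x : ℝ, ee x = Complex.exp (((2 * Real.pi * x : ℝ) : ℂ) * Complex.I) := by
    intro x
    unfold ee
    congr 1
    push_cast
    ring
  simp only [e0]
  have h1 : HasDerivAt (fun y : ℝ => ((2 * Real.pi * f y : ℝ) : ℂ)) ((2 * Real.pi * f' : ℝ) : ℂ) y :=
    (h.const_mul (2 * Real.pi)).ofReal_comp
  exact (h1.mul_const Complex.I).cexp

/-- first derivative test for a polynomial phase with monotone derivative -/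
lemma first_deriv (g : ℝ[X]) {c d l : ℝ} (hcd : c ≤ d) (hl : 0 < l)
    (hlow : ∀ y ∈ Set.Icc c d, l ≤ |g.derivative.eval y|) (σ : ℝ) (hσ : |σ| = 1)
    (hsign : ∀ y ∈ Set.Icc c d, |g.derivative.derivative.eval y| = σ * g.derivative.derivative.eval y) :
    ‖∫ y in c..d, ee (g.eval y)‖ ≤ 3 / l := by
  have hpi : (0:ℝ) < Real.pi := Real.pi_pos
  have hpi3 : (3:ℝ) < Real.pi := Real.pi_gt_three
  set f' : ℝ → ℝ := fun y => g.derivative.eval y with hf'
  set f'' : ℝ → ℝ := fun y => g.derivative.derivative.eval y with hf''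
  have hne : ∀ y ∈ Set.Icc c d, f' y ≠ 0 := by
    intro y hy h0
    have := hlow y hy
    simp only [hf'] at h0
    rw [h0, abs_zero] at this
    linarith
  have h1 : ∀ y, HasDerivAt (fun y => g.eval y) (f' y) y := fun y => g.hasDerivAt y
  have h2 : ∀ y, HasDerivAt f' (f'' y) y := fun y => g.derivative.hasDerivAt y
  have hf'c : Continuous f' := g.derivative.continuous
  have hf''c : Continuous f'' := g.derivative.derivative.continuous
  have hfc : Continuous (fun y => g.eval y) := g.continuous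
  have huIcc : Set.uIcc c d = Set.Icc c d := Set.uIcc_of_le hcd
  set w : ℝ → ℝ := fun y => (f' y)⁻¹ with hw
  set w' : ℝ → ℝ := fun y => -f'' y / (f' y) ^ 2 with hw'
  have hwd : ∀ y ∈ Set.uIcc c d, HasDerivAt w (w' y) y := by
    intro y hy
    rw [huIcc] at hy
    exact (h2 y).inv (hne y hy)
  have hw'c : ContinuousOn w' (Set.Icc c d) :=
    (hf''c.neg.continuousOn).div (hf'c.pow 2).continuousOn (fun y hy => pow_ne_zero _ (hne y hy))
  set u : ℝ → ℂ := fun y => ((2 * Real.pi : ℝ) : ℂ)⁻¹ * (-Complex.I) * ((w y : ℝ) : ℂ) with hu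
  set u' : ℝ → ℂ := fun y => ((2 * Real.pi : ℝ) : ℂ)⁻¹ * (-Complex.I) * ((w' y : ℝ) : ℂ) with hu'
  set v : ℝ → ℂ := fun y => ee (g.eval y) with hv
  set v' : ℝ → ℂ := fun y => ee (g.eval y) * (((2 * Real.pi * f' y : ℝ) : ℂ) * Complex.I) with hv'
  have hud : ∀ y ∈ Set.uIcc c d, HasDerivAt u (u' y) y := by
    intro y hy
    exact ((hwd y hy).ofReal_comp).const_mul _
  have hvd : ∀ y ∈ Set.uIcc c d, HasDerivAt v (v' y) y := fun y _ => ee_hasDerivAt (h1 y)
  have hu'c : ContinuousOn u' (Set.Icc c d) := by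
    refine ContinuousOn.mul continuousOn_const (Complex.continuous_ofReal.comp_continuousOn hw'c)
  have hvc : Continuous v := ee_cont.comp hfc
  have hv'c : Continuous v' := by
    refine (ee_cont.comp hfc).mul (Continuous.mul ?_ continuous_const)
    exact Complex.continuous_ofReal.comp (continuous_const.mul hf'c)
  have hu'i : IntervalIntegrable u' volume c d := (huIcc ▸ hu'c).intervalIntegrable
  have hv'i : IntervalIntegrable v' volume c d := hv'c.intervalIntegrable _ _
  have hw'i : IntervalIntegrable w' volume c d := (huIcc ▸ hw'c).intervalIntegrable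
  have hparts := intervalIntegral.integral_mul_deriv_eq_deriv_mul hud hvd hu'i hv'i
  have hint : ∫ y in c..d, ee (g.eval y) = ∫ y in c..d, u y * v' y := by
    apply intervalIntegral.integral_congr
    intro y hy
    rw [huIcc] at hy
    simp only [hu, hv', hw]
    have h0 : ((f' y : ℝ) : ℂ) ≠ 0 := by exact_mod_cast hne y hy
    have hp : (Real.pi : ℂ) ≠ 0 := by exact_mod_cast hpi.ne'
    push_cast
    field_simp
    rw [Complex.I_sq]
    ring
  have hwb : ∀ y ∈ Set.Icc c d, |w y| ≤ 1 / l := by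
    intro y hy
    have h5 := hlow y hy
    simp only [hw]
    rw [abs_inv, inv_eq_one_div]
    exact one_div_le_one_div_of_le hl h5
  have h7 : (2 * Real.pi)⁻¹ ≤ 1 / 2 := by
    rw [inv_eq_one_div]
    exact one_div_le_one_div_of_le (by norm_num) (by linarith)
  have h70 : 0 ≤ (2 * Real.pi)⁻¹ := by positivity
  have hnu : ∀ y ∈ Set.Icc c d, ‖u y‖ ≤ 1 / l := by
    intro y hy
    simp only [hu]
    rw [norm_mul, norm_mul, norm_neg, Complex.norm_I, mul_one, norm_inv, Complex.norm_real, Complex.norm_real,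
      Real.norm_eq_abs, Real.norm_eq_abs, abs_of_pos (by positivity : 0 < 2 * Real.pi)]
    calc (2 * Real.pi)⁻¹ * |w y| ≤ 1 * (1 / l) :=
          mul_le_mul (by linarith) (hwb y hy) (by positivity) (by norm_num)
      _ = _ := one_mul _
  have hcm : c ∈ Set.Icc c d := ⟨le_rfl, hcd⟩
  have hdm : d ∈ Set.Icc c d := ⟨hcd, le_rfl⟩
  have hb : ‖∫ y in c..d, u' y * v y‖ ≤ 1 / l := by
    refine (intervalIntegral.norm_integral_le_integral_norm hcd).trans ?_
    have h8 : ∫ y in c..d, ‖u' y * v y‖ = ∫ y in c..d, (-σ * (2 * Real.pi)⁻¹) * w' y := by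
      apply intervalIntegral.integral_congr
      intro y hy
      rw [huIcc] at hy
      simp only [hu', hv, hw']
      rw [norm_mul, ee_norm, mul_one, norm_mul, norm_mul, norm_neg, Complex.norm_I, mul_one, norm_inv,
        Complex.norm_real, Complex.norm_real, Real.norm_eq_abs, Real.norm_eq_abs,
        abs_of_pos (by positivity : 0 < 2 * Real.pi), abs_div, abs_neg, abs_pow, sq_abs]
      simp only [hf'']
      rw [hsign y hy]
      ring
    rw [h8, intervalIntegral.integral_const_mul, intervalIntegral.integral_eq_sub_of_hasDerivAt hwd hw'i]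
    have h9 : |w d - w c| ≤ 1 / l + 1 / l := (abs_sub _ _).trans (add_le_add (hwb d hdm) (hwb c hcm))
    calc (-σ * (2 * Real.pi)⁻¹) * (w d - w c) ≤ |(-σ * (2 * Real.pi)⁻¹) * (w d - w c)| := le_abs_self _
      _ = (2 * Real.pi)⁻¹ * |w d - w c| := by
          rw [abs_mul, abs_mul, abs_neg, hσ, one_mul, abs_of_nonneg h70]
      _ ≤ 1 / 2 * (1 / l + 1 / l) := mul_le_mul h7 h9 (abs_nonneg _) (by norm_num)
      _ = 1 / l := by ring
  rw [hint, hparts]
  have e1 : ‖u d * v d‖ ≤ 1 / l := by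
    rw [norm_mul, ee_norm, mul_one]; exact hnu d hdm
  have e2 : ‖u c * v c‖ ≤ 1 / l := by
    rw [norm_mul, ee_norm, mul_one]; exact hnu c hcm
  calc ‖u d * v d - u c * v c - ∫ y in c..d, u' y * v y‖
      ≤ ‖u d * v d - u c * v c‖ + ‖∫ y in c..d, u' y * v y‖ := norm_sub_le _ _
    _ ≤ (‖u d * v d‖ + ‖u c * v c‖) + 1 / l := add_le_add (norm_sub_le _ _) hb
    _ ≤ (1 / l + 1 / l) + 1 / l := by linarith
    _ = _ := by ring

/-- cutting at the points of a finite set -/
lemma split (g : ℝ → ℂ) (hg : Continuous g) (φ : ℝ → ℝ) (hφ : ∀ a b, IntervalIntegrable φ volume a b)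
    (M : ℝ) (hM : 0 ≤ M) (F : Finset ℝ)
    (h : ∀ c d : ℝ, c ≤ d → (∀ x ∈ F, ¬ (c < x ∧ x < d)) → ‖∫ y in c..d, g y‖ ≤ (∫ y in c..d, φ y) + M) :
    ∀ n : ℕ, ∀ c d : ℝ, c ≤ d → (F.filter (fun x => c < x ∧ x < d)).card ≤ n →
      ‖∫ y in c..d, g y‖ ≤ (∫ y in c..d, φ y) + (n + 1) * M := by
  intro n
  induction n with
  | zero =>
    intro c d hcd hn
    have h1 := h c d hcd fun x hx hx2 => by
      have h2 : F.filter (fun x => c < x ∧ x < d) = ∅ := Finset.card_eq_zero.1 (Nat.le_zero.1 hn)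
      have h3 : x ∈ F.filter (fun x => c < x ∧ x < d) := Finset.mem_filter.2 ⟨hx, hx2⟩
      rw [h2] at h3
      exact absurd h3 (Finset.notMem_empty _)
    simpa using h1
  | succ n ih =>
    intro c d hcd hn
    rcases Finset.eq_empty_or_nonempty (F.filter (fun x => c < x ∧ x < d)) with h0 | h0
    · have h1 := h c d hcd fun x hx hx2 => by
        have h3 : x ∈ F.filter (fun x => c < x ∧ x < d) := Finset.mem_filter.2 ⟨hx, hx2⟩
        rw [h0] at h3
        exact absurd h3 (Finset.notMem_empty _)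
      have h2 : M ≤ ((n + 1 : ℕ) + 1 : ℝ) * M := by
        have : (0 : ℝ) ≤ ((n + 1 : ℕ) : ℝ) * M := by positivity
        linarith
      linarith
    · set x := (F.filter (fun x => c < x ∧ x < d)).max' h0 with hx
      have hxm : x ∈ F.filter (fun x => c < x ∧ x < d) := Finset.max'_mem _ _
      obtain ⟨hxF, hcx, hxd⟩ := Finset.mem_filter.1 hxm
      have h1 : (F.filter (fun y => c < y ∧ y < x)).card ≤ n := by
        have h2 : F.filter (fun y => c < y ∧ y < x) ⊆ (F.filter (fun y => c < y ∧ y < d)).erase x := by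
          intro y hy
          obtain ⟨hy1, hy2, hy3⟩ := Finset.mem_filter.1 hy
          rw [Finset.mem_erase]
          exact ⟨hy3.ne, Finset.mem_filter.2 ⟨hy1, hy2, hy3.trans hxd⟩⟩
        have h3 := Finset.card_le_card h2
        rw [Finset.card_erase_of_mem hxm] at h3
        omega
      have h4 := ih c x hcx.le h1
      have h5 := h x d hxd.le fun y hy hy2 => by
        have h6 : y ∈ F.filter (fun y => c < y ∧ y < d) := Finset.mem_filter.2 ⟨hy, hcx.trans hy2.1, hy2.2⟩
        have h7 := Finset.le_max' _ y h6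
        exact absurd hy2.1 (not_lt.2 h7)
      have h6 : ∫ y in c..d, g y = (∫ y in c..x, g y) + ∫ y in x..d, g y :=
        (intervalIntegral.integral_add_adjacent_intervals (hg.intervalIntegrable _ _) (hg.intervalIntegrable _ _)).symm
      have h7 : ∫ y in c..d, φ y = (∫ y in c..x, φ y) + ∫ y in x..d, φ y :=
        (intervalIntegral.integral_add_adjacent_intervals (hφ _ _) (hφ _ _)).symm
      rw [h6, h7]
      have h8 := norm_add_le (∫ y in c..x, g y) (∫ y in x..d, g y)
      push_cast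
      nlinarith

/-- no sign change without a root -/
lemma sign_const (q : ℝ[X]) {c d : ℝ} (h : ∀ x ∈ q.roots.toFinset, ¬ (c < x ∧ x < d)) (hcd : c < d) :
    ∃ σ : ℝ, |σ| = 1 ∧ ∀ y ∈ Set.Icc c d, |q.eval y| = σ * q.eval y := by
  classical
  rcases eq_or_ne q 0 with hq | hq
  · exact ⟨1, abs_one, fun y _ => by simp [hq]⟩
  · have hno : ∀ y ∈ Set.Ioo c d, q.eval y ≠ 0 := by
      intro y hy h0
      exact h y (by rw [Multiset.mem_toFinset, mem_roots hq]; exact h0) hy
    have hpre : IsPreconnected (Set.Ioo c d) := isPreconnected_Ioo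
    have hcont : ContinuousOn (fun y => q.eval y) (Set.Ioo c d) := q.continuous.continuousOn
    obtain ⟨m, hm⟩ : (Set.Ioo c d).Nonempty := Set.nonempty_Ioo.2 hcd
    have hcl : Set.Icc c d ⊆ closure (Set.Ioo c d) := by rw [closure_Ioo hcd.ne]
    rcases lt_or_gt_of_ne (hno m hm) with h1 | h1
    · have h2 : ∀ y ∈ Set.Ioo c d, q.eval y ≤ 0 := by
        intro y hy
        by_contra h3
        push Not at h3
        have h4 := hpre.intermediate_value hm hy hcont
        obtain ⟨z, hz, hz0⟩ := h4 (⟨h1.le, h3.le⟩ : (0 : ℝ) ∈ Set.Icc (q.eval m) (q.eval y))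
        exact hno z hz hz0
      have h3 : ∀ y ∈ Set.Icc c d, q.eval y ≤ 0 := by
        intro y hy
        have h5 : IsClosed {y : ℝ | q.eval y ≤ 0} := isClosed_le q.continuous continuous_const
        exact (closure_minimal h2 h5) (hcl hy)
      refine ⟨-1, by norm_num, fun y hy => ?_⟩
      rw [abs_of_nonpos (h3 y hy)]
      ring
    · have h2 : ∀ y ∈ Set.Ioo c d, 0 ≤ q.eval y := by
        intro y hy
        by_contra h3
        push Not at h3
        have h4 := hpre.intermediate_value hy hm hcont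
        obtain ⟨z, hz, hz0⟩ := h4 (⟨h3.le, h1.le⟩ : (0 : ℝ) ∈ Set.Icc (q.eval y) (q.eval m))
        exact hno z hz hz0
      have h3 : ∀ y ∈ Set.Icc c d, 0 ≤ q.eval y := by
        intro y hy
        have h5 : IsClosed {y : ℝ | 0 ≤ q.eval y} := isClosed_le continuous_const q.continuous
        exact (closure_minimal h2 h5) (hcl hy)
      refine ⟨1, by norm_num, fun y hy => ?_⟩
      rw [abs_of_nonneg (h3 y hy)]
      ring

/-- `|q| ≤ l` or `|q| ≥ l` without roots of `q ± l` -/
lemma level_const (q : ℝ[X]) {c d l : ℝ} (hl : 0 < l) (hcd : c < d)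
    (h1 : ∀ x ∈ (q - C l).roots.toFinset, ¬ (c < x ∧ x < d))
    (h2 : ∀ x ∈ (q + C l).roots.toFinset, ¬ (c < x ∧ x < d)) :
    (∀ y ∈ Set.Icc c d, |q.eval y| ≤ l) ∨ (∀ y ∈ Set.Icc c d, l ≤ |q.eval y|) := by
  obtain ⟨σ, hσ, h3⟩ := sign_const (q - C l) h1 hcd
  obtain ⟨τ, hτ, h4⟩ := sign_const (q + C l) h2 hcd
  simp only [eval_sub, eval_add, eval_C] at h3 h4
  have key : ∀ s : ℝ, |s| = 1 → s = 1 ∨ s = -1 := fun s hs => by
    rcases abs_choice s with h | h
    · left; linarith
    · right; linarith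
  rcases key σ hσ with h5 | h5
  · -- `q ≥ l`
    right
    intro y hy
    have h6 := h3 y hy
    rw [h5, one_mul] at h6
    have h7 : 0 ≤ q.eval y - l := by rw [← h6]; exact abs_nonneg _
    rw [abs_of_nonneg (by linarith)]
    linarith
  · rcases key τ hτ with h6 | h6
    · -- `-l ≤ q ≤ l`
      left
      intro y hy
      have h7 := h3 y hy
      have h8 := h4 y hy
      rw [h5] at h7
      rw [h6, one_mul] at h8
      have h9 : 0 ≤ q.eval y + l := by rw [← h8]; exact abs_nonneg _
      have h10 : 0 ≤ -1 * (q.eval y - l) := by rw [← h7]; exact abs_nonneg _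
      rw [abs_le]
      constructor <;> linarith
    · right
      intro y hy
      have h8 := h4 y hy
      rw [h6] at h8
      have h9 : 0 ≤ -1 * (q.eval y + l) := by rw [← h8]; exact abs_nonneg _
      rw [abs_of_nonpos (by linarith)]
      linarith

lemma card_roots_le (q : ℝ[X]) {k : ℕ} (h : q.natDegree ≤ k) : q.roots.toFinset.card ≤ k :=
  (Multiset.toFinset_card_le _).trans ((card_roots' q).trans h)

lemma phase (g : ℝ[X]) (k : ℕ) (hk : g.natDegree ≤ k) (l : ℝ) (hl : 0 < l) :
    ‖∫ y in (0:ℝ)..1, ee (g.eval y)‖ ≤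
      (volume {y : ℝ | 0 ≤ y ∧ y ≤ 1 ∧ |g.derivative.eval y| ≤ l}).toReal + (3 * k + 1) * (3 / l) := by
  classical
  set E : Set ℝ := {y : ℝ | |g.derivative.eval y| ≤ l} with hE
  have hEm : MeasurableSet E := (isClosed_le g.derivative.continuous.abs continuous_const).measurableSet
  set φ : ℝ → ℝ := E.indicator (fun _ => (1 : ℝ)) with hφ
  have hφi : ∀ a b, IntervalIntegrable φ volume a b := by
    intro a b
    have h0 : IntervalIntegrable (fun _ : ℝ => (1 : ℝ)) volume a b := intervalIntegrable_const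
    exact ⟨h0.1.indicator hEm, h0.2.indicator hEm⟩
  have hM : 0 ≤ 3 / l := by positivity
  set F : Finset ℝ := (g.derivative - C l).roots.toFinset ∪ (g.derivative + C l).roots.toFinset ∪
    g.derivative.derivative.roots.toFinset with hF
  have hd1 : g.derivative.natDegree ≤ k := (natDegree_derivative_le g).trans ((Nat.sub_le _ _).trans hk)
  have hd2 : g.derivative.derivative.natDegree ≤ k :=
    (natDegree_derivative_le _).trans ((Nat.sub_le _ _).trans hd1)
  have hFc : F.card ≤ 3 * k := by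
    have h1 := card_roots_le (g.derivative - C l) (k := k) (by rw [natDegree_sub_C]; exact hd1)
    have h2 := card_roots_le (g.derivative + C l) (k := k) (by rw [natDegree_add_C]; exact hd1)
    have h3 := card_roots_le g.derivative.derivative hd2
    have h4 := Finset.card_union_le ((g.derivative - C l).roots.toFinset ∪ (g.derivative + C l).roots.toFinset)
      g.derivative.derivative.roots.toFinset
    have h5 := Finset.card_union_le (g.derivative - C l).roots.toFinset (g.derivative + C l).roots.toFinset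
    rw [hF]
    omega
  have hmain := split (fun y => ee (g.eval y)) (ee_cont.comp g.continuous) φ hφi (3 / l) hM F (by
    intro c d hcd hno
    have hφ0 : 0 ≤ ∫ y in c..d, φ y :=
      intervalIntegral.integral_nonneg hcd fun y _ => Set.indicator_nonneg (fun _ _ => zero_le_one) y
    rcases eq_or_lt_of_le hcd with h | h
    · rw [h, intervalIntegral.integral_same, norm_zero, intervalIntegral.integral_same]
      linarith
    · have h1 : ∀ x ∈ (g.derivative - C l).roots.toFinset, ¬ (c < x ∧ x < d) := fun x hx =>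
        hno x (Finset.mem_union_left _ (Finset.mem_union_left _ hx))
      have h2 : ∀ x ∈ (g.derivative + C l).roots.toFinset, ¬ (c < x ∧ x < d) := fun x hx =>
        hno x (Finset.mem_union_left _ (Finset.mem_union_right _ hx))
      have h3 : ∀ x ∈ g.derivative.derivative.roots.toFinset, ¬ (c < x ∧ x < d) := fun x hx =>
        hno x (Finset.mem_union_right _ hx)
      rcases level_const g.derivative hl h h1 h2 with h4 | h4
      · have h5 : ∫ y in c..d, φ y = ∫ y in c..d, ‖ee (g.eval y)‖ := by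
          apply intervalIntegral.integral_congr
          intro y hy
          rw [Set.uIcc_of_le hcd] at hy
          simp only [hφ]
          rw [ee_norm, Set.indicator_of_mem]
          exact h4 y hy
        have h6 := intervalIntegral.norm_integral_le_integral_norm (f := fun y => ee (g.eval y)) (μ := volume) hcd
        rw [h5]
        linarith
      · obtain ⟨σ, hσ, h5⟩ := sign_const g.derivative.derivative h3 h
        have h6 := first_deriv g hcd hl h4 σ hσ h5
        linarith) (3 * k) 0 1 zero_le_one ((Finset.card_filter_le _ _).trans hFc)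
  refine hmain.trans ?_
  push_cast
  have h7 : ∫ y in (0:ℝ)..1, φ y ≤ (volume {y : ℝ | 0 ≤ y ∧ y ≤ 1 ∧ |g.derivative.eval y| ≤ l}).toReal := by
    rw [intervalIntegral.integral_of_le zero_le_one, hφ, setIntegral_indicator hEm, setIntegral_const,
      smul_eq_mul, mul_one, Measure.real]
    apply ENNReal.toReal_mono
    · have h8 : volume {y : ℝ | 0 ≤ y ∧ y ≤ 1 ∧ |g.derivative.eval y| ≤ l} ≤ volume (Set.Icc (0 : ℝ) 1) :=
        measure_mono fun y hy => ⟨hy.1, hy.2.1⟩
      exact ne_top_of_le_ne_top (by rw [Real.volume_Icc]; exact ENNReal.ofReal_ne_top) h8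
    · apply measure_mono
      rintro y ⟨hy1, hy2⟩
      exact ⟨hy1.1.le, hy1.2, hy2⟩
  linarith

end PkgVDC

open PkgVDC Polynomial in
theorem T_VDC (hSUB : P_SUB) : P_VDC := by
  intro k hk
  -- the polynomial
  have hpoly : ∀ α : Fin k → ℝ, ∃ g : ℝ[X], g.natDegree ≤ k ∧
      (∀ y, g.eval y = ∑ j, α j * y ^ ((j : ℕ) + 1)) ∧
      (∀ y, g.derivative.eval y = ∑ j, (α j * ((j : ℕ) + 1)) * y ^ (j : ℕ)) := by
    intro α
    refine ⟨∑ j : Fin k, C (α j) * X ^ ((j : ℕ) + 1), ?_, ?_, ?_⟩
    · apply natDegree_sum_le_of_forall_le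
      intro j _
      exact (natDegree_C_mul_X_pow_le _ _).trans j.2
    · intro y
      simp [eval_finset_sum]
    · intro y
      rw [derivative_sum, eval_finset_sum]
      refine Finset.sum_congr rfl fun j _ => ?_
      simp
      ring
  rcases Nat.lt_or_ge k 2 with hk2 | hk2
  · -- `k = 1`
    obtain rfl : k = 1 := by omega
    refine ⟨24, by norm_num, fun α B hB hα => ?_⟩
    obtain ⟨g, hg1, hg2, hg3⟩ := hpoly α
    have h1 := phase g 1 hg1 (B / 2) (half_pos hB)
    have h2 : {y : ℝ | 0 ≤ y ∧ y ≤ 1 ∧ |g.derivative.eval y| ≤ B / 2} = ∅ := by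
      rw [Set.eq_empty_iff_forall_notMem]
      rintro y ⟨_, _, h3⟩
      obtain ⟨j, hj⟩ := hα
      rw [hg3] at h3
      have hj0 : j = 0 := Subsingleton.elim _ _
      subst hj0
      simp at h3
      linarith
    rw [h2, measure_empty, ENNReal.toReal_zero] at h1
    have h3 : II 1 1 α = ∫ y in (0:ℝ)..1, ee (g.eval y) := by
      unfold II
      simp only [hg2]
    rw [h3]
    refine h1.trans (le_of_eq ?_)
    have h4 : B ^ (-(1 / ((1 : ℕ) : ℝ))) = B⁻¹ := by
      rw [Nat.cast_one, div_one, Real.rpow_neg_one]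
    rw [h4]
    push_cast
    field_simp
    norm_num
  · obtain ⟨d, rfl⟩ : ∃ d, k = d + 1 := ⟨k - 1, by omega⟩
    have hd : 1 ≤ d := by omega
    obtain ⟨C₀, hC₀, hS⟩ := hSUB d hd
    refine ⟨C₀ + (3 * ((d + 1 : ℕ) : ℝ) + 1) * 3, by positivity, fun α B hB hα => ?_⟩
    obtain ⟨g, hg1, hg2, hg3⟩ := hpoly α
    set l : ℝ := B ^ (1 / ((d + 1 : ℕ) : ℝ)) with hl
    have hl0 : 0 < l := Real.rpow_pos_of_pos hB _
    have h1 := phase g (d + 1) hg1 l hl0
    have h2 := hS (fun j => α j * ((j : ℕ) + 1)) B l hB hl0 (by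
      obtain ⟨j, hj⟩ := hα
      refine ⟨j, hj.trans ?_⟩
      rw [abs_mul]
      have h3 : (1 : ℝ) ≤ |((j : ℕ) : ℝ) + 1| := by
        rw [abs_of_nonneg (by positivity)]
        have : (0 : ℝ) ≤ ((j : ℕ) : ℝ) := Nat.cast_nonneg _
        linarith
      nlinarith [abs_nonneg (α j)])
    have h3 : II (d + 1) 1 α = ∫ y in (0:ℝ)..1, ee (g.eval y) := by
      unfold II
      simp only [hg2]
    have hd0 : (0 : ℝ) < d := by exact_mod_cast hd
    have e1 : (l / B) ^ (1 / (d : ℝ)) = B ^ (-(1 / ((d + 1 : ℕ) : ℝ))) := by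
      have h4 : l / B = B ^ (1 / ((d + 1 : ℕ) : ℝ) - 1) := by
        rw [Real.rpow_sub hB, Real.rpow_one]
      rw [h4, ← Real.rpow_mul hB.le]
      congr 1
      push_cast
      field_simp
      ring
    have e2 : 3 / l = 3 * B ^ (-(1 / ((d + 1 : ℕ) : ℝ))) := by
      rw [Real.rpow_neg hB.le, hl]
      rfl
    have h5 : (volume {y : ℝ | 0 ≤ y ∧ y ≤ 1 ∧ |g.derivative.eval y| ≤ l}).toReal ≤
        C₀ * B ^ (-(1 / ((d + 1 : ℕ) : ℝ))) := by
      have h6 : {y : ℝ | 0 ≤ y ∧ y ≤ 1 ∧ |g.derivative.eval y| ≤ l} =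
          {y : ℝ | 0 ≤ y ∧ y ≤ 1 ∧ |∑ j : Fin (d + 1), (α j * ((j : ℕ) + 1)) * y ^ (j : ℕ)| ≤ l} := by
        ext y
        simp only [Set.mem_setOf_eq, hg3]
      rw [h6]
      rw [e1] at h2
      refine ENNReal.toReal_le_of_le_ofReal ?_ h2
      exact mul_nonneg hC₀ (Real.rpow_nonneg hB.le _)
    rw [h3]
    rw [e2] at h1
    have h7 : 0 ≤ B ^ (-(1 / ((d + 1 : ℕ) : ℝ))) := Real.rpow_nonneg hB.le _
    calc _ ≤ _ := h1
      _ ≤ C₀ * B ^ (-(1 / ((d + 1 : ℕ) : ℝ))) +
          (3 * ((d + 1 : ℕ) : ℝ) + 1) * (3 * B ^ (-(1 / ((d + 1 : ℕ) : ℝ)))) := by linarith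
      _ = _ := by ring

end Pool.Agent.T2H31.NV
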