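import Pool.Agent.T2H31.NV.Stm

/-! # Package VOL : the volume of the real solution set (helper57) -/

set_option autoImplicit false

namespace Pool.Agent.T2H31.NV

open MeasureTheory ProbabilityTheory Finset Filter Topology Pool.Agent.T2H31.RC

namespace Vol

lemma ee_norm (x : ℝ) : ‖ee x‖ = 1 := by
  unfold ee
  rw [Complex.norm_exp]
  simp

lemma ee_add (x y : ℝ) : ee (x + y) = ee x * ee y := by
  unfold ee
  rw [← Complex.exp_add]
  congr 1
  push_cast
  ring

lemma ee_zero : ee 0 = 1 := by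
  unfold ee
  simp

lemma ee_neg (x : ℝ) : ee (-x) = (starRingEnd ℂ) (ee x) := by
  unfold ee
  rw [← Complex.exp_conj]
  congr 1
  simp only [map_mul, Complex.conj_ofReal, Complex.conj_I, map_ofNat]
  push_cast
  ring

lemma ee_re (x : ℝ) : (ee x).re = Real.cos (2 * Real.pi * x) := by
  unfold ee
  rw [show (2 * Real.pi * x * Complex.I : ℂ) = ((2 * Real.pi * x : ℝ) : ℂ) * Complex.I by push_cast; ring,
    Complex.exp_ofReal_mul_I_re]

lemma ee_sum {κ : Type} (s : Finset κ) (f : κ → ℝ) : ee (∑ i ∈ s, f i) = ∏ i ∈ s, ee (f i) := by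
  classical
  induction s using Finset.induction_on with
  | empty => simp [ee_zero]
  | insert a s ha ih => rw [Finset.sum_insert ha, Finset.prod_insert ha, ee_add, ih]

lemma ee_cont : Continuous ee := by
  unfold ee
  fun_prop

lemma ee_half {x : ℝ} (h : |x| ≤ 1 / 8) : 1 / 2 ≤ (ee x).re := by
  rw [ee_re, ← Real.cos_abs, ← Real.cos_pi_div_three]
  have hp := Real.pi_pos
  have e : |2 * Real.pi * x| = 2 * Real.pi * |x| := by
    rw [abs_mul, abs_of_pos (by positivity)]
  rw [e]
  apply Real.cos_le_cos_of_nonneg_of_le_pi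
  · positivity
  · linarith
  · nlinarith [abs_nonneg x]

lemma prod_le_sum {ι : Type} [Fintype ι] [Nonempty ι] (b : ι → ℝ) (hb : ∀ i, 0 ≤ b i) :
    ∏ i, b i ≤ ∑ i, b i ^ Fintype.card ι := by
  obtain ⟨i0, -, h0⟩ := Finset.exists_max_image Finset.univ b Finset.univ_nonempty
  calc ∏ i, b i ≤ ∏ i : ι, b i0 := Finset.prod_le_prod (fun i _ => hb i) (fun i _ => h0 i (Finset.mem_univ i))
    _ = b i0 ^ Fintype.card ι := by simp [Finset.card_univ]
    _ ≤ _ := Finset.single_le_sum (f := fun i => b i ^ Fintype.card ι) (fun i _ => pow_nonneg (hb i) _)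
      (Finset.mem_univ i0)

lemma II_cont (k : ℕ) (X : ℝ) : Continuous (II k X) := by
  unfold II
  apply intervalIntegral.continuous_parametric_intervalIntegral_of_continuous'
  have := ee_cont
  fun_prop

lemma II_le (k : ℕ) {X : ℝ} (hX : 0 ≤ X) (α : Fin k → ℝ) : ‖II k X α‖ ≤ X := by
  unfold II
  have h := intervalIntegral.norm_integral_le_of_norm_le_const (a := (0 : ℝ)) (b := X) (C := 1)
    (f := fun y => ee (∑ j, α j * y ^ ((j : ℕ) + 1))) (fun y _ => (ee_norm _).le)
  rw [sub_zero, abs_of_nonneg hX, one_mul] at h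
  exact h

/-- the box `|α j| ≤ a` -/
def Box (k : ℕ) (a : ℝ) : Set (Fin k → ℝ) := {α | ∀ j, |α j| ≤ a}

lemma Box_eq (k : ℕ) (a : ℝ) : Box k a = Set.univ.pi fun _ => Set.Icc (-a) a := by
  ext α
  simp only [Box, Set.mem_ofPred_eq, Set.mem_univ_pi, Set.mem_Icc, abs_le]

lemma Box_compact (k : ℕ) (a : ℝ) : IsCompact (Box k a) := by
  rw [Box_eq]
  exact isCompact_univ_pi fun _ => isCompact_Icc

lemma Box_meas (k : ℕ) (a : ℝ) : MeasurableSet (Box k a) := (Box_compact k a).isClosed.measurableSet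

lemma scale (k : ℕ) (X a c : ℝ) (hc : c ≠ 0) (r : ℕ) :
    ∫ α in Box k a, ‖II k X (fun j => c * α j)‖ ^ r ≤
      |(c ^ k)⁻¹| * ∫ α in Box k (|c| * a), ‖II k X α‖ ^ r := by
  have h := Measure.setIntegral_comp_smul (volume : Measure (Fin k → ℝ)) (fun β => ‖II k X β‖ ^ r) (Box k a) hc
  rw [Module.finrank_fin_fun] at h
  have e : ∀ α : Fin k → ℝ, c • α = fun j => c * α j := fun α => rfl
  simp only [e] at h
  rw [h, smul_eq_mul]
  apply mul_le_mul_of_nonneg_left _ (abs_nonneg _)
  apply setIntegral_mono_set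
  · exact (((II_cont k X).norm.pow r).continuousOn.integrableOn_compact (Box_compact k _))
  · exact Filter.Eventually.of_forall fun α => by positivity
  · apply Filter.Eventually.of_forall
    intro β hβ
    obtain ⟨α, hα, rfl⟩ := hβ
    intro j
    have := hα j
    simp only [e]
    rw [abs_mul]
    exact mul_le_mul_of_nonneg_left this (abs_nonneg c)

/-- Lebesgue measure on a cube -/
noncomputable def nu (ι : Type) [Fintype ι] (X : ℝ) : Measure (ι → ℝ) :=
  Measure.pi fun _ : ι => (volume : Measure ℝ).restrict (Set.Icc 0 X)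

instance (ι : Type) [Fintype ι] (X : ℝ) : IsFiniteMeasure (nu ι X) := by
  unfold nu
  infer_instance

lemma nu_eq (ι : Type) [Fintype ι] (X : ℝ) :
    nu ι X = (volume : Measure (ι → ℝ)).restrict (Set.univ.pi fun _ => Set.Icc 0 X) := by
  rw [nu, volume_pi, Measure.restrict_pi_pi]

lemma nu_univ (ι : Type) [Fintype ι] {X : ℝ} (hX : 0 ≤ X) : nu ι X Set.univ = ENNReal.ofReal (X ^ Fintype.card ι) := by
  rw [nu, Measure.pi_univ]
  simp only [Measure.restrict_apply_univ, Real.volume_Icc, sub_zero, Finset.prod_const, Finset.card_univ]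
  rw [ENNReal.ofReal_pow hX]

/-- the phase -/
noncomputable def ph {k : ℕ} {ι : Type} [Fintype ι] (c : ι → ℝ) (u : Fin k → ℝ) (z : ι → ℝ) (j : Fin k) : ℝ :=
  ∑ i, c i * z i ^ ((j : ℕ) + 1) - u j

lemma fourier {k : ℕ} {ι : Type} [Fintype ι] (c : ι → ℝ) (u : Fin k → ℝ) {X : ℝ} (hX : 0 ≤ X) (β : Fin k → ℝ) :
    ∫ z, ee (∑ j, β j * ph c u z j) ∂(nu ι X) = ee (-∑ j, β j * u j) * ∏ i, II k X (fun j => c i * β j) := by
  have e : ∀ z : ι → ℝ, ee (∑ j, β j * ph c u z j) =
      ee (-∑ j, β j * u j) * ∏ i, ee (∑ j : Fin k, (c i * β j) * z i ^ ((j : ℕ) + 1)) := by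
    intro z
    rw [← ee_sum, ← ee_add]
    congr 1
    unfold ph
    simp only [mul_sub, Finset.sum_sub_distrib, Finset.mul_sum]
    rw [Finset.sum_comm]
    have : ∀ i : ι, ∑ j : Fin k, β j * (c i * z i ^ ((j : ℕ) + 1)) = ∑ j : Fin k, c i * β j * z i ^ ((j : ℕ) + 1) :=
      fun i => Finset.sum_congr rfl fun j _ => by ring
    simp only [this]
    ring
  simp only [e]
  rw [integral_const_mul]
  congr 1
  unfold nu
  rw [integral_fintype_prod_eq_prod (f := fun (i : ι) (y : ℝ) => ee (∑ j : Fin k, (c i * β j) * y ^ ((j : ℕ) + 1)))]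
  apply Finset.prod_congr rfl
  intro i _
  rw [integral_Icc_eq_integral_Ioc, II, intervalIntegral.integral_of_le hX]

lemma ph_cont {k : ℕ} {ι : Type} [Fintype ι] (c : ι → ℝ) (u : Fin k → ℝ) (j : Fin k) :
    Continuous fun z : ι → ℝ => ph c u z j := by
  unfold ph
  fun_prop

/-- the smoothing kernel -/
noncomputable def KK' {k : ℕ} {ι : Type} [Fintype ι] (c : ι → ℝ) (u : Fin k → ℝ) (a : ℝ) (z : ι → ℝ) : ℂ :=
  ∫ y, ee (∑ j, y j * ph c u z j) ∂(nu (Fin k) a)

lemma KK'_meas {k : ℕ} {ι : Type} [Fintype ι] (c : ι → ℝ) (u : Fin k → ℝ) (a : ℝ) :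
    StronglyMeasurable (KK' c u a) := by
  unfold KK'
  have h : Continuous (Function.uncurry fun (z : ι → ℝ) (y : Fin k → ℝ) => ee (∑ j, y j * ph c u z j)) := by
    have := ee_cont
    have := ph_cont c u
    simp only [Function.uncurry_def]
    apply ee_cont.comp
    apply continuous_finsetSum
    intro j _
    exact ((continuous_apply j).comp continuous_snd).mul ((ph_cont c u j).comp continuous_fst)
  exact h.stronglyMeasurable.integral_prod_right

lemma KK'_le {k : ℕ} {ι : Type} [Fintype ι] (c : ι → ℝ) (u : Fin k → ℝ) {a : ℝ} (ha : 0 ≤ a) (z : ι → ℝ) :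
    ‖KK' c u a z‖ ≤ a ^ k := by
  unfold KK'
  have h := norm_integral_le_of_norm_le_const (μ := nu (Fin k) a) (C := 1)
    (f := fun y : Fin k → ℝ => ee (∑ j, y j * ph c u z j)) (Filter.Eventually.of_forall fun y => (ee_norm _).le)
  rw [one_mul, measureReal_def, nu_univ _ ha, ENNReal.toReal_ofReal (by positivity), Fintype.card_fin] at h
  exact h

lemma KK'_int {k : ℕ} {ι : Type} [Fintype ι] (c : ι → ℝ) (u : Fin k → ℝ) (a : ℝ) (z : ι → ℝ) :
    Integrable (fun y : Fin k → ℝ => ee (∑ j, y j * ph c u z j)) (nu (Fin k) a) := by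
  apply Integrable.of_bound (C := 1)
  · have := ee_cont
    exact Continuous.aestronglyMeasurable (by fun_prop)
  · exact Filter.Eventually.of_forall fun y => (ee_norm _).le

/-- lower bound on the solution set -/
lemma KK'_ge {k : ℕ} (hk : 1 ≤ k) {ι : Type} [Fintype ι] (c : ι → ℝ) (u : Fin k → ℝ) {τ : ℝ} (hτ : 0 < τ) (z : ι → ℝ)
    (hz : ∀ j : Fin k, |ph c u z j| ≤ τ) :
    (1 / (8 * k * τ)) ^ k / 2 ≤ ‖KK' c u (1 / (8 * k * τ)) z‖ := by
  set a : ℝ := 1 / (8 * k * τ) with ha
  have hk0 : (0 : ℝ) < k := by exact_mod_cast hk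
  have ha0 : 0 < a := by rw [ha]; positivity
  have h1 : (KK' c u a z).re = ∫ y, (ee (∑ j, y j * ph c u z j)).re ∂(nu (Fin k) a) := by
    unfold KK'
    exact (integral_re (𝕜 := ℂ) (KK'_int c u a z)).symm
  have h2 : ∫ y : Fin k → ℝ, (1 / 2 : ℝ) ∂(nu (Fin k) a) ≤ ∫ y, (ee (∑ j, y j * ph c u z j)).re ∂(nu (Fin k) a) := by
    apply integral_mono_ae (integrable_const _) (KK'_int c u a z).re
    rw [nu_eq]
    rw [Filter.EventuallyLE, ae_restrict_iff' (MeasurableSet.univ_pi fun _ => measurableSet_Icc)]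
    refine Filter.Eventually.of_forall fun y hy => ?_
    rw [Set.mem_univ_pi] at hy
    apply ee_half
    calc |∑ j, y j * ph c u z j| ≤ ∑ j, |y j * ph c u z j| := Finset.abs_sum_le_sum_abs _ _
      _ ≤ ∑ j : Fin k, a * τ := by
        apply Finset.sum_le_sum
        intro j _
        rw [abs_mul]
        apply mul_le_mul _ (hz j) (abs_nonneg _) ha0.le
        rw [abs_of_nonneg (hy j).1]
        exact (hy j).2
      _ = 1 / 8 := by
        rw [Finset.sum_const, Finset.card_univ, Fintype.card_fin, nsmul_eq_mul, ha]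
        field_simp
  rw [integral_const, smul_eq_mul, measureReal_def, nu_univ _ ha0.le, ENNReal.toReal_ofReal (by positivity),
    Fintype.card_fin] at h2
  calc a ^ k / 2 = a ^ k * (1 / 2) := by ring
    _ ≤ (KK' c u a z).re := by rw [h1]; exact h2
    _ ≤ ‖KK' c u a z‖ := Complex.re_le_norm _

/-- the square as a double integral -/
lemma KK'_sq {k : ℕ} {ι : Type} [Fintype ι] (c : ι → ℝ) (u : Fin k → ℝ) (a : ℝ) (z : ι → ℝ) :
    ((‖KK' c u a z‖ ^ 2 : ℝ) : ℂ) =
      ∫ p, ee (∑ j, (p.1 j - p.2 j) * ph c u z j) ∂((nu (Fin k) a).prod (nu (Fin k) a)) := by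
  have h1 : ((‖KK' c u a z‖ ^ 2 : ℝ) : ℂ) = KK' c u a z * (starRingEnd ℂ) (KK' c u a z) := by
    rw [Complex.mul_conj, Complex.normSq_eq_norm_sq]
  rw [h1]
  unfold KK'
  rw [← integral_conj, ← integral_prod_mul]
  congr 1
  ext p
  rw [← ee_neg, ← ee_add]
  congr 1
  simp only [sub_mul, Finset.sum_sub_distrib]
  ring

lemma int_sq {k : ℕ} {ι : Type} [Fintype ι] (c : ι → ℝ) (u : Fin k → ℝ) (a : ℝ) {X : ℝ} (hX : 0 ≤ X) :
    ∫ z, ‖KK' c u a z‖ ^ 2 ∂(nu ι X) ≤
      ∫ p, ∏ i, ‖II k X (fun j => c i * (p.1 j - p.2 j))‖ ∂((nu (Fin k) a).prod (nu (Fin k) a)) := by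
  have h1 : ((∫ z, ‖KK' c u a z‖ ^ 2 ∂(nu ι X) : ℝ) : ℂ) =
      ∫ p, (∫ z, ee (∑ j, (p.1 j - p.2 j) * ph c u z j) ∂(nu ι X)) ∂((nu (Fin k) a).prod (nu (Fin k) a)) := by
    rw [← integral_complex_ofReal]
    simp only [KK'_sq]
    apply integral_integral_swap
    apply Integrable.of_bound (C := 1)
    · apply Continuous.aestronglyMeasurable
      simp only [Function.uncurry_def]
      apply ee_cont.comp
      apply continuous_finsetSum
      intro j _
      have h2 := (ph_cont c u j).comp (continuous_fst (X := ι → ℝ) (Y := (Fin k → ℝ) × (Fin k → ℝ)))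
      apply Continuous.mul _ h2
      fun_prop
    · exact Filter.Eventually.of_forall fun y => (ee_norm _).le
  have h0 : 0 ≤ ∫ z, ‖KK' c u a z‖ ^ 2 ∂(nu ι X) := integral_nonneg fun z => by positivity
  have h2 : ∫ z, ‖KK' c u a z‖ ^ 2 ∂(nu ι X) = ‖((∫ z, ‖KK' c u a z‖ ^ 2 ∂(nu ι X) : ℝ) : ℂ)‖ := by
    rw [Complex.norm_real, Real.norm_eq_abs, abs_of_nonneg h0]
  rw [h2, h1]
  refine (norm_integral_le_integral_norm _).trans (le_of_eq ?_)
  congr 1
  ext p
  rw [fourier c u hX (fun j => p.1 j - p.2 j), norm_mul, ee_norm, one_mul, norm_prod]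

lemma diff_le (k : ℕ) (a : ℝ) (F : (Fin k → ℝ) → ENNReal) (hF : Measurable F) :
    ∫⁻ p, F (fun j => p.1 j - p.2 j) ∂((nu (Fin k) a).prod (nu (Fin k) a)) ≤
      nu (Fin k) a Set.univ * ∫⁻ α in Box k a, F α := by
  rw [lintegral_prod _ (by
    apply Measurable.aemeasurable
    apply hF.comp
    fun_prop)]
  calc ∫⁻ x, ∫⁻ y, F (fun j => x j - y j) ∂(nu (Fin k) a) ∂(nu (Fin k) a) ≤
      ∫⁻ _, (∫⁻ α in Box k a, F α) ∂(nu (Fin k) a) := by
        apply lintegral_mono_ae
        have hae : ∀ᵐ x ∂(nu (Fin k) a), x ∈ Set.univ.pi fun _ : Fin k => Set.Icc (0 : ℝ) a := by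
          rw [nu_eq]
          exact ae_restrict_mem (MeasurableSet.univ_pi fun _ => measurableSet_Icc)
        filter_upwards [hae] with x hx
        rw [Set.mem_univ_pi] at hx
        rw [nu_eq, ← lintegral_indicator (MeasurableSet.univ_pi fun _ => measurableSet_Icc),
          ← lintegral_indicator (Box_meas k a)]
        rw [← lintegral_sub_left_eq_self (fun α => (Box k a).indicator (fun α => F α) α) x]
        apply lintegral_mono
        intro y
        by_cases hy : y ∈ Set.univ.pi fun _ : Fin k => Set.Icc (0 : ℝ) a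
        · rw [Set.indicator_of_mem hy]
          rw [Set.mem_univ_pi] at hy
          have : x - y ∈ Box k a := by
            intro j
            have h1 := hx j
            have h2 := hy j
            rw [Pi.sub_apply, abs_le]
            constructor <;> linarith [h1.1, h1.2, h2.1, h2.2]
          show F (fun j => x j - y j) ≤ (Box k a).indicator (fun α => F α) (x - y)
          rw [Set.indicator_of_mem this]
          exact le_refl _
        · rw [Set.indicator_of_notMem hy]
          exact zero_le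
    _ = nu (Fin k) a Set.univ * ∫⁻ α in Box k a, F α := by
        rw [lintegral_const, mul_comm]

end Vol

open Vol in
theorem T_VOL (hMEA : P_MEA) : P_VOL := by
  intro k hk ι _ c hc τ hτ
  have hk0 : (0 : ℝ) < k := by exact_mod_cast hk
  rcases isEmpty_or_nonempty ι with hι | hι
  · refine ⟨1, zero_le_one, fun X hX u => ?_⟩
    refine (measure_mono (Set.subset_univ _)).trans ?_
    have h1 : (volume : Measure (ι → ℝ)) Set.univ = 1 := by
      rw [volume_pi, Measure.pi_univ]
      simp
    rw [h1, one_mul]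
    have h2 : EE k (Fintype.card ι) = 0 := by
      rw [Fintype.card_eq_zero]
      unfold EE KK
      rw [Nat.cast_zero, mul_zero, zero_sub]
      apply max_eq_left
      have : (0 : ℝ) ≤ (k : ℝ) * (k + 1) / 2 := by positivity
      linarith
    rw [h2, Real.rpow_zero, ENNReal.ofReal_one]
  · set a : ℝ := 1 / (8 * k * τ) with ha
    have ha0 : 0 < a := by rw [ha]; positivity
    have hci : ∀ i, 0 < |c i| := fun i => abs_pos.mpr (hc i)
    choose C hC0 hC using fun i => hMEA k hk (Fintype.card ι) (|c i| * a) (mul_pos (hci i) ha0)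
    set D : ℝ := ∑ i, |(c i ^ k)⁻¹| * C i with hD
    have hD0 : 0 ≤ D := Finset.sum_nonneg fun i _ => mul_nonneg (abs_nonneg _) (hC0 i)
    refine ⟨(a ^ k / 2)⁻¹ ^ 2 * (a ^ k * D), by positivity, fun X hX u => ?_⟩
    have hX0 : (0 : ℝ) ≤ X := by linarith
    set S : Set (ι → ℝ) := {z : ι → ℝ | (∀ i, 0 ≤ z i ∧ z i ≤ X) ∧ ∀ j : Fin k, |∑ i, c i * z i ^ ((j : ℕ) + 1) - u j| ≤ τ} with hS
    have hSm : MeasurableSet S := by
      have e : S = (⋂ i, {z : ι → ℝ | 0 ≤ z i ∧ z i ≤ X}) ∩
          ⋂ j : Fin k, {z : ι → ℝ | |∑ i, c i * z i ^ ((j : ℕ) + 1) - u j| ≤ τ} := by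
        ext z
        simp only [hS, Set.mem_inter_iff, Set.mem_iInter, Set.mem_ofPred_eq]
      have : IsClosed S := by
        rw [e]
        apply IsClosed.inter
        · apply isClosed_iInter
          intro i
          exact (isClosed_le continuous_const (continuous_apply i)).inter
            (isClosed_le (continuous_apply i) continuous_const)
        · apply isClosed_iInter
          intro j
          exact isClosed_le (by fun_prop) continuous_const
      exact this.measurableSet
    have hSsub : S ⊆ Set.univ.pi fun _ => Set.Icc 0 X := by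
      intro z hz
      rw [Set.mem_univ_pi]
      exact fun i => hz.1 i
    have hvol : volume S = nu ι X S := by
      rw [nu_eq, Measure.restrict_apply hSm, Set.inter_eq_left.mpr hSsub]
    have hint2 : Integrable (fun z => ‖KK' c u a z‖ ^ 2) (nu ι X) := by
      refine Integrable.of_bound ?_ ((a ^ k) ^ 2) ?_
      · exact ((KK'_meas c u a).norm.pow 2).aestronglyMeasurable
      · refine Filter.Eventually.of_forall fun z => ?_
        rw [Real.norm_eq_abs, abs_of_nonneg (by positivity)]
        exact pow_le_pow_left₀ (norm_nonneg _) (KK'_le c u ha0.le z) 2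
    -- lower bound
    have h1 : (a ^ k / 2) ^ 2 * (nu ι X).real S ≤ ∫ z, ‖KK' c u a z‖ ^ 2 ∂(nu ι X) := by
      have h2 : ∫ z in S, (a ^ k / 2) ^ 2 ∂(nu ι X) ≤ ∫ z in S, ‖KK' c u a z‖ ^ 2 ∂(nu ι X) := by
        apply setIntegral_mono_on (integrable_const _).integrableOn hint2.integrableOn hSm
        intro z hz
        exact pow_le_pow_left₀ (by positivity) (KK'_ge hk c u hτ z hz.2) 2
      have h3 : ∫ z in S, ‖KK' c u a z‖ ^ 2 ∂(nu ι X) ≤ ∫ z, ‖KK' c u a z‖ ^ 2 ∂(nu ι X) :=
        setIntegral_le_integral hint2 (Filter.Eventually.of_forall fun z => by positivity)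
      rw [setIntegral_const, smul_eq_mul] at h2
      linarith
    have h4 := int_sq c u a hX0
    -- the double integral
    set G : (Fin k → ℝ) → ℝ := fun α => ∏ i, ‖II k X (fun j => c i * α j)‖ with hG
    have hGc : Continuous G := by
      rw [hG]
      apply continuous_finsetProd
      intro i _
      apply Continuous.norm
      apply (II_cont k X).comp
      fun_prop
    have hG0 : ∀ α, 0 ≤ G α := fun α => Finset.prod_nonneg fun i _ => norm_nonneg _
    have hGX : ∀ α, G α ≤ X ^ Fintype.card ι := by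
      intro α
      rw [hG]
      calc ∏ i, ‖II k X (fun j => c i * α j)‖ ≤ ∏ i : ι, X :=
            Finset.prod_le_prod (fun i _ => norm_nonneg _) (fun i _ => II_le k hX0 _)
        _ = _ := by rw [Finset.prod_const, Finset.card_univ]
    have hGint : Integrable (fun p : (Fin k → ℝ) × (Fin k → ℝ) => G (fun j => p.1 j - p.2 j))
        ((nu (Fin k) a).prod (nu (Fin k) a)) := by
      apply Integrable.of_bound (C := X ^ Fintype.card ι)
      · apply Continuous.aestronglyMeasurable
        apply hGc.comp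
        fun_prop
      · refine Filter.Eventually.of_forall fun p => ?_
        rw [Real.norm_eq_abs, abs_of_nonneg (hG0 _)]
        exact hGX _
    have hGbox : IntegrableOn G (Box k a) := hGc.continuousOn.integrableOn_compact (Box_compact k a)
    have h5 : ∫ p, G (fun j => p.1 j - p.2 j) ∂((nu (Fin k) a).prod (nu (Fin k) a)) ≤
        a ^ k * ∫ α in Box k a, G α := by
      have h6 := diff_le k a (fun α => ENNReal.ofReal (G α)) (hGc.measurable.ennreal_ofReal)
      rw [← ofReal_integral_eq_lintegral_ofReal hGint (Filter.Eventually.of_forall fun p => hG0 _),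
        ← ofReal_integral_eq_lintegral_ofReal hGbox (Filter.Eventually.of_forall fun p => hG0 _),
        nu_univ _ ha0.le, Fintype.card_fin, ← ENNReal.ofReal_mul (by positivity)] at h6
      have h7 : 0 ≤ ∫ α in Box k a, G α := integral_nonneg fun α => hG0 α
      exact (ENNReal.ofReal_le_ofReal_iff (by positivity)).mp h6
    have h8 : ∫ α in Box k a, G α ≤ D * X ^ EE k (Fintype.card ι) := by
      have hint : ∀ i : ι, IntegrableOn (fun α : Fin k → ℝ => ‖II k X (fun j => c i * α j)‖ ^ Fintype.card ι) (Box k a) := by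
        intro i
        apply (Continuous.continuousOn _).integrableOn_compact (Box_compact k a)
        apply Continuous.pow
        apply Continuous.norm
        apply (II_cont k X).comp
        fun_prop
      calc ∫ α in Box k a, G α ≤ ∫ α in Box k a, ∑ i, ‖II k X (fun j => c i * α j)‖ ^ Fintype.card ι := by
            apply setIntegral_mono hGbox (integrable_finsetSum _ fun i _ => hint i)
            intro α
            exact prod_le_sum _ fun i => norm_nonneg _
        _ = ∑ i, ∫ α in Box k a, ‖II k X (fun j => c i * α j)‖ ^ Fintype.card ι :=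
            integral_finsetSum _ fun i _ => hint i
        _ ≤ ∑ i, |(c i ^ k)⁻¹| * C i * X ^ EE k (Fintype.card ι) := by
            apply Finset.sum_le_sum
            intro i _
            refine (scale k X a (c i) (hc i) _).trans ?_
            rw [mul_assoc]
            exact mul_le_mul_of_nonneg_left (hC i X hX) (abs_nonneg _)
        _ = _ := by rw [hD, Finset.sum_mul]
    -- conclusion
    have h9 : (nu ι X).real S ≤ (a ^ k / 2)⁻¹ ^ 2 * (a ^ k * D) * X ^ EE k (Fintype.card ι) := by
      have hb : 0 < (a ^ k / 2) ^ 2 := by positivity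
      have h10 : (a ^ k / 2) ^ 2 * (nu ι X).real S ≤ a ^ k * (D * X ^ EE k (Fintype.card ι)) := by
        refine h1.trans (h4.trans (h5.trans ?_))
        exact mul_le_mul_of_nonneg_left h8 (by positivity)
      rw [inv_pow, mul_assoc, ← div_eq_inv_mul, le_div_iff₀ hb]
      linarith
    rw [hvol]
    rw [← ofReal_measureReal (measure_ne_top _ _)]
    exact ENNReal.ofReal_le_ofReal h9

end Pool.Agent.T2H31.NV
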