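import Pool.Agent.T2H31.NV.Stm

/-! # Vinogradov systems at randomly perturbed integers: assembly -/

set_option autoImplicit false

namespace Pool.Agent.T2H31.NV

open MeasureTheory ProbabilityTheory Finset Filter Topology Pool.Agent.T2H31.RC

theorem diag_le (s X : ℕ) : Diag s X ≤ s.factorial * X ^ s := by
  classical
  unfold Diag
  have h1 : (((Fintype.piFinset fun _ : Fin s => Icc 1 X) ×ˢ (Fintype.piFinset fun _ : Fin s => Icc 1 X)).filter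
      fun z : (Fin s → ℕ) × (Fin s → ℕ) => ∃ σ : Equiv.Perm (Fin s), z.2 = z.1 ∘ σ) ⊆
      ((Fintype.piFinset fun _ : Fin s => Icc 1 X) ×ˢ (univ : Finset (Equiv.Perm (Fin s)))).image
        fun p => (p.1, p.1 ∘ p.2) := by
    intro z hz
    rw [mem_filter, mem_product] at hz
    obtain ⟨⟨h1, _⟩, σ, hσ⟩ := hz
    rw [mem_image]
    refine ⟨(z.1, σ), ?_, ?_⟩
    · rw [mem_product]
      exact ⟨h1, mem_univ _⟩
    · rw [← hσ]
  calc _ ≤ _ := card_le_card h1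
    _ ≤ _ := card_image_le
    _ = s.factorial * X ^ s := by
        rw [card_product, Fintype.card_piFinset, card_univ, Fintype.card_perm, Fintype.card_fin]
        simp only [Nat.card_Icc, Nat.add_sub_cancel, prod_const, card_univ, Fintype.card_fin]
        ring

theorem J_mono (x : ℕ → ℝ) (s k : ℕ) {τ τ' : ℝ} (h : τ ≤ τ') (X : ℕ) : J x s k τ X ≤ J x s k τ' X := by
  unfold J
  refine card_le_card fun z hz => ?_
  simp only [mem_filter] at hz ⊢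
  exact ⟨hz.1, fun j hj => (hz.2 j hj).trans h⟩

/-- the saving `(k - 1) / (2 (k ^ 2 + 1))` -/
noncomputable def del (k : ℕ) : ℝ := ((k : ℝ) - 1) / (2 * ((k : ℝ) ^ 2 + 1))

theorem kap_eq (k : ℕ) : kap k = 1 / 2 - del k := by
  unfold kap KK del
  have : ((k : ℝ) ^ 2 + 1) ≠ 0 := by positivity
  field_simp
  ring

theorem del_nonneg (k : ℕ) (hk : 1 ≤ k) : 0 ≤ del k := by
  unfold del
  have : (1 : ℝ) ≤ k := by exact_mod_cast hk
  apply div_nonneg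
  · linarith
  · positivity

theorem expo (s k q r : ℕ) (hk : 1 ≤ k) (hr : 1 ≤ r) (hq : 2 * q + r ≤ 2 * s) (X : ℝ) (hX : 1 ≤ X) :
    X ^ q * X ^ (EE k r) ≤ X ^ ((s : ℝ) - del k) + X ^ (2 * (s : ℝ) - KK k) := by
  have hX0 : 0 < X := by linarith
  have hd := del_nonneg k hk
  have hr' : (1 : ℝ) ≤ r := by exact_mod_cast hr
  have hq' : 2 * (q : ℝ) + r ≤ 2 * s := by exact_mod_cast hq
  have hq0 : (0 : ℝ) ≤ q := Nat.cast_nonneg _
  rw [← Real.rpow_natCast X q, ← Real.rpow_add hX0]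
  unfold EE
  rcases le_total (kap k * (r : ℝ)) ((r : ℝ) - KK k) with h | h
  · rw [max_eq_right h]
    have h1 : X ^ ((q : ℝ) + ((r : ℝ) - KK k)) ≤ X ^ (2 * (s : ℝ) - KK k) :=
      Real.rpow_le_rpow_of_exponent_le hX (by linarith)
    have h2 : 0 ≤ X ^ ((s : ℝ) - del k) := Real.rpow_nonneg hX0.le _
    linarith
  · rw [max_eq_left h]
    have h1 : X ^ ((q : ℝ) + kap k * (r : ℝ)) ≤ X ^ ((s : ℝ) - del k) := by
      apply Real.rpow_le_rpow_of_exponent_le hX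
      rw [kap_eq]
      nlinarith
    have h2 : 0 ≤ X ^ (2 * (s : ℝ) - KK k) := Real.rpow_nonneg hX0.le _
    linarith

theorem main (hBOC : P_BOC) (hPAT : P_PAT) (Ω : Type) [MeasurableSpace Ω] (P : Measure Ω) (D : NNReal)
    (x : ℕ → Ω → ℝ) (hx : Near P D x) :
    ∀ᵐ ω ∂P, ∀ s k : ℕ, 1 ≤ k → ∀ τ : ℝ, 0 < τ → ∃ C : ℝ, ∀ X : ℕ, 1 ≤ X →
      (J (fun n => x n ω) s k τ X : ℝ) ≤ Diag s X +
        C * ((X : ℝ) ^ ((s : ℝ) - del k) + (X : ℝ) ^ (2 * (s : ℝ) - KK k)) := by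
  have h1 : ∀ᵐ ω ∂P, ∀ (k N : ℕ) (c : Σ r : ℕ, (Fin r → ℤ)), 1 ≤ k → 1 ≤ N → (∀ i, c.2 i ≠ 0) →
      ∃ C : ℝ, 0 ≤ C ∧ ∀ X : ℕ, 1 ≤ X →
        (NN (fun n => x n ω) k (fun i => (c.2 i : ℝ)) (N : ℝ) X : ℝ) ≤ C * (X : ℝ) ^ (EE k c.1) := by
    rw [ae_all_iff]
    intro k
    rw [ae_all_iff]
    intro N
    rw [ae_all_iff]
    rintro ⟨r, c⟩
    by_cases h : 1 ≤ k ∧ 1 ≤ N ∧ ∀ i, c i ≠ 0
    · obtain ⟨hk, hN, hc⟩ := h
      filter_upwards [hBOC Ω P D x hx k hk r (fun i => (c i : ℝ)) (fun i => by exact_mod_cast hc i) (N : ℝ)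
        (by exact_mod_cast hN)] with ω hω _ _ _
      exact hω
    · refine Eventually.of_forall fun ω h1 h2 h3 => absurd ⟨h1, h2, h3⟩ h
  filter_upwards [h1] with ω hω s k hk τ hτ
  obtain ⟨M, L, hL, hJ⟩ := hPAT s
  obtain ⟨N, hN⟩ := exists_nat_ge τ
  have hN1 : 1 ≤ N := by
    have : (0 : ℝ) < N := lt_of_lt_of_le hτ hN
    exact_mod_cast this
  have h2 : ∀ l : L, ∃ C : ℝ, 0 ≤ C ∧ ∀ X : ℕ, 1 ≤ X →
      (NN (fun n => x n ω) k (fun i => (l.1.2.2 i : ℝ)) (N : ℝ) X : ℝ) ≤ C * (X : ℝ) ^ (EE k l.1.2.1) :=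
    fun l => hω k N l.1.2 hk hN1 (hL l.1 l.2).2.2
  choose C hC0 hC using h2
  refine ⟨M * ∑ l : L, C l, fun X hX => ?_⟩
  have hX1 : (1 : ℝ) ≤ X := by exact_mod_cast hX
  have h3 : (J (fun n => x n ω) s k τ X : ℝ) ≤ Diag s X + M * ∑ l : L, (X : ℝ) ^ l.1.1 *
      (NN (fun n => x n ω) k (fun i => (l.1.2.2 i : ℝ)) (N : ℝ) X : ℝ) := by
    have h4 := (J_mono (fun n => x n ω) s k hN X).trans (hJ (fun n => x n ω) k (N : ℝ) X (by exact_mod_cast hN1))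
    have h5 : ((J (fun n => x n ω) s k τ X : ℕ) : ℝ) ≤ ((Diag s X + M * ∑ l ∈ L, X ^ l.1 *
      NN (fun n => x n ω) k (fun i => (l.2.2 i : ℝ)) (N : ℝ) X : ℕ) : ℝ) := by exact_mod_cast h4
    refine h5.trans (le_of_eq ?_)
    push_cast
    congr 2
    rw [← sum_coe_sort L (fun l => (X : ℝ) ^ l.1 * (NN (fun n => x n ω) k (fun i => (l.2.2 i : ℝ)) (N : ℝ) X : ℝ))]
  refine h3.trans ?_
  rw [mul_assoc, sum_mul]
  refine add_le_add le_rfl (mul_le_mul_of_nonneg_left (sum_le_sum fun l _ => ?_) (Nat.cast_nonneg M))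
  calc (X : ℝ) ^ l.1.1 * (NN (fun n => x n ω) k (fun i => (l.1.2.2 i : ℝ)) (N : ℝ) X : ℝ)
      ≤ (X : ℝ) ^ l.1.1 * (C l * (X : ℝ) ^ (EE k l.1.2.1)) := by
        refine mul_le_mul_of_nonneg_left (hC l X hX) ?_
        positivity
    _ = C l * ((X : ℝ) ^ l.1.1 * (X : ℝ) ^ (EE k l.1.2.1)) := by ring
    _ ≤ C l * ((X : ℝ) ^ ((s : ℝ) - del k) + (X : ℝ) ^ (2 * (s : ℝ) - KK k)) := by
        refine mul_le_mul_of_nonneg_left ?_ (hC0 l)
        exact expo s k l.1.1 l.1.2.1 hk (hL l.1 l.2).1 (hL l.1 l.2).2.1 X hX1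

end Pool.Agent.T2H31.NV
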