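import Pool.Agent.T2H31.RC.Defs

/-! # Vinogradov systems at randomly perturbed integers: definitions

`ee x = exp (2 π i x)` is in `Pool/Agent/T2H31/RC/Defs.lean`. -/

set_option autoImplicit false

namespace Pool.Agent.T2H31.NV

open MeasureTheory ProbabilityTheory Finset Filter Topology Pool.Agent.T2H31.RC

/-- the number of the `(m, n)`, `1 ≤ m i, n i ≤ X` (`i < s`) with `|∑ x (m i) ^ j - ∑ x (n i) ^ j| ≤ τ` for `1 ≤ j ≤ k`;
for `x n = n` and `τ < 1` this is the `J_(s,k)(X)` of Vinogradov -/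
noncomputable def J (x : ℕ → ℝ) (s k : ℕ) (τ : ℝ) (X : ℕ) : ℕ :=
  open Classical in
  (((Fintype.piFinset fun _ : Fin s => Icc 1 X) ×ˢ (Fintype.piFinset fun _ : Fin s => Icc 1 X)).filter fun z : (Fin s → ℕ) × (Fin s → ℕ) =>
    ∀ j ∈ Icc 1 k, |∑ i, x (z.1 i) ^ j - ∑ i, x (z.2 i) ^ j| ≤ τ).card

/-- Vinogradov's `J_(s,k)(X)`: the number of the solutions of the system in integers `1 ≤ m i, n i ≤ X` -/
noncomputable def Jint (s k X : ℕ) : ℕ :=
  open Classical in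
  (((Fintype.piFinset fun _ : Fin s => Icc 1 X) ×ˢ (Fintype.piFinset fun _ : Fin s => Icc 1 X)).filter
    fun z : (Fin s → ℕ) × (Fin s → ℕ) => ∀ j ∈ Icc 1 k, ∑ i, z.1 i ^ j = ∑ i, z.2 i ^ j).card

/-- the number of the diagonal solutions: `n` is a permutation of `m` -/
noncomputable def Diag (s X : ℕ) : ℕ :=
  open Classical in
  (((Fintype.piFinset fun _ : Fin s => Icc 1 X) ×ˢ (Fintype.piFinset fun _ : Fin s => Icc 1 X)).filter fun z : (Fin s → ℕ) × (Fin s → ℕ) =>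
    ∃ σ : Equiv.Perm (Fin s), z.2 = z.1 ∘ σ).card

/-- the `x n` are independent real random variables, `x n` is in `[n - 1/2, n + 1/2)` and its density is at most `D` -/
structure Near {Ω : Type} [MeasurableSpace Ω] (P : Measure Ω) (D : NNReal) (x : ℕ → Ω → ℝ) : Prop where
  prob : IsProbabilityMeasure P
  meas : ∀ n, Measurable (x n)
  indep : iIndepFun x P
  law : ∀ n : ℕ, P.map (x n) ≤ (D : ENNReal) • (volume.restrict (Set.Ico ((n : ℝ) - 1 / 2) ((n : ℝ) + 1 / 2)))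

/-- `k (k + 1) / 2` -/
noncomputable def KK (k : ℕ) : ℝ := (k : ℝ) * (k + 1) / 2

/-- `1 - K / (k ^ 2 + 1)` -/
noncomputable def kap (k : ℕ) : ℝ := 1 - KK k / ((k : ℝ) ^ 2 + 1)

/-- the exponent of the mean value of order `r` -/
noncomputable def EE (k r : ℕ) : ℝ := max (kap k * r) (r - KK k)

/-- the number of the injective `z : ι → {1, ..., X}` with `|∑ c i x (z i) ^ j| ≤ τ` for `1 ≤ j ≤ k` -/
noncomputable def NN {ι : Type} [Fintype ι] [DecidableEq ι] (x : ℕ → ℝ) (k : ℕ) (c : ι → ℝ) (τ : ℝ) (X : ℕ) : ℕ :=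
  open Classical in
  ((Fintype.piFinset fun _ : ι => Icc 1 X).filter fun z =>
    Function.Injective z ∧ ∀ j : Fin k, |∑ i, c i * x (z i) ^ ((j : ℕ) + 1)| ≤ τ).card

/-- `∫_0^X e(α_1 y + ... + α_k y ^ k) dy` -/
noncomputable def II (k : ℕ) (X : ℝ) (α : Fin k → ℝ) : ℂ :=
  ∫ y in (0 : ℝ)..X, ee (∑ j, α j * y ^ ((j : ℕ) + 1))

end Pool.Agent.T2H31.NV
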