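import Pool.Agent.T2H31.NV.Defs

/-! # Vinogradov systems at randomly perturbed integers: the statements (packages)

Hand-in for `MP_e21eee_nt` (Vinogradov mean values without the epsilon). THEOREM. Let `x n` be independent random numbers near
the integers (`Near`, for instance uniform on `[n - η, n + η)`, `η > 0` arbitrarily small). Almost surely, for all `s, k ≥ 1`
and `τ > 0`, `J (x) s k τ X ≤ Diag s X + C (X ^ (s - (k-1)/(2(k^2+1))) + X ^ (2 s - k(k+1)/2))` for all `X ≥ 1`.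
So there is paucity of nondiagonal solutions in the whole range `s < k(k+1)/2`, and the conjectured bound holds for all `s, k`,
also for `(3, 2)`.

Proof. A solution has a pattern (which of the variables are equal); after cancellation we have injective `z : Fin r → [1, X]`
with nonzero coefficients `c`. The mean number of these is, up to a constant, the VOLUME of the real solution set, which is
bounded by `∫ |I(α)| ^ r dα`, `I(α) = ∫_0^X e(α_1 y + ... + α_k y ^ k) dy`; the classical bound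
`|I(α)| ≤ C X (max |α_j| X ^ j) ^ (-1/k)` gives `X ^ (r - K)` for `r ≥ k ^ 2 + 1` (note `k ^ 2 + 1 ≤ 2 K`) and `X ^ (κ r)`,
`κ < 1/2`, for smaller `r`. Variance: overlapping pairs have one free variable less. -/

set_option autoImplicit false

namespace Pool.Agent.T2H31.NV

open MeasureTheory ProbabilityTheory Finset Filter Topology Pool.Agent.T2H31.RC

/-- SUB. Sublevel sets of polynomials. Proof: let `m` be the measure of the set `E`, `m > 0`. There are `d + 1` points of `E` with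
mutual distances `≥ ρ = m / (4 (d + 1))` (take a maximal `ρ`-separated subset; if it had at most `d` elements `E` would be covered by
`d` intervals of length `2 ρ`). By Lagrange's interpolation formula at these points the coefficients of the polynomial are at most
`(d + 1) λ 2 ^ d / ρ ^ d` in absolute value (the coefficients of `∏ (X - x_i)`, `x_i ∈ [0, 1]`, `d` factors, are at most `2 ^ d`).
So `B ≤ C λ m ^ (-d)`. -/
def P_SUB : Prop :=
  ∀ d : ℕ, 1 ≤ d → ∃ C : ℝ, 0 ≤ C ∧ ∀ (q : Fin (d + 1) → ℝ) (B l : ℝ), 0 < B → 0 < l → (∃ j, B ≤ |q j|) →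
    volume {y : ℝ | 0 ≤ y ∧ y ≤ 1 ∧ |∑ j, q j * y ^ (j : ℕ)| ≤ l} ≤ ENNReal.ofReal (C * (l / B) ^ (1 / (d : ℝ)))

/-- VDC (from SUB). Proof: `k = 1` is explicit. Let `k ≥ 2`, `f(y) = ∑ α_j y ^ (j+1)`; the polynomial `f'` of degree `≤ k - 1` has
a coefficient of absolute value `≥ B`; for `B ≤ 1` use the trivial bound. Let `l = B ^ (1/k)`. Outside of `{|f'| ≤ l}`, which has measure
`≤ C (l / B) ^ (1/(k-1)) = C B ^ (-1/k)`, use the first derivative test on intervals on which `f'` is monotone and `|f'| ≥ l`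
(`‖∫_a^b e(f)‖ ≤ 1 / l`, integration by parts, with `∫ |f''| / f' ^ 2 = |1/f'(a) - 1/f'(b)|`; see also
`Pool/Agent/R306/GP/VdC.lean`, `vdc`). The number of the intervals is at most `3 k + 1`: cut at the zeros of `f' - l`, `f' + l`, `f''`
(if `f'' = 0` then `f'` is constant). A convenient form of the cutting: if `F` is a finite set and for all `c ≤ d` in `[0, 1]` with
`F ∩ (c, d) = ∅` one has `‖∫_c^d g‖ ≤ |[c, d] ∩ E| + M`, then `‖∫_c^d g‖ ≤ |[c, d] ∩ E| + (|F| + 1) M` for all `c ≤ d`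
(induction on `|F|`). -/
def P_VDC : Prop :=
  ∀ k : ℕ, 1 ≤ k → ∃ C : ℝ, 0 ≤ C ∧ ∀ (α : Fin k → ℝ) (B : ℝ), 0 < B → (∃ j, B ≤ |α j|) →
    ‖II k 1 α‖ ≤ C * B ^ (-(1 / (k : ℝ)))

/-- DEC (from VDC). Proof: `II k X α = X * II k 1 β`, `β_j = α_j X ^ (j+1)` (substitution). With `B = max |β_j|`:
`|II k 1 β| ≤ min (1, C B ^ (-1/k)) ≤ C' (1 + B) ^ (-1/k) ≤ C' ∏ (1 + |β_j|) ^ (-1/k^2)`. -/
def P_DEC : Prop :=
  ∀ k : ℕ, 1 ≤ k → ∃ C : ℝ, 0 ≤ C ∧ ∀ X : ℝ, 1 ≤ X → ∀ α : Fin k → ℝ,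
    ‖II k X α‖ ≤ C * X * ∏ j : Fin k, (1 + |α j| * X ^ ((j : ℕ) + 1)) ^ (-(1 / (k : ℝ) ^ 2))

/-- MEA (from DEC). Proof. `r ≤ k ^ 2`: `(1 + u) ^ (-r/k^2) ≤ (1 + u) ^ (-ρ)`, `ρ = r / (k ^ 2 + 1) < 1`, and
`∫_{-A}^A (1 + |a| X ^ j) ^ (-ρ) da ≤ C X ^ (-j ρ)`; the product over `j = 1, ..., k` is `C X ^ (-ρ K)`, and
`r - ρ K = κ r`. `r ≥ k ^ 2 + 1`: `‖II‖ ≤ X`, so `‖II‖ ^ r ≤ X ^ (r - k^2 - 1) ‖II‖ ^ (k^2 + 1)`, and
`∫ (1 + |a| X ^ j) ^ (-(k^2+1)/k^2) da ≤ C X ^ (-j)`. (Integrals of products over `Fin k → ℝ`: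
`MeasureTheory.integral_fintype_prod_volume_eq_prod` and relatives; `EE k r` is at least each of the two exponents.) -/
def P_MEA : Prop :=
  ∀ k : ℕ, 1 ≤ k → ∀ (r : ℕ) (A : ℝ), 0 < A → ∃ C : ℝ, 0 ≤ C ∧ ∀ X : ℝ, 1 ≤ X →
    ∫ α in {α : Fin k → ℝ | ∀ j, |α j| ≤ A}, ‖II k X α‖ ^ r ≤ C * X ^ (EE k r)

/-- VOL (from MEA). Proof: let `a = 1 / (8 k τ)`. If `|t_j| ≤ τ` for all `j` then the real part of `e(∑ y_j t_j)` is at least
`1/2` for `y ∈ [0, a] ^ k`, so `1 ≤ (2 / a ^ k) ^ 2 ‖∫_{[0,a]^k} e(∑ y_j t_j) dy‖ ^ 2`. Insert `t_j = ∑ c_i z_i ^ (j+1) - u_j`,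
write the square as an integral over `y, y' ∈ [0, a] ^ k` and exchange the integrals: the volume is at most
`C ∫∫ ∏_i ‖II k X (c_i (y - y'))‖ dy dy' ≤ C a ^ k ∫_{|α| ≤ a} ∏_i ‖II k X (c_i α)‖ dα`. Then
`∏_i b_i ≤ ∑_i b_i ^ r` (`r = |ι| ≥ 1`, `b_i ≥ 0`) and the substitution `α → c_i α`. For empty `ι` the volume is at most `1`. -/
def P_VOL : Prop :=
  ∀ k : ℕ, 1 ≤ k → ∀ (ι : Type) [Fintype ι] (c : ι → ℝ), (∀ i, c i ≠ 0) → ∀ τ : ℝ, 0 < τ →
    ∃ C : ℝ, 0 ≤ C ∧ ∀ X : ℝ, 1 ≤ X → ∀ u : Fin k → ℝ,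
      volume {z : ι → ℝ | (∀ i, 0 ≤ z i ∧ z i ≤ X) ∧ ∀ j : Fin k, |∑ i, c i * z i ^ ((j : ℕ) + 1) - u j| ≤ τ} ≤
        ENNReal.ofReal (C * X ^ (EE k (Fintype.card ι)))

/-- CUB. Proof: for injective `z` the joint law of `(x (z i))_i` is the product of the laws (independence), which is at most
`D ^ |ι|` times the Lebesgue measure on the cube `∏ [z i - 1/2, z i + 1/2)`; the cubes are disjoint and contained in
`[0, X + 1] ^ ι`. -/
def P_CUB : Prop :=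
  ∀ (Ω : Type) [MeasurableSpace Ω] (P : Measure Ω) (D : NNReal) (x : ℕ → Ω → ℝ), Near P D x →
    ∀ (ι : Type) [Fintype ι] [DecidableEq ι] (X : ℕ) (S : Set (ι → ℝ)), MeasurableSet S →
      (open Classical in
        ∑ z ∈ (Fintype.piFinset fun _ : ι => Icc 1 X).filter (fun z => Function.Injective z),
          P {ω | (fun i => x (z i) ω) ∈ S}) ≤
        (D : ENNReal) ^ (Fintype.card ι) * volume (S ∩ {v | ∀ i, 0 ≤ v i ∧ v i ≤ (X : ℝ) + 1})

/-- FUB (from VOL). Proof: Fubini. For fixed `z = v ∘ inl` with `|∑ c_i z_i ^ j| ≤ τ` the volume of the `v ∘ inr` is at most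
`C X ^ (EE k |T|)` by VOL with `u_j = - ∑_{i ∉ T} c_i z_(φ i) ^ (j+1)`, and the volume of the `z` is at most
`C X ^ (EE k r)` (`MeasureTheory.volume_preserving_sumPiEquivProdPi`). -/
def P_FUB : Prop :=
  ∀ k : ℕ, 1 ≤ k → ∀ (r : ℕ) (c : Fin r → ℝ), (∀ i, c i ≠ 0) → ∀ τ : ℝ, 0 < τ →
    ∀ (T : Finset (Fin r)) (φ : Fin r → Fin r), ∃ C : ℝ, 0 ≤ C ∧ ∀ X : ℝ, 1 ≤ X →
      volume {v : Fin r ⊕ T → ℝ | (∀ i, 0 ≤ v i ∧ v i ≤ X) ∧
        (∀ j : Fin k, |∑ i, c i * v (Sum.inl i) ^ ((j : ℕ) + 1)| ≤ τ) ∧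
        ∀ j : Fin k, |∑ i : T, c i * v (Sum.inr i) ^ ((j : ℕ) + 1) +
          ∑ i ∈ Tᶜ, c i * v (Sum.inl (φ i)) ^ ((j : ℕ) + 1)| ≤ τ} ≤
        ENNReal.ofReal (C * X ^ (EE k r + EE k T.card))

/-- MOM (from CUB, VOL, FUB). Proof: `NN = ∑_z 1(A_z)` over the injective `z`. The mean is at most `D ^ r` times the volume of VOL with
`u = 0`. Variance: `A_z` and `A_z'` are independent if `z` and `z'` have disjoint ranges; so the variance is at most the sum of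
`P (A_z ∩ A_z')` over the pairs whose ranges intersect. Such a pair is determined by `T = {i : z' i ∉ range z} ≠ Fin r`,
`φ` with `z' i = z (φ i)` for `i ∉ T` and the injective map `(z, z' restricted to T)` on `Fin r ⊕ T`. By CUB and FUB the sum over these is at most
`C X ^ (EE k r + EE k |T|)`, and `EE k |T| ≤ EE k (r - 1) ≤ EE k r - κ`, as `|T| ≤ r - 1` (`0 < κ ≤ 1`).
(`ProbabilityTheory.IndepFun`, `iIndepFun.indepFun_finset`.) -/
def P_MOM : Prop :=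
  ∀ (Ω : Type) [MeasurableSpace Ω] (P : Measure Ω) (D : NNReal) (x : ℕ → Ω → ℝ), Near P D x →
    ∀ k : ℕ, 1 ≤ k → ∀ (r : ℕ) (c : Fin r → ℝ), (∀ i, c i ≠ 0) → ∀ τ : ℝ, 0 < τ → ∃ C : ℝ, 0 ≤ C ∧ ∀ X : ℕ, 1 ≤ X →
      (∫ ω, (NN (fun n => x n ω) k c τ X : ℝ) ∂P) ≤ C * (X : ℝ) ^ (EE k r) ∧
      Var[fun ω => (NN (fun n => x n ω) k c τ X : ℝ); P] ≤ C * (X : ℝ) ^ (2 * EE k r - kap k)

/-- BOC (from MOM). Proof: `NN` is nondecreasing in `X`. By Chebyshev's inequality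
`P (NN(2 ^ m) > (C + 1) 2 ^ (m E)) ≤ C 2 ^ (- κ m)`, `E = EE k r ≥ 0`, `κ > 0`; Borel-Cantelli; then `2 ^ m ≤ X < 2 ^ (m + 1)`. -/
def P_BOC : Prop :=
  ∀ (Ω : Type) [MeasurableSpace Ω] (P : Measure Ω) (D : NNReal) (x : ℕ → Ω → ℝ), Near P D x →
    ∀ k : ℕ, 1 ≤ k → ∀ (r : ℕ) (c : Fin r → ℝ), (∀ i, c i ≠ 0) → ∀ τ : ℝ, 0 < τ →
      ∀ᵐ ω ∂P, ∃ C : ℝ, 0 ≤ C ∧ ∀ X : ℕ, 1 ≤ X → (NN (fun n => x n ω) k c τ X : ℝ) ≤ C * (X : ℝ) ^ (EE k r)

/-- PAT. Patterns. Proof: let `(m, n)` be a solution counted by `J` and for a value `v` let `c_v` be the number of the `i` with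
`m i = v` minus the number of the `i` with `n i = v`. If all `c_v = 0` the solution is diagonal. Otherwise let `r ≥ 1` be the number
of the `v` with `c_v ≠ 0` and `q` the number of the other values; each of the latter is taken at least twice, so
`2 q + r ≤ 2 s`. The solution is determined by the map `Fin s ⊕ Fin s → Fin q ⊕ Fin r` (at most `M` possibilities, which also
gives the coefficients `c`), the `q` values with `c_v = 0` (at most `X ^ q` possibilities) and the injective map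
`Fin r → [1, X]`, which is counted by `NN` (write `j` in `Icc 1 k` as `j' + 1`). -/
def P_PAT : Prop :=
  ∀ s : ℕ, ∃ (M : ℕ) (L : Finset (ℕ × (Σ r : ℕ, (Fin r → ℤ)))),
    (∀ l ∈ L, 1 ≤ l.2.1 ∧ 2 * l.1 + l.2.1 ≤ 2 * s ∧ ∀ i, l.2.2 i ≠ 0) ∧
    ∀ (x : ℕ → ℝ) (k : ℕ) (τ : ℝ) (X : ℕ), 0 < τ →
      J x s k τ X ≤ Diag s X + M * ∑ l ∈ L, X ^ l.1 * NN x k (fun i => (l.2.2 i : ℝ)) τ X

/-- EXI. The models exist: product measure (`ProbabilityTheory.iIndepFun_infinitePi` and relatives, see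
`Pool/Agent/T2H31/RC/T_MOD.lean`) of the uniform distributions on `[n - η, n + η)`. -/
def P_EXI : Prop :=
  ∀ η : ℝ, 0 < η → η ≤ 1 / 2 → ∃ (Ω : Type) (_ : MeasurableSpace Ω) (P : Measure Ω) (x : ℕ → Ω → ℝ),
    Near P (Real.toNNReal (1 / (2 * η))) x ∧ ∀ n ω, |x n ω - n| ≤ η

/-- INT. The integers: `J` is the number of the solutions of Vinogradov's system. -/
def P_INT : Prop :=
  ∀ (s k : ℕ) (τ : ℝ) (X : ℕ), 0 < τ → τ < 1 → J (fun n => (n : ℝ)) s k τ X = Jint s k X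

end Pool.Agent.T2H31.NV
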